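import Pool.Agent.Zk46.PP.Main

set_option autoImplicit false

/-! Near palindromes: the count of the primes. -/

namespace Pool.Agent.Zk46.PP
open Finset
open Pool.Agent.H807R2.Dav
open Pool.Agent.H373R2.T7 (ev_log' ev_L')

/-- the integers with exactly `2M+1` digits in base `b` such that the digits number `j` and `2M-j` differ by at
most `w j` -/
def Near (b M : ℕ) (w : ℕ → ℕ) : Finset ℕ :=
  (Ico (b ^ (2 * M)) (b ^ (2 * M + 1))).filter fun n =>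
    ∀ j < M, dg b n j ≤ dg b n (2 * M - j) + w j ∧ dg b n (2 * M - j) ≤ dg b n j + w j

/-- the sets of pairs: the leading digit is not zero -/
def RR (b : ℕ) (w : ℕ → ℕ) (j : ℕ) : Finset (ℕ × ℕ) := if j = 0 then (Rw b (w 0)).filter fun p => 1 ≤ p.2 else Rw b (w j)

lemma RR_sub (b : ℕ) (w : ℕ → ℕ) (j : ℕ) : RR b w j ⊆ range b ×ˢ range b := by
  unfold RR
  split_ifs
  · exact (filter_subset _ _).trans (Rw_sub _ _)
  · exact Rw_sub _ _

lemma mem_Rw {b w x y : ℕ} : (x, y) ∈ Rw b w ↔ (x < b ∧ y < b) ∧ x ≤ y + w ∧ y ≤ x + w := by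
  unfold Rw
  simp only [mem_filter, mem_product, mem_range]

lemma SS_eq {b M : ℕ} (hb : 2 ≤ b) (hM : 1 ≤ M) (w : ℕ → ℕ) : SS b M (RR b w) = Near b M w := by
  have hb0 : 0 < b := by omega
  unfold SS Near
  ext n
  simp only [mem_filter, mem_range, mem_Ico]
  constructor
  · rintro ⟨h1, h2⟩
    have h3 := h2 0 (by omega)
    unfold RR at h3
    rw [if_pos rfl, mem_filter] at h3
    refine ⟨⟨?_, h1⟩, fun j hj => ?_⟩
    · have h4 : 1 ≤ dg b n (2 * M - 0) := h3.2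
      rw [Nat.sub_zero] at h4
      by_contra hcon
      rw [not_le] at hcon
      unfold dg at h4
      rw [Nat.div_eq_of_lt hcon, Nat.zero_mod] at h4
      omega
    · have h4 := h2 j hj
      have h5 : (dg b n j, dg b n (2 * M - j)) ∈ Rw b (w j) := by
        unfold RR at h4
        split_ifs at h4 with h6
        · rw [h6] at h4 ⊢
          exact (mem_filter.1 h4).1
        · exact h4
      exact (mem_Rw.1 h5).2
  · rintro ⟨⟨h1, h2⟩, h3⟩
    refine ⟨h2, fun j hj => ?_⟩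
    have h4 : (dg b n j, dg b n (2 * M - j)) ∈ Rw b (w j) :=
      mem_Rw.2 ⟨⟨dg_lt hb0 _ _, dg_lt hb0 _ _⟩, h3 j hj⟩
    unfold RR
    split_ifs with h6
    · rw [mem_filter]
      refine ⟨by rw [h6] at h4 ⊢; exact h4, ?_⟩
      rw [h6]
      change 1 ≤ dg b n (2 * M - 0)
      rw [Nat.sub_zero]
      unfold dg
      have h7 : n / b ^ (2 * M) < b := by
        rw [Nat.div_lt_iff_lt_mul (by positivity), ← pow_succ']; exact h2
      rw [Nat.mod_eq_of_lt h7]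
      exact (Nat.one_le_div_iff (by positivity)).2 h1
    · exact h4

/-- the logarithmic factor -/
noncomputable def lf (b : ℕ) : ℝ := 60 * (1 + Real.log b) ^ 2

lemma lf_ev {ε : ℝ} (hε : 0 < ε) : ∃ b₀ : ℕ, 4 ≤ b₀ ∧ ∀ b : ℕ, b₀ ≤ b → lf b ≤ (b : ℝ) ^ ε := by
  obtain ⟨b1, h1⟩ := ev_pow hε 2 240
  obtain ⟨b2, h2⟩ := ev_L' 1
  refine ⟨max (max b1 b2) 4, le_max_right _ _, fun b hb => ?_⟩
  have h3 := h1 b ((le_max_left _ _).trans ((le_max_left _ _).trans hb))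
  have h4 := h2 b ((le_max_right _ _).trans ((le_max_left _ _).trans hb))
  refine le_trans ?_ h3
  unfold lf
  nlinarith

/-- the bounds for the cells -/
noncomputable def HH (b : ℕ) (w : ℕ → ℕ) (j l l' : ℕ) : ℝ := if j = 0 then 1 else hh b (w j) l l'

/-- the sums of the bounds -/
noncomputable def LL (b : ℕ) (w : ℕ → ℕ) (j : ℕ) : ℝ := if j = 0 then (b : ℝ) ^ 2 else lf b * (b / (w j + 1))

lemma HH_PB {b : ℕ} {w : ℕ → ℕ} {j : ℕ} (hw : w j < b) : PB b (RR b w j) (HH b w j) := by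
  unfold RR
  by_cases h : j = 0
  · rw [if_pos h]
    intro α β l _ l' _ _ _
    unfold HH
    rw [if_pos h, mul_one]
    exact pair_triv _ _ _
  · rw [if_neg h]
    intro α β l hl l' hl' h1 h2
    unfold HH
    rw [if_neg h]
    exact Rw_PB hw α β l hl l' hl' h1 h2

lemma LL_prod {b : ℕ} (hb : 2 ≤ b) {w : ℕ → ℕ} (J : Finset ℕ) {κ : ℝ} (hκ : lf b ≤ κ) (hκ1 : 1 ≤ κ)
    (hw : ∀ j ∈ J, w j < b) : ∏ j ∈ J, LL b w j ≤ b ^ 2 * (κ ^ J.card * ∏ j ∈ J, ((b : ℝ) / (w j + 1))) := by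
  have hbr : (2 : ℝ) ≤ b := by exact_mod_cast hb
  have hlog : 0 ≤ Real.log b := Real.log_nonneg (by linarith)
  have hlf0 : 0 ≤ lf b := by unfold lf; positivity
  have h1 : ∏ j ∈ J, LL b w j ≤ ∏ j ∈ J, ((if j = 0 then (b : ℝ) ^ 2 else 1) * (κ * ((b : ℝ) / (w j + 1)))) := by
    refine prod_le_prod (fun j _ => ?_) fun j hj => ?_
    · unfold LL; split_ifs <;> positivity
    · unfold LL
      have h2 : (1 : ℝ) ≤ (b : ℝ) / (w j + 1) := by
        rw [le_div_iff₀ (by positivity), one_mul]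
        exact_mod_cast hw j hj
      split_ifs
      · have : 1 ≤ κ * ((b : ℝ) / (w j + 1)) := one_le_mul_of_one_le_of_one_le hκ1 h2
        have h3 : (0 : ℝ) ≤ (b : ℝ) ^ 2 := by positivity
        nlinarith
      · rw [one_mul]
        exact mul_le_mul_of_nonneg_right hκ (by linarith)
  refine h1.trans ?_
  rw [prod_mul_distrib, prod_mul_distrib, prod_const]
  apply mul_le_mul_of_nonneg_right _ (by positivity)
  by_cases h0 : 0 ∈ J
  · rw [prod_ite_eq_of_mem' J 0 (fun _ => (b : ℝ) ^ 2) h0]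
  · have : ∏ j ∈ J, (if j = 0 then (b : ℝ) ^ 2 else 1) = 1 := by
      refine prod_eq_one fun j hj => ?_
      rw [if_neg]
      intro h; rw [h] at hj; exact h0 hj
    rw [this]
    nlinarith

/-- the data for near palindromes -/
lemma near_dat {b : ℕ} (hb : 4 ≤ b) {ε K : ℝ} (hε : 0 < ε) (hε5 : ε ≤ 1 / 5) (hK : 0 ≤ K) (hlf : lf b ≤ (b : ℝ) ^ (ε / 2))
    {M : ℕ} {w : ℕ → ℕ} (hw : ∀ j < M, w j < b)
    (h1 : ∀ m ≤ M, ∏ j ∈ range m, ((b : ℝ) / (w j + 1)) ≤ K * (b : ℝ) ^ ((1 / 2 - ε) * m))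
    (h2 : ∀ u ≤ M, ∏ j ∈ Ico (M - u) M, ((b : ℝ) / (w j + 1)) ≤ K * (b : ℝ) ^ ((1 / 2 - ε) * u))
    (h3 : ∏ j ∈ range M, ((b : ℝ) / (w j + 1)) ≤ K * (b : ℝ) ^ ((2 / 5 - ε) * M)) :
    Dat b M (HH b w) (LL b w) (b ^ 2 * K) (1 / 2 - ε / 2) ∧
    ∏ j ∈ range M, LL b w j ≤ (b ^ 2 * K) * (b : ℝ) ^ ((2 / 5 - ε / 2) * M) := by
  have hb2 : 2 ≤ b := by omega
  have hbr : (4 : ℝ) ≤ b := by exact_mod_cast hb
  have hb0 : (0 : ℝ) < b := by linarith
  have hb1 : (1 : ℝ) ≤ b := by linarith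
  have hκ1 : 1 ≤ (b : ℝ) ^ (ε / 2) := Real.one_le_rpow hb1 (by positivity)
  have key : ∀ (J : Finset ℕ) (m : ℕ) (γ : ℝ), J.card = m → (∀ j ∈ J, w j < b) →
      ∏ j ∈ J, ((b : ℝ) / (w j + 1)) ≤ K * (b : ℝ) ^ ((γ - ε) * m) →
      ∏ j ∈ J, LL b w j ≤ (b ^ 2 * K) * (b : ℝ) ^ ((γ - ε / 2) * m) := by
    intro J m γ hJ hwJ hJK
    refine (LL_prod hb2 J hlf hκ1 hwJ).trans ?_
    rw [hJ]
    calc (b : ℝ) ^ 2 * (((b : ℝ) ^ (ε / 2)) ^ m * ∏ j ∈ J, ((b : ℝ) / (w j + 1))) ≤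
          (b : ℝ) ^ 2 * (((b : ℝ) ^ (ε / 2)) ^ m * (K * (b : ℝ) ^ ((γ - ε) * m))) := by gcongr
      _ = (b ^ 2 * K) * ((b : ℝ) ^ (ε / 2 * m) * (b : ℝ) ^ ((γ - ε) * m)) := by
          rw [← Real.rpow_natCast ((b : ℝ) ^ (ε / 2)), ← Real.rpow_mul hb0.le]; ring
      _ = _ := by
          rw [← Real.rpow_add hb0]
          congr 2; ring
  refine ⟨⟨?_, ?_, ?_, ?_⟩, ?_⟩
  · intro j l l'
    unfold HH
    split_ifs
    · norm_num
    · exact hh_nonneg _ _ _ _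
  · intro j hj
    unfold HH LL
    split_ifs with h0
    · simp [sq]
    · exact (hh_sum hb2).trans (le_of_eq (by unfold lf; ring))
  · intro m hm
    exact key (range m) m (1 / 2) (card_range m) (fun j hj => hw j (by have := mem_range.1 hj; omega)) (h1 m hm)
  · intro u hu
    exact key (Ico (M - u) M) u (1 / 2) (by rw [Nat.card_Ico]; omega) (fun j hj => hw j (mem_Ico.1 hj).2) (h2 u hu)
  · exact key (range M) M (2 / 5) (card_range M) (fun j hj => hw j (mem_range.1 hj)) h3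

end Pool.Agent.Zk46.PP
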