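import Pool.Agent.Zk46.PP.Cls

set_option autoImplicit false

/-! The sum over all classes. -/

namespace Pool.Agent.Zk46.PP
open Finset

theorem class_sum {b : ℕ} (hb : 4 ≤ b) {K c : ℝ} (hK : 0 ≤ K) (hc0 : 0 ≤ c) (hc : c < 1 / 2) :
    ∃ C : ℝ, 0 < C ∧ ∀ (M : ℕ) (h : ℕ → ℕ → ℕ → ℝ) (Λ : ℕ → ℝ), Dat b M h Λ K c → ∀ (H : ℕ → ℝ) (F : Finset ℕ),
      (∀ k ∈ F, 0 ≤ H k) → (∀ k ∈ F, k < b ^ (2 * M + 1)) →
      (∀ k ∈ F, ∀ J ⊆ range M, H k ≤ ∏ j ∈ J, h j (dg b k (2 * M - j)) (dg b k j)) →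
      ∀ (A : ℕ → ℤ) (Q : ℕ → ℕ), (∀ k ∈ F, 0 < Q k) → ∀ T : ℝ, 1 ≤ T →
      (∀ k ∈ F, T ≤ Q k * BB b M k (A k) (Q k)) →
      (∀ k ∈ F, (b : ℝ) ^ 3 * (Q k * BB b M k (A k) (Q k)) ≤ (b : ℝ) ^ M) →
      ∑ k ∈ F, H k * (Q k * BB b M k (A k) (Q k)) ^ (-(1 / 2) : ℝ) ≤ C * T ^ (-((1 / 2 - c) / 2)) := by
  classical
  set δ : ℝ := (1 / 2 - c) / 2 with hδ
  have hδ0 : 0 < δ := by rw [hδ]; linarith
  obtain ⟨C1, hC1, hsm⟩ := smooth_sum (b := b) (by omega) hδ0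
  obtain ⟨C2, hC2, hpw⟩ := pow_sum (b := b) (by omega) hδ0
  have hb0 : 0 < b := by omega
  have hbr : (0 : ℝ) < b := by exact_mod_cast hb0
  have hb1 : (1 : ℝ) ≤ b := by exact_mod_cast (by omega : 1 ≤ b)
  refine ⟨42 * b ^ 3 * K ^ 2 * (C2 * C1 * C2) + 1, by positivity, ?_⟩
  intro M h Λ hD H F hH0 hF hH A Q hQ T hT hTq hqM
  set B : ℕ → ℝ := fun k => BB b M k (A k) (Q k) with hBdef
  have hB1 : ∀ k, 1 ≤ B k := fun k => one_le_BB _ _ _ _ _
  have hQr : ∀ k ∈ F, (1 : ℝ) ≤ Q k := fun k hk => by exact_mod_cast hQ k hk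
  have hex : ∀ k ∈ F, ∃ u, u ≤ M ∧ Q k < Nat.gcd (Q k) (b ^ (M - u)) * b ^ u ∧
      Nat.gcd (Q k) (b ^ (M - u)) * b ^ u ≤ b * Q k := by
    intro k hk
    refine exists_u (by omega) (hQ k hk) ?_
    have h1 := hqM k hk
    have h2 : (Q k : ℝ) < b ^ M := by
      have h3 : (Q k : ℝ) ≤ Q k * B k := le_mul_of_one_le_right (by linarith [hQr k hk]) (hB1 k)
      have h4 : (1 : ℝ) < b ^ 3 := one_lt_pow₀ (by exact_mod_cast (by omega : 1 < b)) (by norm_num)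
      have h5 : 0 < (Q k : ℝ) * B k := by
        have := hQr k hk
        have := hB1 k
        positivity
      nlinarith
    exact_mod_cast h2
  choose! u hu1 hu2 hu3 using hex
  have hexv : ∀ k ∈ F, ∃ v : ℕ, B k ≤ (b : ℝ) ^ v ∧ (b : ℝ) ^ v ≤ b * B k := fun k _ => near_pow (by omega) (hB1 k)
  choose! v hv1 hv2 using hexv
  set t : ℕ → ℕ := fun k => Nat.gcd (Q k) (b ^ (M - u k)) with ht
  have ht0 : ∀ k ∈ F, 0 < t k := fun k hk => Nat.gcd_pos_of_pos_left _ (hQ k hk)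
  set D : ℕ × ℕ × ℕ → ℝ := fun x => (b : ℝ) ^ x.1 * x.2.1 * (b : ℝ) ^ x.2.2 with hDd
  set cls : ℕ → ℕ × ℕ × ℕ := fun k => (u k, t k, v k) with hcls
  set I : Finset (ℕ × ℕ × ℕ) := (range (M + 1)) ×ˢ (F.image t) ×ˢ (F.image v) with hI
  have hmaps : ∀ k ∈ F, cls k ∈ I := by
    intro k hk
    rw [hI, hcls]
    simp only [mem_product, mem_range, mem_image]
    exact ⟨by have := hu1 k hk; omega, ⟨k, hk, rfl⟩, ⟨k, hk, rfl⟩⟩
  have hDup : ∀ k ∈ F, D (cls k) ≤ b ^ 2 * (Q k * B k) := by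
    intro k hk
    have h1 : (t k : ℝ) * (b : ℝ) ^ (u k) ≤ b * Q k := by exact_mod_cast hu3 k hk
    have h2 := hv2 k hk
    have h3 : (0 : ℝ) ≤ (b : ℝ) ^ v k := by positivity
    have h4 : (0 : ℝ) ≤ b * Q k := by positivity
    rw [hDd, hcls]
    simp only
    calc (b : ℝ) ^ u k * t k * (b : ℝ) ^ v k = (t k * (b : ℝ) ^ (u k)) * (b : ℝ) ^ v k := by ring
      _ ≤ (b * Q k) * (b * B k) := mul_le_mul h1 h2 h3 h4
      _ = _ := by ring
  have hDlow : ∀ k ∈ F, (Q k : ℝ) * B k ≤ D (cls k) := by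
    intro k hk
    have h1 : (Q k : ℝ) ≤ t k * (b : ℝ) ^ (u k) := by exact_mod_cast (hu2 k hk).le
    have h2 := hv1 k hk
    rw [hDd, hcls]
    simp only
    calc (Q k : ℝ) * B k ≤ (t k * (b : ℝ) ^ (u k)) * (b : ℝ) ^ v k :=
          mul_le_mul h1 h2 (by linarith [hB1 k]) (by positivity)
      _ = _ := by ring
  have hclass : ∀ x ∈ I, ∑ k ∈ F with cls k = x, H k * (Q k * B k) ^ (-(1 / 2) : ℝ) ≤
      42 * b ^ 3 * K ^ 2 * T ^ (-δ) * (D x) ^ (-δ) := by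
    intro x hx
    rcases (F.filter fun k => cls k = x).eq_empty_or_nonempty with h1 | ⟨k₀, hk₀⟩
    · rw [h1, sum_empty]
      have : 0 ≤ D x := by rw [hDd]; positivity
      positivity
    rw [mem_filter] at hk₀
    obtain ⟨hk₀F, hk₀x⟩ := hk₀
    set G := F.filter fun k => cls k = x with hG
    have hGF : ∀ k ∈ G, k ∈ F := fun k hk => (mem_filter.1 hk).1
    have hGx : ∀ k ∈ G, u k = u k₀ ∧ t k = t k₀ ∧ v k = v k₀ := by
      intro k hk
      have h2 := (mem_filter.1 hk).2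
      rw [← hk₀x, hcls] at h2
      simpa using h2
    have hQB : 0 < (Q k₀ : ℝ) * B k₀ := by
      have := hQr k₀ hk₀F
      have := hB1 k₀
      positivity
    have hDx : D x = D (cls k₀) := by rw [hk₀x]
    have hDpos : 0 < D x := by rw [hDx]; exact hQB.trans_le (hDlow k₀ hk₀F)
    have hTD : T ≤ D x := by rw [hDx]; exact (hTq k₀ hk₀F).trans (hDlow k₀ hk₀F)
    obtain ⟨s, hs1, hs2⟩ := near_pow (b := b) (by omega) (x := (t k₀ : ℝ)) (by exact_mod_cast ht0 k₀ hk₀F)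
    set m := max s (v k₀) with hm
    have hbD : (b : ℝ) ^ (u k₀ + m) ≤ b * D x := by
      have h2 : (b : ℝ) ^ m ≤ (b : ℝ) ^ s * (b : ℝ) ^ (v k₀) := by
        rw [← pow_add]; exact pow_le_pow_right₀ hb1 (by omega)
      rw [pow_add, hDx, hDd, hcls]
      simp only
      calc (b : ℝ) ^ u k₀ * (b : ℝ) ^ m ≤ (b : ℝ) ^ u k₀ * ((b * t k₀) * (b : ℝ) ^ (v k₀)) := by
            apply mul_le_mul_of_nonneg_left _ (by positivity)
            exact h2.trans (mul_le_mul_of_nonneg_right hs2 (by positivity))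
        _ = _ := by ring
    have hum : u k₀ + m ≤ M := by
      have h2 : (b : ℝ) ^ (u k₀ + m) ≤ (b : ℝ) ^ M := by
        refine hbD.trans (le_trans ?_ (hqM k₀ hk₀F))
        have h3 := hDup k₀ hk₀F
        rw [hDx]
        calc (b : ℝ) * D (cls k₀) ≤ b * (b ^ 2 * (Q k₀ * B k₀)) := mul_le_mul_of_nonneg_left h3 hbr.le
          _ = _ := by ring
      exact (pow_le_pow_iff_right₀ (by exact_mod_cast (by omega : 1 < b))).1 h2
    have htm : t k₀ ≤ b ^ m := by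
      have h2 : (t k₀ : ℝ) ≤ (b : ℝ) ^ m := hs1.trans (pow_le_pow_right₀ hb1 (le_max_left _ _))
      exact_mod_cast h2
    have h2 := class_bd hb hK hD (H := H) G (fun k hk => hF k (hGF k hk)) (fun k hk => hH k (hGF k hk)) A Q
      (u k₀) m hum (ht0 k₀ hk₀F) htm (fun k hk => hQ k (hGF k hk))
      (fun k hk => by
        have h3 := (hGx k hk).2.1
        rw [ht] at h3
        simp only at h3
        rw [(hGx k hk).1] at h3
        rw [h3])
      (fun k hk => by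
        have h3 := hu2 k (hGF k hk)
        have h4 := (hGx k hk).2.1
        rw [ht] at h4
        simp only at h4
        rw [h4, (hGx k hk).1] at h3
        exact h3)
      (fun k hk => by
        refine (le_max_right (1 : ℝ) _).trans ?_
        change B k ≤ _
        refine (hv1 k (hGF k hk)).trans ?_
        rw [(hGx k hk).2.2]
        exact pow_le_pow_right₀ hb1 (le_max_right _ _))
    have h3 : (b : ℝ) ^ (c * ((u k₀ : ℝ) + (m : ℕ))) ≤ b * (D x) ^ c := by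
      have e1 : (b : ℝ) ^ (c * ((u k₀ : ℝ) + (m : ℕ))) = ((b : ℝ) ^ (u k₀ + m)) ^ c := by
        rw [← Real.rpow_natCast, ← Real.rpow_mul hbr.le]
        congr 1; push_cast; ring
      rw [e1]
      calc ((b : ℝ) ^ (u k₀ + m)) ^ c ≤ (b * D x) ^ c := Real.rpow_le_rpow (by positivity) hbD hc0
        _ = (b : ℝ) ^ c * (D x) ^ c := Real.mul_rpow hbr.le hDpos.le
        _ ≤ b * (D x) ^ c := by
            apply mul_le_mul_of_nonneg_right _ (by positivity)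
            calc (b : ℝ) ^ c ≤ (b : ℝ) ^ (1 : ℝ) := Real.rpow_le_rpow_of_exponent_le hb1 (by linarith)
              _ = b := Real.rpow_one _
    have h4 : ∀ k ∈ G, (Q k * B k) ^ (-(1 / 2) : ℝ) ≤ b * (D x) ^ (-(1 / 2) : ℝ) := by
      intro k hk
      have e1 := hDup k (hGF k hk)
      have e2 : cls k = x := (mem_filter.1 hk).2
      rw [e2] at e1
      have e3 : D x / b ^ 2 ≤ Q k * B k := by
        rw [div_le_iff₀ (by positivity)]; linarith
      calc (Q k * B k) ^ (-(1 / 2) : ℝ) ≤ (D x / b ^ 2) ^ (-(1 / 2) : ℝ) :=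
            Real.rpow_le_rpow_of_nonpos (by positivity) e3 (by norm_num)
        _ = b * (D x) ^ (-(1 / 2) : ℝ) := by
            rw [Real.div_rpow hDpos.le (by positivity), ← Real.rpow_natCast, ← Real.rpow_mul hbr.le]
            have : ((2 : ℕ) : ℝ) * (-(1 / 2)) = -1 := by norm_num
            rw [this, Real.rpow_neg_one, div_inv_eq_mul, mul_comm]
    calc ∑ k ∈ G, H k * (Q k * B k) ^ (-(1 / 2) : ℝ) ≤ ∑ k ∈ G, H k * (b * (D x) ^ (-(1 / 2) : ℝ)) :=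
          sum_le_sum fun k hk => mul_le_mul_of_nonneg_left (h4 k hk) (hH0 k (hGF k hk))
      _ = (∑ k ∈ G, H k) * (b * (D x) ^ (-(1 / 2) : ℝ)) := by rw [sum_mul]
      _ ≤ (42 * b * K ^ 2 * (b * (D x) ^ c)) * (b * (D x) ^ (-(1 / 2) : ℝ)) := by
          apply mul_le_mul_of_nonneg_right _ (by positivity)
          refine h2.trans ?_
          exact mul_le_mul_of_nonneg_left h3 (by positivity)
      _ = 42 * b ^ 3 * K ^ 2 * ((D x) ^ c * (D x) ^ (-(1 / 2) : ℝ)) := by ring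
      _ = 42 * b ^ 3 * K ^ 2 * ((D x) ^ (-δ) * (D x) ^ (-δ)) := by
          rw [← Real.rpow_add hDpos, ← Real.rpow_add hDpos]
          congr 2; rw [hδ]; ring
      _ ≤ 42 * b ^ 3 * K ^ 2 * (T ^ (-δ) * (D x) ^ (-δ)) := by
          apply mul_le_mul_of_nonneg_left _ (by positivity)
          apply mul_le_mul_of_nonneg_right _ (by positivity)
          exact Real.rpow_le_rpow_of_nonpos (by linarith) hTD (by linarith)
      _ = _ := by ring
  have hmain : ∑ k ∈ F, H k * (Q k * B k) ^ (-(1 / 2) : ℝ) ≤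
      42 * b ^ 3 * K ^ 2 * T ^ (-δ) * ∑ x ∈ I, (D x) ^ (-δ) := by
    rw [← sum_fiberwise_of_maps_to hmaps, mul_sum]
    exact sum_le_sum hclass
  have hsum : ∑ x ∈ I, (D x) ^ (-δ) ≤ C2 * C1 * C2 := by
    have e1 : ∑ x ∈ I, (D x) ^ (-δ) = (∑ x ∈ range (M + 1), ((b : ℝ) ^ x) ^ (-δ)) *
        ((∑ y ∈ F.image t, (y : ℝ) ^ (-δ)) * ∑ z ∈ F.image v, ((b : ℝ) ^ z) ^ (-δ)) := by
      rw [hI, sum_product, sum_mul]
      refine sum_congr rfl fun x _ => ?_
      rw [sum_product, sum_mul_sum, mul_sum]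
      refine sum_congr rfl fun y _ => ?_
      rw [mul_sum]
      refine sum_congr rfl fun z _ => ?_
      rw [hDd]
      simp only
      rw [Real.mul_rpow (by positivity) (by positivity), Real.mul_rpow (by positivity) (by positivity)]
      ring
    rw [e1]
    have e2 := hpw (range (M + 1))
    have e3 := hpw (F.image v)
    have e4 := hsm (F.image t) (fun y hy => by
      rw [mem_image] at hy
      obtain ⟨k, hk, rfl⟩ := hy
      exact ⟨(ht0 k hk).ne', M - u k, Nat.gcd_dvd_right _ _⟩)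
    have e5 : 0 ≤ ∑ z ∈ F.image v, ((b : ℝ) ^ z) ^ (-δ) := sum_nonneg fun _ _ => by positivity
    have e6 : 0 ≤ ∑ y ∈ F.image t, (y : ℝ) ^ (-δ) := sum_nonneg fun _ _ => by positivity
    calc _ ≤ C2 * (C1 * C2) := mul_le_mul e2 (mul_le_mul e4 e3 e5 hC1.le) (mul_nonneg e6 e5) hC2.le
      _ = _ := by ring
  refine hmain.trans ?_
  have hT0 : 0 ≤ T ^ (-δ) := by positivity
  calc 42 * b ^ 3 * K ^ 2 * T ^ (-δ) * ∑ x ∈ I, (D x) ^ (-δ) ≤ 42 * b ^ 3 * K ^ 2 * T ^ (-δ) * (C2 * C1 * C2) :=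
        mul_le_mul_of_nonneg_left hsum (by positivity)
    _ = (42 * b ^ 3 * K ^ 2 * (C2 * C1 * C2)) * T ^ (-δ) := by ring
    _ ≤ _ := mul_le_mul_of_nonneg_right (by linarith) hT0

end Pool.Agent.Zk46.PP
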