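import Pool.Agent.Zk46.PP.Spec
import Pool.Agent.Zk46.PP.Cls2

set_option autoImplicit false

/-! Approximations, and the bounds for the exponential sum at the frequencies `k / b^(2M+1)`. -/

namespace Pool.Agent.Zk46.PP
open Finset
open Pool.Agent.H807R2.Dav
open Pool.Agent.H373R2.T7 (ev_log' ev_L')

lemma diric {b M k : ℕ} (hb : 2 ≤ b) (hk : k < b ^ (2 * M + 1)) : ∃ (A : ℤ) (Q : ℕ), 1 ≤ Q ∧ IsCoprime A (Q : ℤ) ∧
    ((Q : ℝ) * BB b M k A Q) ^ 2 ≤ ((b ^ (2 * M + 1) : ℕ) : ℝ) ∧ |A| ≤ Q + 1 := by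
  set N : ℕ := b ^ (2 * M + 1) with hN
  have hNpos : 1 ≤ N := Nat.one_le_pow _ _ (by omega)
  have hNr : (0 : ℝ) < N := by exact_mod_cast hNpos
  have hn1 : 0 < Nat.sqrt N := Nat.sqrt_pos.2 hNpos
  obtain ⟨ρ, h1, h2⟩ := Real.exists_rat_abs_sub_le_and_den_le ((k : ℝ) / N) hn1
  set n := Nat.sqrt N with hn
  have hden : 1 ≤ ρ.den := ρ.den_pos
  have hd0 : (0 : ℝ) < ρ.den := by exact_mod_cast hden
  have hd1 : (1 : ℝ) ≤ ρ.den := by exact_mod_cast hden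
  have hcast : ((ρ : ℚ) : ℝ) = (ρ.num : ℝ) / (ρ.den : ℝ) := Rat.cast_def ρ
  rw [hcast] at h1
  have hnn : n * n ≤ N := Nat.sqrt_le N
  have hnn' : N < (n + 1) * (n + 1) := Nat.lt_succ_sqrt N
  have hdn : (ρ.den : ℝ) ≤ n := by exact_mod_cast h2
  have hnnr : (n : ℝ) * n ≤ N := by exact_mod_cast hnn
  have hnnr' : (N : ℝ) ≤ ((n : ℝ) + 1) * (n + 1) := by exact_mod_cast hnn'.le
  have hn0 : (0 : ℝ) < (n : ℝ) + 1 := by positivity
  refine ⟨ρ.num, ρ.den, hden, Rat.isCoprime_num_den ρ, ?_, ?_⟩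
  · unfold BB
    have e0 : (b : ℝ) ^ (2 * M + 1) = N := by rw [hN]; push_cast; rfl
    rw [e0]
    set x : ℝ := |(k : ℝ) - N * ((ρ.num : ℝ) / ρ.den)| with hx
    have hx1 : x = N * |(k : ℝ) / N - ρ.num / ρ.den| := by
      rw [hx, ← abs_of_pos hNr, ← abs_mul, abs_of_pos hNr]
      congr 1; field_simp
    have hx2 : (ρ.den : ℝ) * x ≤ N / (n + 1) := by
      rw [hx1]
      calc (ρ.den : ℝ) * (N * |(k : ℝ) / N - ρ.num / ρ.den|) ≤ ρ.den * (N * (1 / (((n : ℝ) + 1) * ρ.den))) := by gcongr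
        _ = N / (n + 1) := by field_simp
    have hx0 : 0 ≤ x := abs_nonneg _
    rcases le_total x 1 with h | h
    · rw [max_eq_left h, mul_one]
      calc (ρ.den : ℝ) ^ 2 ≤ (n : ℝ) ^ 2 := by gcongr
        _ ≤ (N : ℝ) := by rw [sq]; exact hnnr
    · rw [max_eq_right h]
      calc ((ρ.den : ℝ) * x) ^ 2 ≤ (N / ((n : ℝ) + 1)) ^ 2 := by gcongr
        _ ≤ (N : ℝ) := by
            rw [div_pow, div_le_iff₀ (by positivity), sq, sq]
            exact mul_le_mul_of_nonneg_left hnnr' hNr.le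
  · have hk0 : (0 : ℝ) ≤ (k : ℝ) / N := by positivity
    have hk1 : (k : ℝ) / N ≤ 1 := by rw [div_le_one hNr]; exact_mod_cast hk.le
    have e1 : |(ρ.num : ℝ) / ρ.den| ≤ 1 + 1 / ρ.den := by
      have e2 : (ρ.num : ℝ) / ρ.den = (k : ℝ) / N - ((k : ℝ) / N - ρ.num / ρ.den) := by ring
      rw [e2]
      refine (abs_sub _ _).trans ?_
      rw [abs_of_nonneg hk0]
      have e3 : 1 / (((n : ℝ) + 1) * ρ.den) ≤ 1 / ρ.den := by
        apply one_div_le_one_div_of_le hd0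
        nlinarith
      linarith
    rw [abs_div, abs_of_pos hd0, div_le_iff₀ hd0] at e1
    have e4 : (1 + 1 / (ρ.den : ℝ)) * ρ.den = ρ.den + 1 := by field_simp
    rw [e4] at e1
    have : |(ρ.num : ℝ)| = ((|ρ.num| : ℤ) : ℝ) := by push_cast; rfl
    rw [this] at e1
    exact_mod_cast e1

/-- the minor arcs -/
theorem PS_vin : ∃ N0 : ℕ, ∀ b M : ℕ, 2 ≤ b → N0 ≤ b ^ (2 * M + 1) → ∀ (k : ℕ) (A : ℤ) (Q : ℕ), 1 ≤ Q → IsCoprime A (Q : ℤ) →
    ((Q : ℝ) * BB b M k A Q) ^ 2 ≤ ((b ^ (2 * M + 1) : ℕ) : ℝ) → ∀ P : ℝ, 0 < P → P ^ 5 = ((b ^ (2 * M + 1) : ℕ) : ℝ) →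
    (P ^ 2 ≤ Q * BB b M k A Q → ‖PS (b ^ (2 * M + 1)) ((k : ℝ) / ((b ^ (2 * M + 1) : ℕ) : ℝ))‖ ≤
      800000 * Real.log ((b ^ (2 * M + 1) : ℕ) : ℝ) ^ 7 * P ^ 4) ∧
    (Q * BB b M k A Q < P ^ 2 → ‖PS (b ^ (2 * M + 1)) ((k : ℝ) / ((b ^ (2 * M + 1) : ℕ) : ℝ))‖ ≤
      800000 * Real.log ((b ^ (2 * M + 1) : ℕ) : ℝ) ^ 7 * (P ^ 5 * (Q * BB b M k A Q) ^ (-(1 / 2) : ℝ))) := by
  obtain ⟨N0, h0⟩ := vin_gain
  refine ⟨max N0 1, fun b M hb hN k A Q hQ hcop hY P hP hPN => ?_⟩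
  have hN0 := (le_max_left _ _).trans hN
  have hN1 : 1 ≤ b ^ (2 * M + 1) := (le_max_right _ _).trans hN
  have e0 : (b : ℝ) ^ (2 * M + 1) = ((b ^ (2 * M + 1) : ℕ) : ℝ) := by push_cast; rfl
  set Y : ℝ := Q * BB b M k A Q with hYd
  set B : ℝ := BB b M k A Q with hB
  have hB1 : 1 ≤ B := one_le_BB _ _ _ _ _
  have hBB : B = max 1 |(k : ℝ) - ((b ^ (2 * M + 1) : ℕ) : ℝ) * ((A : ℝ) / Q)| := by rw [hB]; unfold BB; rw [e0]
  set N : ℕ := b ^ (2 * M + 1) with hNd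
  have hNr : (1 : ℝ) ≤ N := by exact_mod_cast hN1
  have hNpos : (0 : ℝ) < N := by linarith
  have hQr : (1 : ℝ) ≤ Q := by exact_mod_cast hQ
  have hY1 : 1 ≤ Y := by rw [hYd]; nlinarith
  have hP1 : 1 ≤ P := by
    by_contra h
    rw [not_le] at h
    have : P ^ 5 < 1 := pow_lt_one₀ hP.le h (by norm_num)
    linarith
  have hP2 : 1 ≤ P ^ 2 := one_le_pow₀ hP1
  set V : ℕ := ⌊P ^ 2⌋₊ with hV
  have hV1 : 1 ≤ V := by rw [hV, Nat.one_le_floor_iff]; exact hP2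
  have hVr : (1 : ℝ) ≤ V := by exact_mod_cast hV1
  have hVle : (V : ℝ) ≤ P ^ 2 := Nat.floor_le (by positivity)
  have hVlt : P ^ 2 < V + 1 := Nat.lt_floor_add_one _
  have hVge : P ^ 2 ≤ 2 * V := by linarith
  have hVV : V * V ≤ N := by
    have : (V : ℝ) * V ≤ N := by
      rw [← hPN]
      calc (V : ℝ) * V ≤ P ^ 2 * P ^ 2 := mul_le_mul hVle hVle (by positivity) (by positivity)
        _ = P ^ 4 := by ring
        _ ≤ P ^ 5 := pow_le_pow_right₀ hP1 (by norm_num)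
    exact_mod_cast this
  have hx : (N : ℝ) * |(k : ℝ) / N - (A : ℝ) / Q| = |(k : ℝ) - N * ((A : ℝ) / Q)| := by
    rw [← abs_of_pos hNpos, ← abs_mul, abs_of_pos hNpos]
    congr 1; field_simp
  have h1 := h0 N hN0 V Q hV1 hVV hQ A hcop ((k : ℝ) / N) B hB1 (by rw [hx, hBB]; exact le_max_right _ _)
    (by
      rw [hx, hBB]
      rcases le_total |(k : ℝ) - N * ((A : ℝ) / Q)| 1 with h | h
      · left; exact max_eq_left h
      · right; exact max_eq_right h) hY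
  have hL0 : 0 ≤ Real.log (N : ℝ) := Real.log_nonneg hNr
  have hV' : 1 / (V : ℝ) ≤ 2 / P ^ 2 := by
    rw [div_le_div_iff₀ (by linarith) (by positivity)]; linarith
  have hVVr : (V : ℝ) * V ≤ P ^ 4 := by
    calc (V : ℝ) * V ≤ P ^ 2 * P ^ 2 := mul_le_mul hVle hVle (by positivity) (by positivity)
      _ = P ^ 4 := by ring
  have hcoef : (0 : ℝ) ≤ 200000 * Real.log (N : ℝ) ^ 7 := by positivity
  constructor
  · intro h
    refine h1.trans ?_
    have h2 : 4 / Y + 1 / (V : ℝ) ≤ (3 / P) ^ 2 := by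
      have : 4 / Y ≤ 4 / P ^ 2 := div_le_div_of_nonneg_left (by norm_num) (by positivity) h
      have h3 : (3 / P) ^ 2 = 9 / P ^ 2 := by rw [div_pow]; norm_num
      rw [h3]
      have h4 : (9 : ℝ) / P ^ 2 = 4 / P ^ 2 + 2 / P ^ 2 + 3 / P ^ 2 := by ring
      have h5 : (0 : ℝ) ≤ 3 / P ^ 2 := by positivity
      linarith
    have h3 : √(4 / Y + 1 / (V : ℝ)) ≤ 3 / P := by
      rw [Real.sqrt_le_left (by positivity)]; exact h2
    have h4 : (N : ℝ) * √(4 / Y + 1 / (V : ℝ)) + V * V ≤ 4 * P ^ 4 := by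
      rw [← hPN]
      calc P ^ 5 * √(4 / Y + 1 / (V : ℝ)) + V * V ≤ P ^ 5 * (3 / P) + P ^ 4 := by gcongr
        _ = 4 * P ^ 4 := by field_simp; ring
    calc _ ≤ 200000 * Real.log (N : ℝ) ^ 7 * (4 * P ^ 4) := mul_le_mul_of_nonneg_left h4 hcoef
      _ = _ := by ring
  · intro h
    refine h1.trans ?_
    have hYh : Y ^ (-(1 / 2) : ℝ) = 1 / √Y := by
      rw [Real.rpow_neg (by linarith), ← Real.sqrt_eq_rpow, one_div]
    have hsY : 0 < √Y := Real.sqrt_pos.2 (by linarith)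
    have hsYP : √Y ≤ P := by
      rw [Real.sqrt_le_left hP.le]; exact h.le
    have h2 : 4 / Y + 1 / (V : ℝ) ≤ (3 / √Y) ^ 2 := by
      have : 2 / P ^ 2 ≤ 2 / Y := div_le_div_of_nonneg_left (by norm_num) (by linarith) h.le
      have h3 : (3 / √Y) ^ 2 = 9 / Y := by rw [div_pow, Real.sq_sqrt (by linarith)]; norm_num
      rw [h3]
      have h4 : (9 : ℝ) / Y = 4 / Y + 2 / Y + 3 / Y := by ring
      have h5 : (0 : ℝ) ≤ 3 / Y := by positivity
      linarith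
    have h3 : √(4 / Y + 1 / (V : ℝ)) ≤ 3 / √Y := by
      rw [Real.sqrt_le_left (by positivity)]; exact h2
    rw [hYh]
    have h5 : P ^ 4 ≤ P ^ 5 * (1 / √Y) := by
      rw [mul_one_div, le_div_iff₀ hsY]
      have : P ^ 5 = P ^ 4 * P := by ring
      rw [this]
      exact mul_le_mul_of_nonneg_left hsYP (by positivity)
    have h4 : (N : ℝ) * √(4 / Y + 1 / (V : ℝ)) + V * V ≤ 4 * (P ^ 5 * (1 / √Y)) := by
      rw [← hPN]
      calc P ^ 5 * √(4 / Y + 1 / (V : ℝ)) + V * V ≤ P ^ 5 * (3 / √Y) + P ^ 5 * (1 / √Y) :=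
            add_le_add (mul_le_mul_of_nonneg_left h3 (by positivity)) (hVVr.trans h5)
        _ = 4 * (P ^ 5 * (1 / √Y)) := by ring
    calc _ ≤ 200000 * Real.log (N : ℝ) ^ 7 * (4 * (P ^ 5 * (1 / √Y))) := mul_le_mul_of_nonneg_left h4 hcoef
      _ = _ := by ring

/-- the wide major arcs -/
theorem PS_maj (A₀ : ℕ) : ∃ N0 : ℕ, ∀ b M : ℕ, 2 ≤ b → N0 ≤ b ^ (2 * M + 1) → ∀ (k : ℕ) (A : ℤ) (Q : ℕ), 1 ≤ Q → IsCoprime A (Q : ℤ) →
    (Q : ℝ) * BB b M k A Q ≤ Real.log ((b ^ (2 * M + 1) : ℕ) : ℝ) ^ A₀ →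
    ‖PS (b ^ (2 * M + 1)) ((k : ℝ) / ((b ^ (2 * M + 1) : ℕ) : ℝ))‖ ≤
      3 * ((b ^ (2 * M + 1) : ℕ) : ℝ) * (Q * BB b M k A Q) ^ (-(1 / 2) : ℝ) := by
  obtain ⟨N0, h0⟩ := maj_bd A₀ A₀
  refine ⟨max N0 1, fun b M hb hN k A Q hQ hcop hY => ?_⟩
  have hN0 := (le_max_left _ _).trans hN
  have hN1 : 1 ≤ b ^ (2 * M + 1) := (le_max_right _ _).trans hN
  have e0 : (b : ℝ) ^ (2 * M + 1) = ((b ^ (2 * M + 1) : ℕ) : ℝ) := by push_cast; rfl
  set Y : ℝ := Q * BB b M k A Q with hYd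
  set B : ℝ := BB b M k A Q with hB
  have hB1 : 1 ≤ B := one_le_BB _ _ _ _ _
  have hBB : B = max 1 |(k : ℝ) - ((b ^ (2 * M + 1) : ℕ) : ℝ) * ((A : ℝ) / Q)| := by rw [hB]; unfold BB; rw [e0]
  set N : ℕ := b ^ (2 * M + 1) with hNd
  have hNr : (1 : ℝ) ≤ N := by exact_mod_cast hN1
  have hNpos : (0 : ℝ) < N := by linarith
  have hQr : (1 : ℝ) ≤ Q := by exact_mod_cast hQ
  have hY1 : 1 ≤ Y := by rw [hYd]; nlinarith
  have hQY : (Q : ℝ) ≤ Y := by rw [hYd]; nlinarith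
  have hBY : B ≤ Y := by rw [hYd]; nlinarith
  set β : ℝ := (k : ℝ) - N * ((A : ℝ) / Q) with hβ
  have hβB : |β| ≤ B := by rw [hBB]; exact le_max_right _ _
  have hθ : (k : ℝ) / N = (A : ℝ) / Q + β / N := by rw [hβ]; field_simp; ring
  rw [hθ]
  have h1 := h0 N hN0 Q hQ (hQY.trans hY) A hcop β (hβB.trans (hBY.trans hY))
  refine h1.trans ?_
  have e1 : (Q : ℝ) * max 1 |β| = Y := by rw [hYd, hBB]
  rw [e1]
  have hYh : Y ^ (-(1 / 2) : ℝ) = 1 / √Y := by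
    rw [Real.rpow_neg (by linarith), ← Real.sqrt_eq_rpow, one_div]
  have hsY : 0 < √Y := Real.sqrt_pos.2 (by linarith)
  have h2 : (N : ℝ) / Real.log N ^ A₀ ≤ N * (1 / √Y) := by
    rw [mul_one_div]
    apply div_le_div_of_nonneg_left hNpos.le hsY
    refine le_trans ?_ hY
    rw [Real.sqrt_le_left (by linarith)]
    nlinarith
  rw [hYh]
  linarith

/-- the frequencies near fractions whose denominator divides a power of the base -/
theorem PS_smooth : ∀ T : ℕ, 1 ≤ T → ∃ N0 : ℕ, ∀ b M : ℕ, 2 ≤ b → N0 ≤ b ^ (2 * M + 1) → T ≤ M → ∀ (k : ℕ) (A : ℤ) (Q : ℕ), 1 ≤ Q →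
    IsCoprime A (Q : ℤ) → (Q : ℝ) * BB b M k A Q ≤ T → (∃ E, Q ∣ b ^ E) → ¬ b ^ (2 * M + 1) ∣ b * k →
    ‖PS (b ^ (2 * M + 1)) ((k : ℝ) / ((b ^ (2 * M + 1) : ℕ) : ℝ))‖ ≤
      ((b ^ (2 * M + 1) : ℕ) : ℝ) / Real.log ((b ^ (2 * M + 1) : ℕ) : ℝ) := by
  intro T hT
  obtain ⟨N0, h0⟩ := maj 1 1
  obtain ⟨N1, h1⟩ := ev_L' T
  refine ⟨max N0 (max N1 1), fun b M hb hN hTM k A Q hQ hcop hY hE hk => ?_⟩
  have hN0 := (le_max_left _ _).trans hN
  have hNN1 := (le_max_left _ _).trans ((le_max_right _ _).trans hN)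
  have hN1 : 1 ≤ b ^ (2 * M + 1) := (le_max_right _ _).trans ((le_max_right _ _).trans hN)
  have e0 : (b : ℝ) ^ (2 * M + 1) = ((b ^ (2 * M + 1) : ℕ) : ℝ) := by push_cast; rfl
  set Y : ℝ := Q * BB b M k A Q with hYd
  set B : ℝ := BB b M k A Q with hB
  have hB1 : 1 ≤ B := one_le_BB _ _ _ _ _
  have hBB : B = max 1 |(k : ℝ) - ((b ^ (2 * M + 1) : ℕ) : ℝ) * ((A : ℝ) / Q)| := by rw [hB]; unfold BB; rw [e0]
  have hTN : T < b ^ (2 * M + 1) := by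
    have h2 : 2 * M + 1 < b ^ (2 * M + 1) := Nat.lt_pow_self (by omega)
    omega
  have hTN' : T ≤ 2 * M + 1 := by omega
  set N : ℕ := b ^ (2 * M + 1) with hNd
  have hNr : (1 : ℝ) ≤ N := by exact_mod_cast hN1
  have hNpos : (0 : ℝ) < N := by linarith
  have hQr : (1 : ℝ) ≤ Q := by exact_mod_cast hQ
  have hQ0 : (0 : ℝ) < Q := by linarith
  have hQY : (Q : ℝ) ≤ Y := by rw [hYd]; nlinarith
  have hBY : B ≤ Y := by rw [hYd]; nlinarith
  have hLT := h1 N hNN1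
  set β : ℝ := (k : ℝ) - N * ((A : ℝ) / Q) with hβ
  have hβB : |β| ≤ B := by rw [hBB]; exact le_max_right _ _
  have hβT : |β| ≤ T := hβB.trans (hBY.trans hY)
  have hQT : (Q : ℝ) ≤ T := hQY.trans hY
  have hQTn : Q ≤ T := by exact_mod_cast hQT
  have hθ : (k : ℝ) / N = (A : ℝ) / Q + β / N := by rw [hβ]; field_simp; ring
  rw [hθ]
  have h2 := h0 N hN0 Q hQ (by rw [pow_one]; exact hQT.trans hLT) A hcop β (by rw [pow_one]; exact hβT.trans hLT)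
  rw [pow_one] at h2
  -- `Q` divides `N`
  obtain ⟨E, hE⟩ := hE
  have hQN : Q ∣ N := by
    have h3 : Q ∣ b ^ Q := by
      have hb0 : b ≠ 0 := by omega
      rw [← Nat.factorization_prime_le_iff_dvd (by omega) (pow_ne_zero _ hb0)]
      intro p hp
      rcases Nat.eq_zero_or_pos (Q.factorization p) with h4 | h4
      · omega
      · have h5 : p ∣ Q := Nat.dvd_of_factorization_pos h4.ne'
        have h6 : p ∣ b := hp.dvd_of_dvd_pow (h5.trans hE)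
        have h7 : 0 < b.factorization p := hp.factorization_pos_of_dvd hb0 h6
        have h8 : Q.factorization p < Q := Nat.factorization_lt p (by omega)
        rw [Nat.factorization_pow]
        simp only [Finsupp.smul_apply, smul_eq_mul]
        nlinarith
    exact h3.trans (pow_dvd_pow _ (by omega))
  obtain ⟨N', hN'⟩ := hQN
  have hNQ : (N : ℝ) * ((A : ℝ) / Q) = ((N' * A : ℤ) : ℝ) := by
    have : (N : ℝ) = Q * N' := by exact_mod_cast hN'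
    rw [this]; push_cast; field_simp
  set z : ℤ := k - N' * A with hz
  have hβz : β = z := by rw [hβ, hNQ, hz]; push_cast; ring
  have hfin : ((ArithmeticFunction.moebius Q : ℤ) : ℂ) / (Nat.totient Q : ℂ) * ∑ m ∈ Icc 1 N, ee ((m : ℝ) * (β / N)) = 0 := by
    by_cases hz0 : z = 0
    · -- `Q` is not squarefree
      have hns : ¬ Squarefree Q := by
        intro hsq
        apply hk
        have h4 : Q ∣ b := by
          rcases Nat.eq_zero_or_pos E with h5 | h5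
          · subst h5
            rw [pow_zero, Nat.dvd_one] at hE
            rw [hE]; exact one_dvd _
          · exact (hsq.dvd_pow_iff_dvd (by omega)).1 hE
        obtain ⟨b', hb'⟩ := h4
        have h5 : (k : ℤ) = N' * A := by linarith
        have h6 : ((N : ℕ) : ℤ) ∣ ((b * k : ℕ) : ℤ) := by
          refine ⟨b' * A, ?_⟩
          push_cast
          rw [h5, hN', hb']
          push_cast; ring
        exact_mod_cast h6
      rw [ArithmeticFunction.moebius_eq_zero_of_not_squarefree hns]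
      simp
    · have hndvd : ¬ (N : ℤ) ∣ z := by
        intro hdv
        have h4 : (N : ℤ) ≤ |z| := Int.le_of_dvd (abs_pos.2 hz0) ((dvd_abs _ _).2 hdv)
        have h5 : |z| ≤ T := by
          have : |(z : ℝ)| ≤ T := by rw [← hβz]; exact hβT
          exact_mod_cast this
        have h6 : (T : ℤ) < N := by exact_mod_cast hTN
        omega
      have h4 := full_sum' hN1 hndvd
      rw [hβz, h4, mul_zero]
  rw [hfin, sub_zero] at h2
  exact h2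

end Pool.Agent.Zk46.PP
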