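import Pool.Agent.Zk46.PP.Asm1

set_option autoImplicit false

/-! The assembly of the circle method. -/

namespace Pool.Agent.Zk46.PP
open Finset
open Pool.Agent.H807R2.Dav
open Pool.Agent.H373R2.T7 (ev_log' ev_L')

lemma ev_pow {γ : ℝ} (hγ : 0 < γ) (k : ℕ) (C : ℝ) : ∃ x0 : ℕ, ∀ x : ℕ, x0 ≤ x → C * Real.log x ^ k ≤ (x : ℝ) ^ γ := by
  have h := (isLittleO_log_rpow_rpow_atTop (k : ℝ) hγ).bound (show 0 < 1 / (|C| + 1) by positivity)
  have h2 := (tendsto_natCast_atTop_atTop (R := ℝ)).eventually h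
  obtain ⟨x0, hx0⟩ := Filter.eventually_atTop.1 h2
  refine ⟨max x0 1, fun x hx => ?_⟩
  have h3 := hx0 x ((le_max_left _ _).trans hx)
  have hx1 : (1 : ℝ) ≤ x := by exact_mod_cast (le_max_right _ _).trans hx
  have hl : 0 ≤ Real.log x := Real.log_nonneg hx1
  rw [Real.rpow_natCast, Real.norm_of_nonneg (by positivity), Real.norm_of_nonneg (by positivity)] at h3
  have h4 : C * Real.log x ^ k ≤ (|C| + 1) * Real.log x ^ k :=
    mul_le_mul_of_nonneg_right (by linarith [le_abs_self C]) (by positivity)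
  refine h4.trans ?_
  calc (|C| + 1) * Real.log x ^ k ≤ (|C| + 1) * (1 / (|C| + 1) * (x : ℝ) ^ γ) := mul_le_mul_of_nonneg_left h3 (by positivity)
    _ = _ := by field_simp

/-- the sum of the normalised Fourier transform over all frequencies -/
lemma H_total {b M : ℕ} (hb : 0 < b) {h : ℕ → ℕ → ℕ → ℝ} {Λ : ℕ → ℝ} {K c : ℝ} (hD : Dat b M h Λ K c) {H : ℕ → ℝ}
    (hH : ∀ k < b ^ (2 * M + 1), H k ≤ ∏ j ∈ range M, h j (dg b k (2 * M - j)) (dg b k j)) :
    ∑ k ∈ range (b ^ (2 * M + 1)), H k ≤ b * ∏ j ∈ range M, Λ j := by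
  have h1 := key_sum hb M (range M) h hD.h0 Λ (fun j hj => hD.hΛ j (mem_range.1 hj)) (range (b ^ (2 * M + 1))) 1 ?_
  · rw [Nat.cast_one, one_mul] at h1
    exact (sum_le_sum fun k hk => hH k (mem_range.1 hk)).trans h1
  · intro k₀ hk₀
    rw [card_le_one]
    have key : ∀ k ∈ (range (b ^ (2 * M + 1))).filter (fun k => (∀ j ∈ range M, dg b k j = dg b k₀ j ∧
        dg b k (2 * M - j) = dg b k₀ (2 * M - j)) ∧ dg b k M = dg b k₀ M), k = k₀ := by
      intro k hk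
      rw [mem_filter, mem_range] at hk
      obtain ⟨h1, h2, h3⟩ := hk
      have h4 := window (b := b) (k := k) (k' := k₀) (p := 0) (2 * M + 1) (fun i _ hi => by
        rcases lt_trichotomy i M with h5 | h5 | h5
        · exact (h2 i (mem_range.2 h5)).1
        · rw [h5]; exact h3
        · have h6 := (h2 (2 * M - i) (mem_range.2 (by omega))).2
          have h7 : 2 * M - (2 * M - i) = i := by omega
          rwa [h7] at h6)
      rw [pow_zero, Nat.div_one, Nat.div_one, Nat.mod_eq_of_lt h1, Nat.mod_eq_of_lt (mem_range.1 hk₀)] at h4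
      exact h4
    intro x hx y hy
    rw [key x hx, key y hy]

/-- few frequencies are near fractions with small denominators -/
lemma card_small {b M T : ℕ} (A : ℕ → ℤ) (Q : ℕ → ℕ) (F : Finset ℕ) (hQ : ∀ k ∈ F, 1 ≤ Q k)
    (hA : ∀ k ∈ F, |A k| ≤ Q k + 1) (hY : ∀ k ∈ F, (Q k : ℝ) * BB b M k (A k) (Q k) ≤ T) :
    F.card ≤ T * ((2 * T + 3) * (2 * T + 2)) := by
  set N : ℝ := (b : ℝ) ^ (2 * M + 1) with hN
  set φ : ℕ → ℕ × (ℤ × ℤ) := fun k => (Q k, (A k, (k : ℤ) - ⌊N * ((A k : ℝ) / Q k)⌋)) with hφ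
  have hmaps : ∀ k ∈ F, φ k ∈ Icc 1 T ×ˢ (Icc (-(T + 1 : ℤ)) (T + 1) ×ˢ Icc (-(T : ℤ)) (T + 1)) := by
    intro k hk
    have h1 := hQ k hk
    have h2 := hA k hk
    have h3 := hY k hk
    have hB1 := one_le_BB b M k (A k) (Q k)
    have hQr : (1 : ℝ) ≤ Q k := by exact_mod_cast h1
    have h4 : (Q k : ℝ) ≤ T := by nlinarith
    have h5 : Q k ≤ T := by exact_mod_cast h4
    have h6 : BB b M k (A k) (Q k) ≤ T := by nlinarith
    have h7 : |(k : ℝ) - N * ((A k : ℝ) / Q k)| ≤ T := (le_max_right _ _).trans h6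
    have h8 := abs_le.1 h7
    have h9 := Int.floor_le (N * ((A k : ℝ) / Q k))
    have h10 := Int.lt_floor_add_one (N * ((A k : ℝ) / Q k))
    rw [hφ]
    simp only [mem_product, mem_Icc]
    have h11 := abs_le.1 h2
    refine ⟨⟨h1, h5⟩, ⟨by omega, by omega⟩, ?_, ?_⟩
    · have : (-(T : ℝ)) ≤ (k : ℝ) - ⌊N * ((A k : ℝ) / Q k)⌋ := by linarith [h8.1]
      exact_mod_cast this
    · have : (k : ℝ) - ⌊N * ((A k : ℝ) / Q k)⌋ < T + 1 := by linarith [h8.2]
      have h12 : (k : ℤ) - ⌊N * ((A k : ℝ) / Q k)⌋ < T + 1 := by exact_mod_cast this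
      omega
  have hinj : Set.InjOn φ (F : Set ℕ) := by
    intro k hk k' hk' he
    rw [hφ] at he
    simp only [Prod.mk.injEq] at he
    obtain ⟨h1, h2, h3⟩ := he
    rw [h1, h2] at h3
    have : (k : ℤ) = k' := by linarith
    exact_mod_cast this
  have h1 := Finset.card_le_card_of_injOn φ hmaps hinj
  refine h1.trans (le_of_eq ?_)
  rw [card_product, card_product]
  simp only [Nat.card_Icc, Int.card_Icc]
  have e1 : ((T : ℤ) + 1 + 1 - -(T + 1)).toNat = 2 * T + 3 := by omega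
  have e2 : ((T : ℤ) + 1 + 1 - -T).toNat = 2 * T + 2 := by omega
  rw [e1, e2, Nat.add_sub_cancel]

end Pool.Agent.Zk46.PP
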