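import Mathlib

set_option autoImplicit false

/-! Digits, and sums of products of functions of pairs of digits. -/

namespace Pool.Agent.Zk46.PP
open Finset

/-- the `j`-th digit of `n` in base `b` -/
def dg (b n j : ℕ) : ℕ := n / b ^ j % b

lemma dg_lt {b : ℕ} (hb : 0 < b) (n j : ℕ) : dg b n j < b := Nat.mod_lt _ hb

lemma window {b k k' p : ℕ} (r : ℕ) (h : ∀ i, p ≤ i → i < p + r → dg b k i = dg b k' i) :
    (k / b ^ p) % b ^ r = (k' / b ^ p) % b ^ r := by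
  induction r with
  | zero => simp [Nat.mod_one]
  | succ r ih =>
    have h1 := ih fun i h1 h2 => h i h1 (by omega)
    have h2 := h (p + r) (by omega) (by omega)
    unfold dg at h2
    rw [Nat.mod_pow_succ, Nat.mod_pow_succ, h1, Nat.div_div_eq_div_mul, Nat.div_div_eq_div_mul, ← pow_add, h2]

lemma window_top {b k k' M m : ℕ} (hb : 0 < b) (hm : m ≤ 2 * M + 1) (hk : k < b ^ (2 * M + 1))
    (hk' : k' < b ^ (2 * M + 1))
    (h : ∀ i, 2 * M + 1 - m ≤ i → i < 2 * M + 1 → dg b k i = dg b k' i) :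
    k / b ^ (2 * M + 1 - m) = k' / b ^ (2 * M + 1 - m) := by
  have h1 := window (b := b) (k := k) (k' := k') (p := 2 * M + 1 - m) m (fun i h1 h2 => h i h1 (by omega))
  have h2 : ∀ n, n < b ^ (2 * M + 1) → n / b ^ (2 * M + 1 - m) % b ^ m = n / b ^ (2 * M + 1 - m) := by
    intro n hn
    apply Nat.mod_eq_of_lt
    rw [Nat.div_lt_iff_lt_mul (by positivity), ← pow_add]
    have : m + (2 * M + 1 - m) = 2 * M + 1 := by omega
    rwa [this]
  rwa [h2 k hk, h2 k' hk'] at h1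

/-- the sum over a set of integers whose digits in the windows are given at most `C₀` times -/
lemma key_sum {b : ℕ} (hb : 0 < b) (M : ℕ) (J : Finset ℕ) (h : ℕ → ℕ → ℕ → ℝ) (h0 : ∀ j l l', 0 ≤ h j l l')
    (Λ : ℕ → ℝ) (hΛ : ∀ j ∈ J, ∑ l ∈ range b, ∑ l' ∈ range b, h j l l' ≤ Λ j) (K : Finset ℕ) (C₀ : ℕ)
    (hC : ∀ k₀ ∈ K, (K.filter fun k => (∀ j ∈ J, dg b k j = dg b k₀ j ∧ dg b k (2 * M - j) = dg b k₀ (2 * M - j)) ∧
      dg b k M = dg b k₀ M).card ≤ C₀) :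
    ∑ k ∈ K, ∏ j ∈ J, h j (dg b k (2 * M - j)) (dg b k j) ≤ C₀ * b * ∏ j ∈ J, Λ j := by
  classical
  set key : ℕ → (J → ℕ × ℕ) × ℕ := fun k => (fun j => (dg b k (2 * M - j), dg b k j), dg b k M) with hkey
  set T : Finset ((J → ℕ × ℕ) × ℕ) := (Fintype.piFinset fun _ : J => range b ×ˢ range b) ×ˢ range b with hT
  have hmaps : ∀ k ∈ K, key k ∈ T := by
    intro k _
    rw [hT, hkey]
    simp only [mem_product, Fintype.mem_piFinset, mem_range]
    exact ⟨fun j => ⟨dg_lt hb _ _, dg_lt hb _ _⟩, dg_lt hb _ _⟩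
  have e1 : ∑ k ∈ K, ∏ j ∈ J, h j (dg b k (2 * M - j)) (dg b k j) =
      ∑ c ∈ T, ∑ k ∈ K with key k = c, ∏ j : J, h j (c.1 j).1 (c.1 j).2 := by
    rw [← sum_fiberwise_of_maps_to hmaps]
    refine sum_congr rfl fun c _ => sum_congr rfl fun k hk => ?_
    rw [← (mem_filter.1 hk).2, hkey]
    rw [← Finset.prod_coe_sort]
  have hF0 : ∀ c : (J → ℕ × ℕ) × ℕ, 0 ≤ ∏ j : J, h j (c.1 j).1 (c.1 j).2 := fun c => prod_nonneg fun j _ => h0 _ _ _
  have e2 : ∀ c ∈ T, ∑ k ∈ K with key k = c, ∏ j : J, h j (c.1 j).1 (c.1 j).2 ≤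
      C₀ * ∏ j : J, h j (c.1 j).1 (c.1 j).2 := by
    intro c _
    rw [sum_const, nsmul_eq_mul]
    apply mul_le_mul_of_nonneg_right _ (hF0 c)
    rcases (K.filter fun k => key k = c).eq_empty_or_nonempty with h1 | ⟨k₀, h1⟩
    · rw [h1]; simp
    · rw [mem_filter] at h1
      have h2 := hC k₀ h1.1
      have h3 : K.filter (fun k => key k = c) ⊆ K.filter fun k => (∀ j ∈ J, dg b k j = dg b k₀ j ∧
          dg b k (2 * M - j) = dg b k₀ (2 * M - j)) ∧ dg b k M = dg b k₀ M := by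
        intro k hk
        rw [mem_filter] at hk ⊢
        refine ⟨hk.1, ?_⟩
        have h4 : key k = key k₀ := by rw [hk.2, h1.2]
        rw [hkey] at h4
        simp only [Prod.mk.injEq] at h4
        refine ⟨fun j hj => ?_, h4.2⟩
        have h5 := congrFun h4.1 ⟨j, hj⟩
        simp only [Prod.mk.injEq] at h5
        exact ⟨h5.2, h5.1⟩
      exact_mod_cast (card_le_card h3).trans h2
  rw [e1]
  refine (sum_le_sum e2).trans ?_
  rw [hT, sum_product]
  simp only [sum_const, card_range, nsmul_eq_mul]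
  rw [← mul_sum, ← mul_sum, ← Finset.prod_univ_sum (fun _ : J => range b ×ˢ range b)
    (fun (j : J) (p : ℕ × ℕ) => h j p.1 p.2)]
  have e3 : ∏ j : J, ∑ p ∈ range b ×ˢ range b, h j p.1 p.2 ≤ ∏ j ∈ J, Λ j := by
    rw [Finset.prod_coe_sort J (fun j => ∑ p ∈ range b ×ˢ range b, h j p.1 p.2)]
    refine prod_le_prod (fun j _ => sum_nonneg fun p _ => h0 _ _ _) fun j hj => ?_
    rw [sum_product]
    exact hΛ j hj
  have e4 : (0 : ℝ) ≤ (b : ℝ) * C₀ := by positivity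
  calc (b : ℝ) * (C₀ * ∏ j : J, ∑ p ∈ range b ×ˢ range b, h j p.1 p.2) =
        (b * C₀) * ∏ j : J, ∑ p ∈ range b ×ˢ range b, h j p.1 p.2 := by ring
    _ ≤ (b * C₀) * ∏ j ∈ J, Λ j := mul_le_mul_of_nonneg_left e3 e4
    _ = _ := by ring

end Pool.Agent.Zk46.PP
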