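import Mathlib

set_option autoImplicit false

/-! Convergent sums over smooth numbers and over powers. -/

namespace Pool.Agent.Zk46.PP
open Finset

/-- `t ↦ t ^ (-δ)` -/
noncomputable def negPow (δ : ℝ) : ℕ →* ℝ where
  toFun t := (t : ℝ) ^ (-δ)
  map_one' := by simp
  map_mul' m n := by
    push_cast
    exact Real.mul_rpow (Nat.cast_nonneg _) (Nat.cast_nonneg _)

lemma smooth_sum {b : ℕ} (hb : b ≠ 0) {δ : ℝ} (hδ : 0 < δ) : ∃ C : ℝ, 0 < C ∧ ∀ T : Finset ℕ,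
    (∀ t ∈ T, t ≠ 0 ∧ ∃ E : ℕ, t ∣ b ^ E) → ∑ t ∈ T, (t : ℝ) ^ (-δ) ≤ C := by
  classical
  have h1 := (EulerProduct.summable_and_hasSum_smoothNumbers_prod_primesBelow_geometric
    (f := negPow δ) (fun {p} hp => by
      have h2 : (1 : ℝ) < p := by exact_mod_cast hp.one_lt
      have h3 : ‖negPow δ p‖ = (p : ℝ) ^ (-δ) := by
        change ‖(p : ℝ) ^ (-δ)‖ = _
        rw [Real.norm_of_nonneg (by positivity)]
      rw [h3]
      exact Real.rpow_lt_one_of_one_lt_of_neg h2 (by linarith)) (b + 1)).1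
  have h0 : ∀ t : ℕ, 0 ≤ (t : ℝ) ^ (-δ) := fun t => by positivity
  refine ⟨1 + ∑' m : (b + 1).smoothNumbers, ‖negPow δ m‖, by
    have : 0 ≤ ∑' m : (b + 1).smoothNumbers, ‖negPow δ m‖ := tsum_nonneg fun m => norm_nonneg _
    linarith, fun T hT => ?_⟩
  have hmem : ∀ t ∈ T, t ∈ (b + 1).smoothNumbers := by
    intro t ht
    obtain ⟨h2, E, h3⟩ := hT t ht
    rw [Nat.mem_smoothNumbers']
    intro p hp hpt
    have h4 : p ∣ b := hp.dvd_of_dvd_pow (hpt.trans h3)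
    have := Nat.le_of_dvd (Nat.pos_of_ne_zero hb) h4
    omega
  have h2 : ∑ t ∈ T, (t : ℝ) ^ (-δ) = ∑ t ∈ T.subtype (· ∈ (b + 1).smoothNumbers), ‖negPow δ t‖ := by
    rw [← Finset.sum_subtype_of_mem (s := T) (p := fun t => t ∈ (b + 1).smoothNumbers) (fun t : ℕ => (t : ℝ) ^ (-δ)) hmem]
    refine sum_congr rfl fun t _ => ?_
    change _ = ‖((t : ℕ) : ℝ) ^ (-δ)‖
    rw [Real.norm_of_nonneg (h0 _)]
  rw [h2]
  have h3 := h1.sum_le_tsum (T.subtype (· ∈ (b + 1).smoothNumbers)) (fun _ _ => norm_nonneg _)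
  linarith

lemma pow_sum {b : ℕ} (hb : 2 ≤ b) {δ : ℝ} (hδ : 0 < δ) : ∃ C : ℝ, 0 < C ∧ ∀ T : Finset ℕ,
    ∑ v ∈ T, ((b : ℝ) ^ v) ^ (-δ) ≤ C := by
  have hb1 : (1 : ℝ) < b := by exact_mod_cast hb
  have h1 : ∀ v : ℕ, ((b : ℝ) ^ v) ^ (-δ) = ((b : ℝ) ^ (-δ)) ^ v := by
    intro v
    rw [← Real.rpow_natCast, ← Real.rpow_mul (by linarith), mul_comm, Real.rpow_mul (by linarith),
      Real.rpow_natCast]
  have h2 : (b : ℝ) ^ (-δ) < 1 := Real.rpow_lt_one_of_one_lt_of_neg hb1 (by linarith)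
  have h3 : 0 ≤ (b : ℝ) ^ (-δ) := by positivity
  have h4 := summable_geometric_of_lt_one h3 h2
  refine ⟨1 + ∑' v : ℕ, ((b : ℝ) ^ (-δ)) ^ v, by
    have : 0 ≤ ∑' v : ℕ, ((b : ℝ) ^ (-δ)) ^ v := tsum_nonneg fun m => by positivity
    linarith, fun T => ?_⟩
  simp_rw [h1]
  have h5 := h4.sum_le_tsum T (fun _ _ => by positivity)
  linarith

lemma near_pow {b : ℕ} (hb : 2 ≤ b) {x : ℝ} (hx : 1 ≤ x) : ∃ v : ℕ, x ≤ (b : ℝ) ^ v ∧ (b : ℝ) ^ v ≤ b * x := by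
  obtain ⟨n, h1, h2⟩ := exists_nat_pow_near hx (show (1 : ℝ) < b by exact_mod_cast hb)
  refine ⟨n + 1, h2.le, ?_⟩
  rw [pow_succ]
  have : (0 : ℝ) < b := by exact_mod_cast (by omega : 0 < b)
  nlinarith

end Pool.Agent.Zk46.PP
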