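import Pool.Agent.Zk46.PP.Fib
import Pool.Agent.Zk46.PP.Key
import Pool.Agent.Zk46.PP.Sm

set_option autoImplicit false

/-! The sum over the integers `k` such that `k / b^(2M+1)` is near fractions. -/

namespace Pool.Agent.Zk46.PP
open Finset

/-- the data: bounds for the pairs of digits -/
structure Dat (b M : ℕ) (h : ℕ → ℕ → ℕ → ℝ) (Λ : ℕ → ℝ) (K c : ℝ) : Prop where
  h0 : ∀ j l l', 0 ≤ h j l l'
  hΛ : ∀ j < M, ∑ l ∈ range b, ∑ l' ∈ range b, h j l l' ≤ Λ j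
  top : ∀ m ≤ M, ∏ j ∈ range m, Λ j ≤ K * (b : ℝ) ^ (c * m)
  cen : ∀ u ≤ M, ∏ j ∈ Ico (M - u) M, Λ j ≤ K * (b : ℝ) ^ (c * u)

/-- the scaled distance to a fraction, at least one -/
noncomputable def BB (b M k : ℕ) (A : ℤ) (Q : ℕ) : ℝ := max 1 |(k : ℝ) - (b : ℝ) ^ (2 * M + 1) * ((A : ℝ) / Q)|

lemma one_le_BB (b M k : ℕ) (A : ℤ) (Q : ℕ) : 1 ≤ BB b M k A Q := le_max_left _ _

lemma exists_u {b M q : ℕ} (hb : 2 ≤ b) (hq : 1 ≤ q) (hqM : q < b ^ M) : ∃ u, u ≤ M ∧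
    q < Nat.gcd q (b ^ (M - u)) * b ^ u ∧ Nat.gcd q (b ^ (M - u)) * b ^ u ≤ b * q := by
  classical
  have hex : ∃ u, u ≤ M ∧ q < Nat.gcd q (b ^ (M - u)) * b ^ u := ⟨M, le_rfl, by simpa using hqM⟩
  obtain ⟨h1, h2⟩ := Nat.find_spec hex
  set u := Nat.find hex with hu
  refine ⟨u, h1, h2, ?_⟩
  have hu0 : u ≠ 0 := by
    intro h
    rw [h] at h2
    have h3 : Nat.gcd q (b ^ (M - 0)) ≤ q := Nat.gcd_le_left _ hq
    simp only [pow_zero, mul_one] at h2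
    omega
  have h3 : ¬ (u - 1 ≤ M ∧ q < Nat.gcd q (b ^ (M - (u - 1))) * b ^ (u - 1)) :=
    Nat.find_min hex (by omega)
  have h4 : Nat.gcd q (b ^ (M - (u - 1))) * b ^ (u - 1) ≤ q := by
    by_contra h5
    exact h3 ⟨by omega, by omega⟩
  have h5 : Nat.gcd q (b ^ (M - u)) ≤ Nat.gcd q (b ^ (M - (u - 1))) := by
    apply Nat.le_of_dvd (Nat.gcd_pos_of_pos_left _ hq)
    exact Nat.gcd_dvd_gcd_of_dvd_right _ (pow_dvd_pow _ (by omega))
  have h6 : b ^ u = b * b ^ (u - 1) := by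
    rw [← pow_succ']; congr 1; omega
  rw [h6]
  calc Nat.gcd q (b ^ (M - u)) * (b * b ^ (u - 1)) ≤ Nat.gcd q (b ^ (M - (u - 1))) * (b * b ^ (u - 1)) :=
        Nat.mul_le_mul_right _ h5
    _ = b * (Nat.gcd q (b ^ (M - (u - 1))) * b ^ (u - 1)) := by ring
    _ ≤ b * q := Nat.mul_le_mul_left _ h4

/-- the sum over one class -/
lemma class_bd {b M : ℕ} (hb : 4 ≤ b) {h : ℕ → ℕ → ℕ → ℝ} {Λ : ℕ → ℝ} {K c : ℝ} (hK : 0 ≤ K)
    (hD : Dat b M h Λ K c) {H : ℕ → ℝ} (F : Finset ℕ) (hF : ∀ k ∈ F, k < b ^ (2 * M + 1))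
    (hH : ∀ k ∈ F, ∀ J ⊆ range M, H k ≤ ∏ j ∈ J, h j (dg b k (2 * M - j)) (dg b k j))
    (A : ℕ → ℤ) (Q : ℕ → ℕ) (u m : ℕ) (hum : u + m ≤ M) {t : ℕ} (ht : 0 < t) (htm : t ≤ b ^ m)
    (hQ : ∀ k ∈ F, 0 < Q k)
    (hgcd : ∀ k ∈ F, Nat.gcd (Q k) (b ^ (M - u)) = t) (hq : ∀ k ∈ F, Q k < t * b ^ u)
    (hB : ∀ k ∈ F, |(k : ℝ) - (b : ℝ) ^ (2 * M + 1) * ((A k : ℝ) / Q k)| ≤ (b : ℝ) ^ m) :
    ∑ k ∈ F, H k ≤ 42 * b * K ^ 2 * (b : ℝ) ^ (c * (u + m)) := by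
  have hb0 : 0 < b := by omega
  have hbr : (0 : ℝ) < b := by exact_mod_cast hb0
  set J : Finset ℕ := range m ∪ Ico (M - u) M with hJ
  have hJM : J ⊆ range M := by
    intro j hj
    rw [hJ, mem_union, mem_range, mem_Ico] at hj
    rw [mem_range]; omega
  have hΛ0 : ∀ j < M, 0 ≤ Λ j := fun j hj =>
    (sum_nonneg fun l _ => sum_nonneg fun l' _ => hD.h0 j l l').trans (hD.hΛ j hj)
  have h1 : ∑ k ∈ F, H k ≤ ∑ k ∈ F, ∏ j ∈ J, h j (dg b k (2 * M - j)) (dg b k j) :=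
    sum_le_sum fun k hk => hH k hk J hJM
  refine h1.trans ?_
  have h2 := key_sum hb0 M J h hD.h0 Λ (fun j hj => hD.hΛ j (mem_range.1 (hJM hj))) F 42 ?_
  · refine h2.trans ?_
    have hdis : Disjoint (range m) (Ico (M - u) M) := by
      rw [disjoint_left]
      intro j hj hj'
      rw [mem_range] at hj
      rw [mem_Ico] at hj'
      omega
    rw [hJ, prod_union hdis]
    have h3 := hD.top m (by omega)
    have h4 := hD.cen u (by omega)
    have h5 : 0 ≤ ∏ j ∈ Ico (M - u) M, Λ j := prod_nonneg fun j hj => hΛ0 j (mem_Ico.1 hj).2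
    have h6 : 0 ≤ K * (b : ℝ) ^ (c * m) := by positivity
    have h7 := mul_le_mul h3 h4 h5 h6
    have h8 : (b : ℝ) ^ (c * (u + m)) = (b : ℝ) ^ (c * m) * (b : ℝ) ^ (c * u) := by
      rw [← Real.rpow_add hbr]; congr 1; ring
    rw [h8]
    have h9 : (0 : ℝ) ≤ ((42 : ℕ) : ℝ) * b := by positivity
    refine (mul_le_mul_of_nonneg_left h7 h9).trans (le_of_eq ?_)
    push_cast
    ring
  · intro k₀ hk₀
    set G := F.filter fun k => (∀ j ∈ J, dg b k j = dg b k₀ j ∧ dg b k (2 * M - j) = dg b k₀ (2 * M - j)) ∧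
      dg b k M = dg b k₀ M with hG
    have hGF : ∀ k ∈ G, k ∈ F := fun k hk => (mem_filter.1 hk).1
    have hlow : ∀ k ∈ G, ∀ j, j < m → dg b k j = dg b k₀ j := fun k hk j hj =>
      ((mem_filter.1 hk).2.1 j (by rw [hJ, mem_union, mem_range]; left; exact hj)).1
    have hhigh : ∀ k ∈ G, ∀ i, 2 * M + 1 - m ≤ i → i < 2 * M + 1 → dg b k i = dg b k₀ i := by
      intro k hk i h1 h2
      have h3 := ((mem_filter.1 hk).2.1 (2 * M - i) (by rw [hJ, mem_union, mem_range]; left; omega)).2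
      have h4 : 2 * M - (2 * M - i) = i := by omega
      rwa [h4] at h3
    have hcen : ∀ k ∈ G, ∀ i, M - u ≤ i → i < M - u + (2 * u + 1) → dg b k i = dg b k₀ i := by
      intro k hk i h1 h2
      rcases lt_trichotomy i M with h3 | h3 | h3
      · exact ((mem_filter.1 hk).2.1 i (by rw [hJ, mem_union, mem_Ico]; right; omega)).1
      · rw [h3]; exact (mem_filter.1 hk).2.2
      · have h3 := ((mem_filter.1 hk).2.1 (2 * M - i) (by rw [hJ, mem_union, mem_Ico]; right; omega)).2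
        have h4 : 2 * M - (2 * M - i) = i := by omega
        rwa [h4] at h3
    refine fiber_card hb hum ht htm A Q G (fun k hk => hQ k (hGF k hk)) (fun k hk => hgcd k (hGF k hk))
      (fun k hk => hq k (hGF k hk)) (fun k hk => hB k (hGF k hk)) ?_ ?_ ?_
    · intro k hk k' hk'
      have := window (b := b) (k := k) (k' := k') (p := 0) m (fun i _ h2 => by
        rw [hlow k hk i (by omega), hlow k' hk' i (by omega)])
      simpa using this
    · intro k hk k' hk'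
      exact window_top hb0 (by omega) (hF k (hGF k hk)) (hF k' (hGF k' hk')) (fun i h1 h2 => by
        rw [hhigh k hk i h1 h2, hhigh k' hk' i h1 h2])
    · intro k hk k' hk'
      exact window (b := b) (k := k) (k' := k') (p := M - u) (2 * u + 1) (fun i h1 h2 => by
        rw [hcen k hk i h1 h2, hcen k' hk' i h1 h2])

end Pool.Agent.Zk46.PP
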