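import Pool.Agent.Zk46.PP.Cnt

set_option autoImplicit false

/-! The asymptotic formula for the number of primes among the near palindromes. -/

namespace Pool.Agent.Zk46.PP
open Finset
open Pool.Agent.H807R2.Dav
open Pool.Agent.H373R2.T7 (ev_log' ev_L')

/-- the near palindromes prime to the base -/
def NearC (b M : ℕ) (w : ℕ → ℕ) : Finset ℕ := (Near b M w).filter fun n => n.Coprime b

lemma Near_sub {b M : ℕ} (hb : 2 ≤ b) (w : ℕ → ℕ) : Near b M w ⊆ Icc 1 (b ^ (2 * M + 1)) := by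
  intro n hn
  unfold Near at hn
  rw [mem_filter, mem_Ico] at hn
  rw [mem_Icc]
  have : 1 ≤ b ^ (2 * M) := Nat.one_le_pow _ _ (by omega)
  omega

lemma coprime_dg {b n : ℕ} : n.Coprime b ↔ (dg b n 0).Coprime b := by
  unfold dg Nat.Coprime
  rw [pow_zero, Nat.div_one, Nat.gcd_comm n b, Nat.gcd_rec b n]

lemma NearC_card {b M : ℕ} (hb : 2 ≤ b) (hM : 1 ≤ M) (w : ℕ → ℕ) : (Near b M w).card ≤ b ^ 2 * (NearC b M w).card := by
  set R' : ℕ → Finset (ℕ × ℕ) := fun j => if j = 0 then (RR b w 0).filter (fun p => p.1.Coprime b) else RR b w j with hR'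
  have hsub : ∀ j, R' j ⊆ range b ×ˢ range b := by
    intro j
    rw [hR']
    simp only
    split_ifs
    · exact (filter_subset _ _).trans (RR_sub _ _ _)
    · exact RR_sub _ _ _
  have h1 : NearC b M w = SS b M R' := by
    unfold NearC
    rw [← SS_eq hb hM]
    unfold SS
    ext n
    simp only [mem_filter, mem_range]
    constructor
    · rintro ⟨⟨h1, h2⟩, h3⟩
      refine ⟨h1, fun j hj => ?_⟩
      rw [hR']
      simp only
      split_ifs with h0
      · subst h0
        rw [mem_filter]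
        exact ⟨h2 0 hj, coprime_dg.1 h3⟩
      · exact h2 j hj
    · rintro ⟨h1, h2⟩
      refine ⟨⟨h1, fun j hj => ?_⟩, ?_⟩
      · have h3 := h2 j hj
        rw [hR'] at h3
        simp only at h3
        split_ifs at h3 with h0
        · subst h0
          exact (mem_filter.1 h3).1
        · exact h3
      · have h3 := h2 0 (by omega)
        rw [hR'] at h3
        simp only [if_true, mem_filter] at h3
        exact coprime_dg.2 h3.2
  rw [h1, ← SS_eq hb hM, SS_card M _ (RR_sub b w), SS_card M _ hsub]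
  obtain ⟨m, rfl⟩ : ∃ m, M = m + 1 := ⟨M - 1, by omega⟩
  rw [prod_range_succ', prod_range_succ']
  have h2 : ∀ j ∈ range m, (R' (j + 1)).card = (RR b w (j + 1)).card := by
    intro j _
    rw [hR']
    simp
  rw [prod_congr rfl h2]
  have h3 : (RR b w 0).card ≤ b ^ 2 := by
    have := card_le_card (RR_sub b w 0)
    rw [card_product, card_range] at this
    rw [sq]; exact this
  have h4 : 1 ≤ (R' 0).card := by
    rw [Nat.one_le_iff_ne_zero, Ne, card_eq_zero]
    intro h5
    have h6 : ((1, 1) : ℕ × ℕ) ∈ R' 0 := by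
      rw [hR']
      simp only [if_true, mem_filter]
      refine ⟨?_, Nat.coprime_one_left b⟩
      unfold RR
      rw [if_pos rfl, mem_filter]
      exact ⟨mem_Rw.2 ⟨⟨by omega, by omega⟩, by omega, by omega⟩, le_rfl⟩
    rw [h5] at h6
    simp at h6
  set Z := ∏ j ∈ range m, (RR b w (j + 1)).card with hZ
  calc b * (Z * (RR b w 0).card) ≤ b * (Z * b ^ 2) := by gcongr
    _ = b ^ 2 * (b * (Z * 1)) := by ring
    _ ≤ b ^ 2 * (b * (Z * (R' 0).card)) := by gcongr

/-- the number of near palindromes -/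
lemma Near_card {b M : ℕ} (hb : 2 ≤ b) (hM : 1 ≤ M) {w : ℕ → ℕ} (hw : ∀ j < M, w j < b) {Z : ℝ} (hZ0 : 0 < Z)
    (hZ : ∏ j ∈ range M, ((b : ℝ) / (w j + 1)) ≤ Z) : (b : ℝ) ^ (2 * M) ≤ b * Z * (Near b M w).card := by
  have hbr : (2 : ℝ) ≤ b := by exact_mod_cast hb
  have hb0 : (0 : ℝ) < b := by linarith
  rw [← SS_eq hb hM, SS_card M _ (RR_sub b w)]
  obtain ⟨m, rfl⟩ : ∃ m, M = m + 1 := ⟨M - 1, by omega⟩
  rw [prod_range_succ'] at hZ ⊢
  have h1 : (1 : ℝ) ≤ (b : ℝ) / (w 0 + 1) := by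
    rw [le_div_iff₀ (by positivity), one_mul]
    exact_mod_cast hw 0 (by omega)
  have h2 : 1 ≤ (RR b w 0).card := by
    rw [Nat.one_le_iff_ne_zero, Ne, card_eq_zero]
    intro h5
    have h6 : ((1, 1) : ℕ × ℕ) ∈ RR b w 0 := by
      unfold RR
      rw [if_pos rfl, mem_filter]
      exact ⟨mem_Rw.2 ⟨⟨by omega, by omega⟩, by omega, by omega⟩, le_rfl⟩
    rw [h5] at h6
    simp at h6
  have h3 : ∏ j ∈ range m, ((b : ℝ) ^ 2) ≤ (∏ j ∈ range m, ((b : ℝ) / (w (j + 1) + 1))) * ∏ j ∈ range m, ((RR b w (j + 1)).card : ℝ) := by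
    rw [← prod_mul_distrib]
    refine prod_le_prod (fun j _ => by positivity) fun j hj => ?_
    rw [mem_range] at hj
    have h4 : b * (w (j + 1) + 1) ≤ (RR b w (j + 1)).card := by
      unfold RR
      rw [if_neg (by omega)]
      exact Rw_card (hw (j + 1) (by omega))
    have h5 : (b : ℝ) * (w (j + 1) + 1) ≤ (RR b w (j + 1)).card := by exact_mod_cast h4
    calc (b : ℝ) ^ 2 = (b / (w (j + 1) + 1)) * (b * (w (j + 1) + 1)) := by field_simp
      _ ≤ _ := mul_le_mul_of_nonneg_left h5 (by positivity)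
  rw [prod_const, card_range, ← pow_mul] at h3
  have h6 : 0 ≤ ∏ j ∈ range m, ((b : ℝ) / (w (j + 1) + 1)) := prod_nonneg fun j _ => by positivity
  have h7 : ∏ j ∈ range m, ((b : ℝ) / (w (j + 1) + 1)) ≤ Z := by
    refine le_trans ?_ hZ
    nlinarith
  have h8 : (0 : ℝ) ≤ ∏ j ∈ range m, ((RR b w (j + 1)).card : ℝ) := prod_nonneg fun j _ => Nat.cast_nonneg _
  have h9 : (1 : ℝ) ≤ ((RR b w 0).card : ℝ) := by exact_mod_cast h2
  push_cast
  have h10 : (b : ℝ) ^ (2 * (m + 1)) = b * b * (b : ℝ) ^ (2 * m) := by ring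
  rw [h10]
  have h11 : (b : ℝ) ^ (2 * m) ≤ Z * ∏ j ∈ range m, ((RR b w (j + 1)).card : ℝ) :=
    h3.trans (mul_le_mul_of_nonneg_right h7 h8)
  calc (b : ℝ) * b * (b : ℝ) ^ (2 * m) ≤ b * b * (Z * ∏ j ∈ range m, ((RR b w (j + 1)).card : ℝ)) := by gcongr
    _ = b * Z * (b * ((∏ j ∈ range m, ((RR b w (j + 1)).card : ℝ)) * 1)) := by ring
    _ ≤ b * Z * (b * ((∏ j ∈ range m, ((RR b w (j + 1)).card : ℝ)) * (RR b w 0).card)) := by gcongr

/-- many positions with a positive tolerance -/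
lemma st_card {b M m' : ℕ} (hb : 2 ≤ b) {w : ℕ → ℕ} (hw : ∀ j < M, w j < b)
    (hZ : ∏ j ∈ range M, ((b : ℝ) / (w j + 1)) ≤ (b : ℝ) ^ m') (hm' : 2 * m' + 2 ≤ M) :
    M ≤ 2 * ((range M).filter fun j => j ≠ 0 ∧ 1 ≤ w j).card := by
  have hbr : (2 : ℝ) ≤ b := by exact_mod_cast hb
  have hb0 : (0 : ℝ) < b := by linarith
  set z := ((range M).filter fun j => w j = 0).card with hz
  have h1 : (b : ℝ) ^ z ≤ (b : ℝ) ^ m' := by
    refine le_trans ?_ hZ
    have h2 : ∏ j ∈ range M, (if w j = 0 then (b : ℝ) else 1) ≤ ∏ j ∈ range M, ((b : ℝ) / (w j + 1)) := by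
      refine prod_le_prod (fun j _ => by split_ifs <;> positivity) fun j hj => ?_
      split_ifs with h
      · rw [h]; simp
      · rw [le_div_iff₀ (by positivity), one_mul]
        exact_mod_cast hw j (mem_range.1 hj)
    refine le_trans (le_of_eq ?_) h2
    rw [← prod_filter, prod_const]
  have h2 : z ≤ m' := (pow_le_pow_iff_right₀ (by linarith)).1 h1
  have h3 : M ≤ ((range M).filter fun j => j ≠ 0 ∧ 1 ≤ w j).card + z + 1 := by
    have h4 : range M ⊆ ((range M).filter fun j => j ≠ 0 ∧ 1 ≤ w j) ∪ ((range M).filter fun j => w j = 0) ∪ {0} := by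
      intro j hj
      simp only [mem_union, mem_filter, mem_singleton]
      by_cases h0 : j = 0
      · right; exact h0
      · left
        by_cases h5 : w j = 0
        · right; exact ⟨hj, h5⟩
        · left; exact ⟨hj, h0, by omega⟩
    have h5 := card_le_card h4
    rw [card_range] at h5
    refine h5.trans ((card_union_le _ _).trans ?_)
    have h6 := card_union_le ((range M).filter fun j => j ≠ 0 ∧ 1 ≤ w j) ((range M).filter fun j => w j = 0)
    rw [card_singleton]
    omega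
  omega

end Pool.Agent.Zk46.PP
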