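import Pool.Agent.Zk46.PP.Cnt2

set_option autoImplicit false

/-! The asymptotic formula. -/

namespace Pool.Agent.Zk46.PP
open Finset
open Pool.Agent.H807R2.Dav
open Pool.Agent.H373R2.T7 (ev_log' ev_L')

/-- the conditions on the tolerances -/
structure Tol (b M : ℕ) (ε K : ℝ) (w : ℕ → ℕ) : Prop where
  lt : ∀ j < M, w j < b
  outer : ∀ m ≤ M, ∏ j ∈ range m, ((b : ℝ) / (w j + 1)) ≤ K * (b : ℝ) ^ ((1 / 2 - ε) * m)
  central : ∀ u ≤ M, ∏ j ∈ Ico (M - u) M, ((b : ℝ) / (w j + 1)) ≤ K * (b : ℝ) ^ ((1 / 2 - ε) * u)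
  total : ∏ j ∈ range M, ((b : ℝ) / (w j + 1)) ≤ K * (b : ℝ) ^ ((2 / 5 - ε) * M)

/-- the sum of the von Mangoldt function -/
theorem lam_near {ε : ℝ} (hε : 0 < ε) (hε5 : ε ≤ 1 / 5) : ∃ b₀ : ℕ, 4 ≤ b₀ ∧ ∀ b : ℕ, b₀ ≤ b → ∀ K : ℝ, 0 < K → ∀ δ : ℝ, 0 < δ →
    ∃ M₀ : ℕ, ∀ M : ℕ, M₀ ≤ M → ∀ w : ℕ → ℕ, Tol b M ε K w → |∑ n ∈ Near b M w, ff b n| ≤ δ * (Near b M w).card := by
  obtain ⟨b₀, hb₀4, hb₀⟩ := lf_ev (show 0 < ε / 2 by positivity)
  refine ⟨b₀, hb₀4, fun b hb K hK δ hδ => ?_⟩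
  have hb4 : 4 ≤ b := hb₀4.trans hb
  have hb2 : 2 ≤ b := by omega
  have hbr : (4 : ℝ) ≤ b := by exact_mod_cast hb4
  have hb0 : (0 : ℝ) < b := by linarith
  have hb1 : (1 : ℝ) ≤ b := by linarith
  obtain ⟨M1, hcir⟩ := circle hb4 (K := b ^ 2 * K) (c := 1 / 2 - ε / 2) (c' := 2 / 5 - ε / 2) (by positivity) (by linarith)
    (by linarith) (by linarith) (by linarith) hδ
  obtain ⟨k0, hk0⟩ := pow_unbounded_of_one_lt K (show (1 : ℝ) < b by linarith)
  refine ⟨max M1 (10 * k0 + 20), fun M hM w hT => ?_⟩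
  have hMM1 := (le_max_left _ _).trans hM
  have hM2 := (le_max_right _ _).trans hM
  have hdat := near_dat hb4 hε hε5 hK.le (hb₀ b hb) hT.lt hT.outer hT.central hT.total
  have hst : M ≤ 2 * ((range M).filter fun j => j ≠ 0 ∧ 1 ≤ w j).card := by
    refine st_card (m' := (M - 2) / 2) hb2 hT.lt ?_ (by omega)
    refine hT.total.trans ?_
    have h1 : (b : ℝ) ^ ((2 / 5 - ε) * M) ≤ (b : ℝ) ^ ((2 / 5 : ℝ) * M) := by
      apply Real.rpow_le_rpow_of_exponent_le hb1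
      have : (0 : ℝ) ≤ ε * M := by positivity
      nlinarith
    have h2 : (k0 : ℝ) + 2 / 5 * M ≤ (((M - 2) / 2 : ℕ) : ℝ) := by
      have h3 : M ≤ 2 * ((M - 2) / 2) + 3 := by omega
      have h4 : (M : ℝ) ≤ 2 * (((M - 2) / 2 : ℕ) : ℝ) + 3 := by exact_mod_cast h3
      have h5 : (10 * (k0 : ℝ) + 20) ≤ M := by exact_mod_cast hM2
      linarith
    calc K * (b : ℝ) ^ ((2 / 5 - ε) * M) ≤ (b : ℝ) ^ k0 * (b : ℝ) ^ ((2 / 5 : ℝ) * M) := by gcongr
      _ = (b : ℝ) ^ ((k0 : ℝ) + 2 / 5 * M) := by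
          rw [← Real.rpow_natCast, ← Real.rpow_add hb0]
      _ ≤ (b : ℝ) ^ ((((M - 2) / 2 : ℕ) : ℝ)) := Real.rpow_le_rpow_of_exponent_le hb1 h2
      _ = _ := Real.rpow_natCast _ _
  have h := hcir M hMM1 (RR b w) (HH b w) (LL b w) ((range M).filter fun j => j ≠ 0 ∧ 1 ≤ w j) (RR_sub b w)
    (fun j hj => HH_PB (hT.lt j hj)) hdat.1 hdat.2 (filter_subset _ _) (fun j hj => by
      rw [mem_filter, mem_range] at hj
      refine ⟨0, 0, ?_, ?_⟩
      · unfold RR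
        rw [if_neg hj.2.1]
        exact mem_Rw.2 ⟨⟨by omega, by omega⟩, by omega, by omega⟩
      · unfold RR
        rw [if_neg hj.2.1]
        exact mem_Rw.2 ⟨⟨by omega, by omega⟩, by omega, by omega⟩) hst (by
      rw [SS_eq hb2 (by omega)]
      exact Near_sub hb2 w)
  rw [SS_eq hb2 (by omega)] at h
  exact h

/-- the prime powers -/
lemma pp_bd {N : ℕ} (hN : 1 ≤ N) (S : Finset ℕ) (hS : S ⊆ Icc 1 N) :
    ∑ n ∈ S with ¬ n.Prime, ArithmeticFunction.vonMangoldt n ≤ 2 * √(N : ℝ) * Real.log N := by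
  refine le_trans ?_ (Chebyshev.psi_sub_theta_le (x := (N : ℝ)) (by exact_mod_cast hN))
  rw [Chebyshev.psi_sub_theta_eq_sum_not_prime, Nat.floor_natCast]
  refine sum_le_sum_of_subset_of_nonneg ?_ fun _ _ _ => ArithmeticFunction.vonMangoldt_nonneg
  intro n hn
  rw [mem_filter] at hn ⊢
  have := mem_Icc.1 (hS hn.1)
  exact ⟨mem_Ioc.2 ⟨by omega, this.2⟩, hn.2⟩

/-- the asymptotic formula for the number of primes -/
theorem prime_near {ε : ℝ} (hε : 0 < ε) (hε5 : ε ≤ 1 / 5) : ∃ b₀ : ℕ, 4 ≤ b₀ ∧ ∀ b : ℕ, b₀ ≤ b → ∀ K : ℝ, 0 < K → ∀ δ : ℝ, 0 < δ →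
    ∃ M₀ : ℕ, 1 ≤ M₀ ∧ ∀ M : ℕ, M₀ ≤ M → ∀ w : ℕ → ℕ, Tol b M ε K w → 0 < (NearC b M w).card ∧
      |(((Near b M w).filter Nat.Prime).card : ℝ) -
        (b : ℝ) / Nat.totient b * (NearC b M w).card / ((2 * M + 1) * Real.log b)| ≤
      δ * ((b : ℝ) / Nat.totient b * (NearC b M w).card / ((2 * M + 1) * Real.log b)) := by
  obtain ⟨b₀, hb₀4, hb₀⟩ := lam_near hε hε5
  refine ⟨b₀, hb₀4, fun b hb K hK δ' hδ' => ?_⟩
  obtain ⟨δ, hδ, hδ1, hδδ'⟩ : ∃ δ : ℝ, 0 < δ ∧ δ ≤ 1 ∧ δ ≤ δ' := ⟨min 1 δ', by positivity, min_le_left _ _, min_le_right _ _⟩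
  have hb4 : 4 ≤ b := hb₀4.trans hb
  have hb2 : 2 ≤ b := by omega
  have hbr : (4 : ℝ) ≤ b := by exact_mod_cast hb4
  have hb0 : (0 : ℝ) < b := by linarith
  have hb1 : (1 : ℝ) ≤ b := by linarith
  have hφ : (0 : ℝ) < Nat.totient b := by exact_mod_cast Nat.totient_pos.2 (by omega)
  have hφb : (Nat.totient b : ℝ) ≤ b := by exact_mod_cast Nat.totient_le b
  set ρ : ℝ := (b : ℝ) / Nat.totient b with hρ
  have hρ1 : 1 ≤ ρ := by rw [hρ, le_div_iff₀ hφ]; linarith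
  set δ₁ : ℝ := δ / (4 * b ^ 2) with hδ₁
  have hδ₁0 : 0 < δ₁ := by positivity
  obtain ⟨M1, hlam⟩ := hb₀ b hb K hK δ₁ hδ₁0
  obtain ⟨N1, hpow⟩ := ev_pow (show (0 : ℝ) < 1 / 20 by norm_num) 1 (2 * (b * K) / δ₁)
  refine ⟨max (max M1 N1) (⌈4 / δ⌉₊ + 2), by omega, fun M hM w hT => ?_⟩
  have hMM1 := (le_max_left _ _).trans ((le_max_left _ _).trans hM)
  have hMN1 := (le_max_right _ _).trans ((le_max_left _ _).trans hM)
  have hM2' := (le_max_right _ _).trans hM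
  have hM2 : 2 ≤ M := by omega
  have hMδ : 4 / δ ≤ M := by
    refine (Nat.le_ceil _).trans ?_
    exact_mod_cast (by omega : ⌈4 / δ⌉₊ ≤ M)
  have hMr : (2 : ℝ) ≤ M := by exact_mod_cast hM2
  set N : ℕ := b ^ (2 * M + 1) with hNd
  have hMN : M ≤ N := by
    have h2 : 2 * M + 1 < b ^ (2 * M + 1) := Nat.lt_pow_self (by omega)
    omega
  have hN1 : 1 ≤ N := Nat.one_le_pow _ _ (by omega)
  have hNr : (1 : ℝ) ≤ N := by exact_mod_cast hN1
  have hNpos : (0 : ℝ) < N := by linarith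
  have e0 : (N : ℝ) = (b : ℝ) ^ (2 * M + 1) := by rw [hNd]; push_cast; rfl
  set ℓ : ℝ := (2 * M + 1) * Real.log b with hℓ
  have hlogb : 0 < Real.log b := Real.log_pos (by linarith)
  have hℓ0 : 0 < ℓ := by rw [hℓ]; positivity
  have hlogN : Real.log (N : ℝ) = ℓ := by
    rw [e0, Real.log_pow, hℓ]; push_cast; ring
  set S := Near b M w with hS
  have hSN : S ⊆ Icc 1 N := Near_sub hb2 w
  have hcc : (S.card : ℝ) ≤ b ^ 2 * (NearC b M w).card := by exact_mod_cast NearC_card hb2 (by omega) w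
  set s : ℝ := (S.card : ℝ) with hs
  set c : ℝ := ((NearC b M w).card : ℝ) with hc
  -- the size of `S`
  have hZ : ∏ j ∈ range M, ((b : ℝ) / (w j + 1)) ≤ K * (b : ℝ) ^ ((2 / 5 : ℝ) * M) := by
    refine hT.total.trans ?_
    have h1 : (b : ℝ) ^ ((2 / 5 - ε) * M) ≤ (b : ℝ) ^ ((2 / 5 : ℝ) * M) := by
      apply Real.rpow_le_rpow_of_exponent_le hb1
      have : (0 : ℝ) ≤ ε * M := by positivity
      nlinarith
    gcongr
  have hcard := Near_card hb2 (by omega) hT.lt (by positivity) hZ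
  have hs0 : 0 < s := by
    have h1 : (0 : ℝ) < (b : ℝ) ^ (2 * M) := by positivity
    by_contra hcon
    rw [not_lt] at hcon
    have h2 : b * (K * (b : ℝ) ^ ((2 / 5 : ℝ) * M)) * s ≤ 0 := mul_nonpos_of_nonneg_of_nonpos (by positivity) hcon
    linarith
  have hc0 : 0 < c := by
    by_contra hcon
    rw [not_lt] at hcon
    have h2 : (b : ℝ) ^ 2 * c ≤ 0 := mul_nonpos_of_nonneg_of_nonpos (by positivity) hcon
    linarith
  refine ⟨by rw [hc] at hc0; exact_mod_cast hc0, ?_⟩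
  set Y : ℝ := ρ * c with hY
  have hY0 : 0 < Y := by positivity
  have hsY : δ₁ * s ≤ δ / 4 * Y := by
    have h1 : s ≤ b ^ 2 * Y := by
      refine hcc.trans ?_
      rw [hY]
      have : c ≤ ρ * c := le_mul_of_one_le_left hc0.le hρ1
      gcongr
    calc δ₁ * s ≤ δ₁ * (b ^ 2 * Y) := mul_le_mul_of_nonneg_left h1 hδ₁0.le
      _ = δ / 4 * Y := by rw [hδ₁]; field_simp
  -- the sum of the von Mangoldt function
  have hlam' := hlam M hMM1 w hT
  have hff : ∑ n ∈ S, ff b n = ∑ n ∈ S, ArithmeticFunction.vonMangoldt n - Y := by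
    unfold ff
    rw [sum_sub_distrib]
    congr 1
    rw [← sum_filter, sum_const, nsmul_eq_mul, hY]
    change c * ρ = ρ * c
    ring
  rw [hff] at hlam'
  have hl := abs_le.1 (hlam'.trans hsY)
  -- the primes
  set Θ : ℝ := ∑ p ∈ S with p.Prime, Real.log p with hΘ
  have hsplit : ∑ n ∈ S, ArithmeticFunction.vonMangoldt n = Θ + ∑ n ∈ S with ¬ n.Prime, ArithmeticFunction.vonMangoldt n := by
    rw [← sum_filter_add_sum_filter_not S Nat.Prime]
    congr 1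
    refine sum_congr rfl fun p hp => ?_
    exact ArithmeticFunction.vonMangoldt_apply_prime (mem_filter.1 hp).2
  have hpp0 : 0 ≤ ∑ n ∈ S with ¬ n.Prime, ArithmeticFunction.vonMangoldt n :=
    sum_nonneg fun _ _ => ArithmeticFunction.vonMangoldt_nonneg
  have hpp1 : ∑ n ∈ S with ¬ n.Prime, ArithmeticFunction.vonMangoldt n ≤ δ / 4 * Y := by
    refine (pp_bd hN1 S hSN).trans (le_trans ?_ hsY)
    have h1 := hpow N (hMN1.trans hMN)
    rw [pow_one] at h1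
    -- 2 √N log N ≤ δ₁ s
    have h2 : √(N : ℝ) * (N : ℝ) ^ (1 / 20 : ℝ) ≤ (b : ℝ) ^ ((8 / 5 : ℝ) * M) := by
      rw [Real.sqrt_eq_rpow, ← Real.rpow_add hNpos, e0, ← Real.rpow_natCast, ← Real.rpow_mul hb0.le]
      apply Real.rpow_le_rpow_of_exponent_le hb1
      push_cast
      linarith
    have h3 : (b : ℝ) ^ ((8 / 5 : ℝ) * M) ≤ b * K * s := by
      have h4 : (b : ℝ) ^ (2 * M) = (b : ℝ) ^ ((8 / 5 : ℝ) * M) * (b : ℝ) ^ ((2 / 5 : ℝ) * M) := by
        rw [← Real.rpow_add hb0, ← Real.rpow_natCast]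
        congr 1; push_cast; ring
      rw [h4] at hcard
      have h5 : (0 : ℝ) < (b : ℝ) ^ ((2 / 5 : ℝ) * M) := by positivity
      have h6 : (b : ℝ) ^ ((8 / 5 : ℝ) * M) * (b : ℝ) ^ ((2 / 5 : ℝ) * M) ≤ (b * K * s) * (b : ℝ) ^ ((2 / 5 : ℝ) * M) := by
        refine hcard.trans (le_of_eq ?_)
        ring
      exact le_of_mul_le_mul_right h6 h5
    have h7 : 2 * √(N : ℝ) * Real.log N * (b * K) ≤ (δ₁ * s) * (b * K) := by
      calc 2 * √(N : ℝ) * Real.log N * (b * K) = δ₁ * (√(N : ℝ) * (2 * (b * K) / δ₁ * Real.log N)) := by field_simp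
        _ ≤ δ₁ * (√(N : ℝ) * (N : ℝ) ^ (1 / 20 : ℝ)) := by gcongr
        _ ≤ δ₁ * (b * K * s) := mul_le_mul_of_nonneg_left (h2.trans h3) hδ₁0.le
        _ = _ := by ring
    exact le_of_mul_le_mul_right h7 (by positivity)
  set π : ℝ := ((S.filter Nat.Prime).card : ℝ) with hπ
  have hup : Θ ≤ π * ℓ := by
    have h1 : ∀ p ∈ S.filter Nat.Prime, Real.log p ≤ ℓ := by
      intro p hp
      have h2 := mem_Icc.1 (hSN (mem_filter.1 hp).1)
      rw [← hlogN]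
      exact Real.log_le_log (by exact_mod_cast h2.1) (by exact_mod_cast h2.2)
    refine (sum_le_sum h1).trans ?_
    rw [sum_const, nsmul_eq_mul]
  have hlow : π * (2 * M * Real.log b) ≤ Θ := by
    have h1 : ∀ p ∈ S.filter Nat.Prime, 2 * M * Real.log b ≤ Real.log p := by
      intro p hp
      have h2 : b ^ (2 * M) ≤ p := by
        have := (mem_filter.1 hp).1
        rw [hS] at this
        unfold Near at this
        rw [mem_filter, mem_Ico] at this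
        exact this.1.1
      have h3 : (b : ℝ) ^ (2 * M) ≤ p := by exact_mod_cast h2
      have h4 := Real.log_le_log (by positivity) h3
      rw [Real.log_pow] at h4
      push_cast at h4
      exact h4
    have h5 := sum_le_sum h1
    rw [sum_const, nsmul_eq_mul] at h5
    exact h5
  have hπ0 : 0 ≤ π := Nat.cast_nonneg _
  -- conclusion
  have hm1 : (1 - δ) * Y ≤ π * ℓ := by nlinarith [hl.1]
  have hΘup : Θ ≤ (1 + δ / 4) * Y := by linarith [hl.2]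
  have hm2 : π * ℓ ≤ (1 + δ) * Y := by
    have h1 : π * ℓ = π * (2 * M * Real.log b) * (1 + 1 / (2 * M)) := by
      rw [hℓ]; field_simp
    rw [h1]
    have h2 : 1 / (2 * (M : ℝ)) ≤ δ / 4 := by
      rw [div_le_iff₀ hδ] at hMδ
      rw [div_le_div_iff₀ (by positivity) (by norm_num)]
      nlinarith
    calc π * (2 * M * Real.log b) * (1 + 1 / (2 * M)) ≤ ((1 + δ / 4) * Y) * (1 + δ / 4) := by
          apply mul_le_mul (hlow.trans hΘup) (by linarith) (by positivity) (by positivity)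
      _ ≤ (1 + δ) * Y := by nlinarith
  have hX : ρ * c / ℓ = Y / ℓ := rfl
  rw [hX]
  have h1 : |π - Y / ℓ| ≤ δ * (Y / ℓ) := by
    have e1 : π - Y / ℓ = (π * ℓ - Y) / ℓ := by field_simp
    have e2 : δ * (Y / ℓ) = (δ * Y) / ℓ := by ring
    rw [e1, e2, abs_div, abs_of_pos hℓ0]
    apply div_le_div_of_nonneg_right _ hℓ0.le
    rw [abs_le]
    constructor <;> linarith
  refine h1.trans ?_
  exact mul_le_mul_of_nonneg_right hδδ' (by positivity)

end Pool.Agent.Zk46.PP
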