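import Pool.Agent.Zk46.PP.Four

set_option autoImplicit false

/-! Orthogonality, and the decay of the Fourier transform near fractions with a denominator that is not a divisor of a power of the base. -/

namespace Pool.Agent.Zk46.PP
open Finset
open Pool.Agent.H807R2.Dav

lemma ee_eq_one {x : ℝ} (h : ee x = 1) : ∃ z : ℤ, x = z := by
  unfold ee at h
  rw [Complex.exp_eq_one_iff] at h
  obtain ⟨n, hn⟩ := h
  refine ⟨n, ?_⟩
  have h1 : (2 * Real.pi * Complex.I : ℂ) ≠ 0 := Complex.two_pi_I_ne_zero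
  have h2 : (x : ℂ) = n := by
    have : (2 * Real.pi * Complex.I : ℂ) * x = (2 * Real.pi * Complex.I) * n := by rw [hn]; ring
    exact mul_left_cancel₀ h1 this
  exact_mod_cast h2

/-- a geometric sum over all residues -/
lemma full_sum {N : ℕ} (hN : 1 ≤ N) {a : ℤ} (ha : ¬ (N : ℤ) ∣ a) : ∑ k ∈ range N, ee (k * ((a : ℝ) / N)) = 0 := by
  have hNr : (N : ℝ) ≠ 0 := by positivity
  have h1 : ee ((a : ℝ) / N) ≠ 1 := by
    intro h
    obtain ⟨z, hz⟩ := ee_eq_one h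
    apply ha
    refine ⟨z, ?_⟩
    rw [div_eq_iff hNr] at hz
    have : a = z * N := by exact_mod_cast hz
    linarith
  simp_rw [ee_pow]
  have h2 : (∑ k ∈ range N, ee ((a : ℝ) / N) ^ k) * (ee ((a : ℝ) / N) - 1) = 0 := by
    rw [geom_sum_mul, ← ee_pow]
    have : (N : ℝ) * ((a : ℝ) / N) = ((a : ℤ) : ℝ) := by field_simp
    rw [this, ee_int, sub_self]
  rcases mul_eq_zero.1 h2 with h | h
  · exact h
  · exact absurd (sub_eq_zero.1 h) h1

/-- the same over `1, …, N` -/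
lemma full_sum' {N : ℕ} (hN : 1 ≤ N) {a : ℤ} (ha : ¬ (N : ℤ) ∣ a) : ∑ k ∈ Icc 1 N, ee (k * ((a : ℝ) / N)) = 0 := by
  have h1 := full_sum hN ha
  have hNr : (N : ℝ) ≠ 0 := by positivity
  have h2 : Icc 1 N = Ico 1 (N + 1) := by ext x; simp [Nat.lt_succ_iff]
  rw [h2, sum_Ico_succ_top (by omega)]
  rw [range_eq_Ico, sum_eq_sum_Ico_succ_bot (by omega)] at h1
  have h3 : ee ((N : ℝ) * ((a : ℝ) / N)) = 1 := by
    have : (N : ℝ) * ((a : ℝ) / N) = ((a : ℤ) : ℝ) := by field_simp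
    rw [this, ee_int]
  rw [h3]
  simp only [Nat.cast_zero, zero_mul, ee_zero, zero_add] at h1
  rw [add_comm]; exact h1

/-- orthogonality -/
lemma orth {N : ℕ} (hN : 1 ≤ N) (S : Finset ℕ) (hS : S ⊆ Icc 1 N) (f : ℕ → ℂ) :
    (N : ℂ) * ∑ n ∈ S, f n = ∑ k ∈ range N, (∑ n ∈ S, ee (n * ((k : ℝ) / N))) *
      ∑ m ∈ Icc 1 N, f m * ee (-(m * ((k : ℝ) / N))) := by
  have h1 : ∀ k ∈ range N, (∑ n ∈ S, ee (n * ((k : ℝ) / N))) * ∑ m ∈ Icc 1 N, f m * ee (-(m * ((k : ℝ) / N))) =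
      ∑ n ∈ S, ∑ m ∈ Icc 1 N, f m * ee (k * ((((n : ℤ) - m : ℤ) : ℝ) / N)) := by
    intro k _
    rw [sum_mul_sum]
    refine sum_congr rfl fun n _ => sum_congr rfl fun m _ => ?_
    have : ee (k * ((((n : ℤ) - m : ℤ) : ℝ) / N)) = ee (n * ((k : ℝ) / N)) * ee (-(m * ((k : ℝ) / N))) := by
      rw [← ee_add]
      congr 1
      push_cast
      ring
    rw [this]; ring
  rw [sum_congr rfl h1, sum_comm, mul_sum]
  refine sum_congr rfl fun n hn => ?_
  rw [sum_comm]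
  have hn' := mem_Icc.1 (hS hn)
  have h2 : ∀ m ∈ Icc 1 N, ∑ k ∈ range N, f m * ee (k * ((((n : ℤ) - m : ℤ) : ℝ) / N)) = if m = n then (N : ℂ) * f n else 0 := by
    intro m hm
    have hm' := mem_Icc.1 hm
    rw [← mul_sum]
    split_ifs with h
    · subst h
      simp only [sub_self, Int.cast_zero, zero_div, mul_zero, ee_zero, sum_const, card_range, nsmul_eq_mul, mul_one]
      ring
    · rw [full_sum hN, mul_zero]
      intro hdv
      obtain ⟨z, hz⟩ := hdv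
      have hz0 : z = 0 := by
        by_contra hne
        rcases lt_or_gt_of_ne hne with h3 | h3
        · have : (N : ℤ) * z ≤ -N := by nlinarith
          omega
        · have : (N : ℤ) ≤ N * z := by nlinarith
          omega
      rw [hz0, mul_zero] at hz
      omega
  rw [sum_congr rfl h2, sum_ite_eq' (Icc 1 N) n, if_pos (hS hn)]

lemma norm_one_add_ee (x : ℝ) : ‖1 + ee x‖ ≤ 2 - dd x ^ 2 / 4 := by
  have h1 : ‖1 + ee x‖ * ‖1 + ee x‖ + dd x * dd x = 4 := by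
    have := parallelogram_law_with_norm ℝ (1 : ℂ) (ee x)
    unfold dd
    rw [norm_one, norm_ee] at this
    linarith
  have h2 : dd x ≤ 2 := by
    unfold dd
    refine (norm_sub_le _ _).trans ?_
    rw [norm_one, norm_ee]; norm_num
  have h3 := dd_nonneg x
  have h4 := norm_nonneg (1 + ee x)
  have h5 : 0 ≤ 2 - dd x ^ 2 / 4 := by nlinarith
  nlinarith [sq_nonneg (dd x ^ 2)]

/-- two pairs that differ by one give a saving -/
lemma pair_dec {b : ℕ} {R : Finset (ℕ × ℕ)} (hR : R ⊆ range b ×ˢ range b) {x y : ℕ} (h1 : (x, y) ∈ R)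
    (h2 : (x, y + 1) ∈ R) (α β : ℝ) :
    ‖∑ p ∈ R, ee (p.1 * α + p.2 * β)‖ ≤ R.card * (1 - dd β ^ 2 / (4 * b ^ 2)) := by
  classical
  have hp := hR h1
  rw [mem_product, mem_range, mem_range] at hp
  have hb : 0 < b := by have := hp.1; omega
  have hbr : (0 : ℝ) < b := by exact_mod_cast hb
  have hne : (x, y) ≠ (x, y + 1) := by
    intro h
    rw [Prod.mk.injEq] at h
    omega
  have hsub : ({(x, y), (x, y + 1)} : Finset (ℕ × ℕ)) ⊆ R := by
    intro p hp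
    rw [mem_insert, mem_singleton] at hp
    rcases hp with h | h <;> rw [h] <;> assumption
  have hcard2 : ({(x, y), (x, y + 1)} : Finset (ℕ × ℕ)).card = 2 := card_pair hne
  rw [← sum_sdiff hsub, sum_pair hne]
  refine (norm_add_le _ _).trans ?_
  have e1 : ‖∑ p ∈ R \ {(x, y), (x, y + 1)}, ee (p.1 * α + p.2 * β)‖ ≤ (R.card : ℝ) - 2 := by
    refine (pair_triv _ _ _).trans ?_
    rw [card_sdiff_of_subset hsub, hcard2, Nat.cast_sub (by rw [← hcard2]; exact card_le_card hsub)]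
    norm_num
  have e2 : ‖ee (((x, y) : ℕ × ℕ).1 * α + ((x, y) : ℕ × ℕ).2 * β) + ee (((x, y + 1) : ℕ × ℕ).1 * α + ((x, y + 1) : ℕ × ℕ).2 * β)‖ ≤
      2 - dd β ^ 2 / 4 := by
    have : ee (((x, y + 1) : ℕ × ℕ).1 * α + ((x, y + 1) : ℕ × ℕ).2 * β) = ee (((x, y) : ℕ × ℕ).1 * α + ((x, y) : ℕ × ℕ).2 * β) * ee β := by
      rw [← ee_add]
      congr 1
      push_cast
      ring
    rw [this]
    have h3 : ∀ z w : ℂ, z + z * w = z * (1 + w) := fun z w => by ring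
    rw [h3, norm_mul, norm_ee, one_mul]
    exact norm_one_add_ee β
  have e3 : (R.card : ℝ) ≤ b ^ 2 := by
    have := card_le_card hR
    rw [card_product, card_range] at this
    have h4 : R.card ≤ b ^ 2 := by rw [sq]; exact this
    exact_mod_cast h4
  have e4 : (R.card : ℝ) * (dd β ^ 2 / (4 * b ^ 2)) ≤ dd β ^ 2 / 4 := by
    rw [mul_div_assoc', div_le_div_iff₀ (by positivity) (by norm_num)]
    have := sq_nonneg (dd β)
    nlinarith
  rw [mul_sub, mul_one]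
  linarith

/-- away from the integers -/
lemma dd_frac {q : ℕ} (hq : 1 ≤ q) {a : ℤ} (ha : ¬ (q : ℤ) ∣ a) : 4 / (q : ℝ) ≤ dd ((a : ℝ) / q) := by
  have hq0 : (0 : ℝ) < q := by exact_mod_cast hq
  have hqz : (0 : ℤ) < q := by exact_mod_cast hq
  have h1 : (a : ℝ) / q = ((a % (q : ℤ) : ℤ) : ℝ) / q + ((a / (q : ℤ) : ℤ) : ℝ) := by
    have : a = a % (q : ℤ) + q * (a / (q : ℤ)) := (Int.emod_add_mul_ediv a q).symm
    have h2 : (a : ℝ) = ((a % (q : ℤ) : ℤ) : ℝ) + q * ((a / (q : ℤ) : ℤ) : ℝ) := by exact_mod_cast this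
    nth_rewrite 1 [h2]
    field_simp
  rw [h1, dd_add_int]
  set r := a % (q : ℤ) with hr
  have hr1 : 1 ≤ r := by
    have h2 : 0 ≤ r := Int.emod_nonneg _ hqz.ne'
    have h3 : r ≠ 0 := by
      intro h
      exact ha (Int.dvd_of_emod_eq_zero h)
    omega
  have hr2 : r + 1 ≤ q := Int.emod_lt_of_pos _ hqz
  have hr1r : (1 : ℝ) ≤ r := by exact_mod_cast hr1
  have hr2r : (r : ℝ) + 1 ≤ q := by exact_mod_cast hr2
  have h4 : (r : ℝ) / q ≤ 1 := by rw [div_le_one hq0]; linarith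
  refine le_trans ?_ (dd_ge (t := (r : ℝ) / q) (by positivity) h4)
  have h5 : 1 / (q : ℝ) ≤ min ((r : ℝ) / q) (1 - r / q) := by
    rw [le_min_iff]
    constructor
    · exact div_le_div_of_nonneg_right hr1r hq0.le
    · rw [le_sub_iff_add_le, ← add_div, div_le_one hq0]; linarith
  calc 4 / (q : ℝ) = 4 * (1 / q) := by ring
    _ ≤ _ := by linarith

/-- the decay -/
theorem decay {b : ℕ} (hb : 2 ≤ b) (T : ℕ) (hT : 1 ≤ T) {ε : ℝ} (hε : 0 < ε) : ∃ M0 : ℕ, ∀ M : ℕ, M0 ≤ M →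
    ∀ R : ℕ → Finset (ℕ × ℕ), (∀ j, R j ⊆ range b ×ˢ range b) →
    ∀ st ⊆ range M, (∀ j ∈ st, ∃ x y, (x, y) ∈ R j ∧ (x, y + 1) ∈ R j) → M ≤ 2 * st.card →
    ∀ q : ℕ, 1 ≤ q → q ≤ T → (∀ E, ¬ q ∣ b ^ E) → ∀ c : ℤ, IsCoprime c (q : ℤ) → ∀ β : ℝ, |β| ≤ T →
    ‖∑ n ∈ SS b M R, ee (n * ((c : ℝ) / q + β / (b : ℝ) ^ (2 * M + 1)))‖ ≤ ε * (SS b M R).card := by
  have hbr : (2 : ℝ) ≤ b := by exact_mod_cast hb
  have hb0 : (0 : ℝ) < b := by linarith
  have hTr : (1 : ℝ) ≤ T := by exact_mod_cast hT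
  have hT0 : (0 : ℝ) < T := by linarith
  set ρ : ℝ := 1 - 1 / (T * b) ^ 2 with hρ
  have hTb : (1 : ℝ) < T * b := by nlinarith
  have hρ1 : ρ < 1 := by
    rw [hρ]; have : (0 : ℝ) < 1 / (T * b) ^ 2 := by positivity
    linarith
  have hρ0 : 0 ≤ ρ := by
    rw [hρ, sub_nonneg, div_le_one (by positivity)]
    nlinarith
  obtain ⟨n₀, hn₀⟩ := exists_pow_lt_of_lt_one hε hρ1
  set j₀ : ℕ := 4 * T * T with hj₀
  refine ⟨2 * (n₀ + j₀), fun M hM R hR st hstM hstd hst q hq hqT hqb c hc β hβ => ?_⟩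
  classical
  set J := st.filter fun j => j₀ ≤ j with hJ
  have hq0 : (0 : ℝ) < q := by exact_mod_cast hq
  have hqTr : (q : ℝ) ≤ T := by exact_mod_cast hqT
  have hJc : n₀ ≤ J.card := by
    have h1 : st.card ≤ J.card + j₀ := by
      have h2 : st ⊆ J ∪ range j₀ := by
        intro j hj
        rw [mem_union, mem_range, hJ, mem_filter]
        rcases lt_or_ge j j₀ with h | h
        · right; exact h
        · left; exact ⟨hj, h⟩
      refine (card_le_card h2).trans ((card_union_le _ _).trans ?_)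
      rw [card_range]
    omega
  rw [SS_four M R hR, norm_mul, norm_prod, SS_card M R hR]
  have h1 : ‖∑ d ∈ range b, ee (d * ((b : ℝ) ^ M * ((c : ℝ) / q + β / (b : ℝ) ^ (2 * M + 1))))‖ ≤ b := by
    refine (norm_sum_le _ _).trans ?_
    simp [norm_ee]
  have h2 : ∏ j ∈ range M, ‖∑ p ∈ R j, ee (p.1 * ((b : ℝ) ^ j * ((c : ℝ) / q + β / (b : ℝ) ^ (2 * M + 1))) +
      p.2 * ((b : ℝ) ^ (2 * M - j) * ((c : ℝ) / q + β / (b : ℝ) ^ (2 * M + 1))))‖ ≤
      ∏ j ∈ range M, (((R j).card : ℝ) * if j ∈ J then ρ else 1) := by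
    refine prod_le_prod (fun j _ => norm_nonneg _) fun j hj => ?_
    rw [mem_range] at hj
    split_ifs with hjJ
    · rw [hJ, mem_filter] at hjJ
      obtain ⟨hjst, hjj⟩ := hjJ
      obtain ⟨x, y, hx1, hx2⟩ := hstd j hjst
      refine (pair_dec (hR j) hx1 hx2 _ _).trans ?_
      apply mul_le_mul_of_nonneg_left _ (Nat.cast_nonneg _)
      -- the phase
      have e1 : (b : ℝ) ^ (2 * M - j) * ((c : ℝ) / q + β / (b : ℝ) ^ (2 * M + 1)) =
          (((b : ℤ) ^ (2 * M - j) * c : ℤ) : ℝ) / q + β / (b : ℝ) ^ (j + 1) := by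
        have : (b : ℝ) ^ (2 * M + 1) = (b : ℝ) ^ (2 * M - j) * (b : ℝ) ^ (j + 1) := by
          rw [← pow_add]; congr 1; omega
        rw [this]; push_cast; field_simp
      rw [e1]
      have e2 : ¬ (q : ℤ) ∣ ((b : ℤ) ^ (2 * M - j) * c : ℤ) := by
        intro h
        have h3 : (q : ℤ) ∣ (b : ℤ) ^ (2 * M - j) := hc.symm.dvd_of_dvd_mul_right h
        exact hqb (2 * M - j) (by exact_mod_cast h3)
      have e3 := dd_frac hq e2
      have e4 : 2 * Real.pi * |β / (b : ℝ) ^ (j + 1)| ≤ 2 / q := by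
        rw [abs_div, abs_of_pos (by positivity : (0 : ℝ) < (b : ℝ) ^ (j + 1))]
        have h3 : (j₀ : ℝ) ≤ (b : ℝ) ^ (j + 1) := by
          have h4 : j + 1 < 2 ^ (j + 1) := Nat.lt_two_pow_self
          have h5 : 2 ^ (j + 1) ≤ b ^ (j + 1) := Nat.pow_le_pow_left hb _
          have h6 : j₀ ≤ b ^ (j + 1) := by omega
          exact_mod_cast h6
        have h4 : (j₀ : ℝ) = 4 * T * T := by rw [hj₀]; push_cast; ring
        rw [h4] at h3
        have h5 := Real.pi_lt_d2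
        rw [mul_div_assoc', div_le_div_iff₀ (by positivity) hq0]
        have h6 : |β| * q ≤ T * T := mul_le_mul hβ hqTr hq0.le hT0.le
        have h7 : 0 ≤ |β| * q := by positivity
        nlinarith [Real.pi_pos]
      have e5 := dd_add_ge ((((b : ℤ) ^ (2 * M - j) * c : ℤ) : ℝ) / q) (β / (b : ℝ) ^ (j + 1))
      have e6 : 2 / (T : ℝ) ≤ dd ((((b : ℤ) ^ (2 * M - j) * c : ℤ) : ℝ) / q + β / (b : ℝ) ^ (j + 1)) := by
        have h3 : (2 : ℝ) / T ≤ 2 / q := div_le_div_of_nonneg_left (by norm_num) hq0 hqTr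
        have h4 : (4 : ℝ) / q = 2 / q + 2 / q := by ring
        linarith
      have e7 : (2 / (T : ℝ)) ^ 2 ≤ dd ((((b : ℤ) ^ (2 * M - j) * c : ℤ) : ℝ) / q + β / (b : ℝ) ^ (j + 1)) ^ 2 :=
        pow_le_pow_left₀ (by positivity) e6 2
      rw [hρ]
      have e8 : 1 / ((T : ℝ) * b) ^ 2 = (2 / (T : ℝ)) ^ 2 / (4 * b ^ 2) := by
        field_simp; norm_num
      rw [e8]
      have := div_le_div_of_nonneg_right e7 (show (0 : ℝ) ≤ 4 * b ^ 2 by positivity)
      linarith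
    · rw [mul_one]
      exact pair_triv _ _ _
  have h3 : ∏ j ∈ range M, (((R j).card : ℝ) * if j ∈ J then ρ else 1) =
      (∏ j ∈ range M, ((R j).card : ℝ)) * ρ ^ J.card := by
    rw [prod_mul_distrib]
    congr 1
    rw [← prod_filter, ← prod_const]
    congr 1
    ext j
    rw [mem_filter]
    refine ⟨fun h => h.2, fun h => ⟨?_, h⟩⟩
    rw [hJ, mem_filter] at h
    exact hstM h.1
  rw [h3] at h2
  have h4 : ρ ^ J.card ≤ ε := (pow_le_pow_of_le_one hρ0 hρ1.le hJc).trans hn₀.le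
  have h5 : 0 ≤ ∏ j ∈ range M, ‖∑ p ∈ R j, ee (p.1 * ((b : ℝ) ^ j * ((c : ℝ) / q + β / (b : ℝ) ^ (2 * M + 1))) +
      p.2 * ((b : ℝ) ^ (2 * M - j) * ((c : ℝ) / q + β / (b : ℝ) ^ (2 * M + 1))))‖ := prod_nonneg fun j _ => norm_nonneg _
  have h6 : 0 ≤ ∏ j ∈ range M, ((R j).card : ℝ) := prod_nonneg fun j _ => Nat.cast_nonneg _
  refine (mul_le_mul h1 (h2.trans (mul_le_mul_of_nonneg_left h4 h6)) h5 hb0.le).trans (le_of_eq ?_)
  push_cast
  ring

end Pool.Agent.Zk46.PP
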