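import Mathlib

set_option autoImplicit false

/-! The number of integers in a fibre: few integers `k < b^(2M+1)` have the same digits in the outer
windows and in the central window, if `k / b^(2M+1)` is close to a fraction of the given type. -/

namespace Pool.Agent.Zk46.PP
open Finset

lemma close_int {y E : ℝ} {z D : ℤ} {q : ℕ} (hq : 0 < q) (hy : y = (D : ℝ) / q) (h : |y - z| ≤ E)
    (hE : E * q < 1) : (q : ℤ) ∣ D := by
  have hq0 : (0 : ℝ) < q := by exact_mod_cast hq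
  have h1 : |(D : ℝ) - z * q| < 1 := by
    have h2 : (D : ℝ) - z * q = (y - z) * q := by
      rw [hy]; field_simp
    rw [h2, abs_mul, abs_of_pos hq0]
    exact lt_of_le_of_lt (mul_le_mul_of_nonneg_right h hq0.le) hE
  have h3 : |D - z * q| < 1 := by exact_mod_cast h1
  have h4 : D - z * q = 0 := Int.abs_lt_one_iff.1 h3
  exact ⟨z, by linarith⟩

/-- the difference of two fractions of the same type with the same central window is a multiple of `1/t` -/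
lemma step1 {b M u : ℕ} (hb : 4 ≤ b) (huM : u ≤ M) {t : ℕ} (ht : 0 < t) {k k' : ℕ} {A A' : ℤ} {Q Q' : ℕ}
    (hQ : 0 < Q) (hQ' : 0 < Q') (ht1 : Nat.gcd Q (b ^ (M - u)) = t) (ht2 : Nat.gcd Q' (b ^ (M - u)) = t)
    (hq : Q < t * b ^ u) (hq' : Q' < t * b ^ u)
    (hB : |(k : ℝ) - (b : ℝ) ^ (2 * M + 1) * ((A : ℝ) / Q)| ≤ (b : ℝ) ^ (M - u))
    (hB' : |(k' : ℝ) - (b : ℝ) ^ (2 * M + 1) * ((A' : ℝ) / Q')| ≤ (b : ℝ) ^ (M - u))
    (h3 : (k / b ^ (M - u)) % b ^ (2 * u + 1) = (k' / b ^ (M - u)) % b ^ (2 * u + 1)) :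
    ∃ n : ℤ, (t : ℝ) * ((A : ℝ) / Q - (A' : ℝ) / Q') = n := by
  have hb0 : (0 : ℝ) < b := by exact_mod_cast (by omega : 0 < b)
  set G : ℕ := b ^ (M - u) with hG
  set P : ℕ := b ^ (2 * u + 1) with hP
  have hGpos : 0 < G := by positivity
  have hPpos : 0 < P := by positivity
  have hGr : (0 : ℝ) < G := by exact_mod_cast hGpos
  have hPr : (0 : ℝ) < P := by exact_mod_cast hPpos
  have hN : (b : ℝ) ^ (2 * M + 1) = G * (G * P) := by
    rw [hG, hP]; push_cast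
    rw [← pow_add, ← pow_add]
    congr 1; omega
  have hGc : (b : ℝ) ^ (M - u) = G := by rw [hG]; push_cast; rfl
  rw [hN, hGc] at hB hB'
  -- the reduced data
  obtain ⟨q, hqe⟩ : t ∣ Q := by rw [← ht1]; exact Nat.gcd_dvd_left _ _
  obtain ⟨q', hqe'⟩ : t ∣ Q' := by rw [← ht2]; exact Nat.gcd_dvd_left _ _
  obtain ⟨g, hge⟩ : t ∣ G := by rw [← ht1]; exact Nat.gcd_dvd_right _ _
  have hc1 : Nat.Coprime q g := by
    have := Nat.coprime_div_gcd_div_gcd (m := Q) (n := G) (by rw [ht1]; exact ht)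
    rwa [ht1, hqe, hge, Nat.mul_div_cancel_left _ ht, Nat.mul_div_cancel_left _ ht] at this
  have hc2 : Nat.Coprime q' g := by
    have := Nat.coprime_div_gcd_div_gcd (m := Q') (n := G) (by rw [ht2]; exact ht)
    rwa [ht2, hqe', hge, Nat.mul_div_cancel_left _ ht, Nat.mul_div_cancel_left _ ht] at this
  have hq0 : 0 < q := by
    rcases Nat.eq_zero_or_pos q with h | h
    · subst h; omega
    · exact h
  have hq0' : 0 < q' := by
    rcases Nat.eq_zero_or_pos q' with h | h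
    · subst h; omega
    · exact h
  have hqr : (0 : ℝ) < q := by exact_mod_cast hq0
  have hqr' : (0 : ℝ) < q' := by exact_mod_cast hq0'
  have htr : (0 : ℝ) < t := by exact_mod_cast ht
  have hqb : q < b ^ u := by
    rw [hqe] at hq; exact lt_of_mul_lt_mul_left hq (Nat.zero_le _)
  have hqb' : q' < b ^ u := by
    rw [hqe'] at hq'; exact lt_of_mul_lt_mul_left hq' (Nat.zero_le _)
  set D : ℤ := A * q' - A' * q with hD
  have hx : (A : ℝ) / Q - (A' : ℝ) / Q' = (D : ℝ) / (t * (q * q')) := by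
    rw [hqe, hqe', hD]; push_cast; field_simp
  -- closeness
  have hw : ∀ k : ℕ, (k : ℝ) / (G * P) = ((k / G / P : ℕ) : ℝ) + (((k / G % P : ℕ) : ℝ) / P) + ((k % G : ℕ) : ℝ) / (G * P) := by
    intro k
    have e1 : k = G * (P * (k / G / P) + k / G % P) + k % G := by
      rw [Nat.div_add_mod (k / G) P, Nat.div_add_mod]
    have e2 : (k : ℝ) = G * (P * ((k / G / P : ℕ) : ℝ) + ((k / G % P : ℕ) : ℝ)) + ((k % G : ℕ) : ℝ) := by
      exact_mod_cast e1
    nth_rewrite 1 [e2]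
    field_simp
  obtain ⟨z, hz⟩ : ∃ z : ℤ, (z : ℝ) = ((k / G / P : ℕ) : ℝ) - ((k' / G / P : ℕ) : ℝ) :=
    ⟨((k / G / P : ℕ) : ℤ) - ((k' / G / P : ℕ) : ℤ), by
      rw [Int.cast_sub, Int.cast_natCast, Int.cast_natCast]⟩
  have hcl : |(G : ℝ) * ((A : ℝ) / Q - (A' : ℝ) / Q') - z| ≤ 3 / P := by
    have e1 : |(G : ℝ) * ((A : ℝ) / Q) - k / (G * P)| ≤ 1 / P := by
      have : (G : ℝ) * ((A : ℝ) / Q) - k / (G * P) = -((k - G * (G * P) * ((A : ℝ) / Q)) / (G * P)) := by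
        field_simp; ring
      rw [this, abs_neg, abs_div, abs_of_pos (by positivity : (0 : ℝ) < G * P), div_le_div_iff₀ (by positivity) hPr]
      nlinarith
    have e2 : |(G : ℝ) * ((A' : ℝ) / Q') - k' / (G * P)| ≤ 1 / P := by
      have : (G : ℝ) * ((A' : ℝ) / Q') - k' / (G * P) = -((k' - G * (G * P) * ((A' : ℝ) / Q')) / (G * P)) := by
        field_simp; ring
      rw [this, abs_neg, abs_div, abs_of_pos (by positivity : (0 : ℝ) < G * P), div_le_div_iff₀ (by positivity) hPr]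
      nlinarith
    have e3 : |(k : ℝ) / (G * P) - k' / (G * P) - z| ≤ 1 / P := by
      have : (k : ℝ) / (G * P) - k' / (G * P) - z = (((k % G : ℕ) : ℝ) - ((k' % G : ℕ) : ℝ)) / (G * P) := by
        rw [hw k, hw k', hz, h3]; ring
      rw [this, abs_div, abs_of_pos (by positivity : (0 : ℝ) < G * P), div_le_div_iff₀ (by positivity) hPr]
      have f1 : ((k % G : ℕ) : ℝ) ≤ G := by exact_mod_cast (Nat.mod_lt _ hGpos).le
      have f2 : ((k' % G : ℕ) : ℝ) ≤ G := by exact_mod_cast (Nat.mod_lt _ hGpos).le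
      have f3 : (0 : ℝ) ≤ ((k % G : ℕ) : ℝ) := Nat.cast_nonneg _
      have f4 : (0 : ℝ) ≤ ((k' % G : ℕ) : ℝ) := Nat.cast_nonneg _
      have f5 : |((k % G : ℕ) : ℝ) - ((k' % G : ℕ) : ℝ)| ≤ G := by
        rw [abs_le]; constructor <;> linarith
      nlinarith
    have e4 : (G : ℝ) * ((A : ℝ) / Q - (A' : ℝ) / Q') - z = ((G : ℝ) * ((A : ℝ) / Q) - k / (G * P)) -
        ((G : ℝ) * ((A' : ℝ) / Q') - k' / (G * P)) + ((k : ℝ) / (G * P) - k' / (G * P) - z) := by ring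
    rw [e4]
    refine (abs_add_le _ _).trans ?_
    have e5 := abs_sub ((G : ℝ) * ((A : ℝ) / Q) - k / (G * P)) ((G : ℝ) * ((A' : ℝ) / Q') - k' / (G * P))
    have e6 : (3 : ℝ) / P = 1 / P + 1 / P + 1 / P := by ring
    rw [e6]
    linarith
  have hy : (G : ℝ) * ((A : ℝ) / Q - (A' : ℝ) / Q') = ((g * D : ℤ) : ℝ) / ((q * q' : ℕ) : ℝ) := by
    rw [hx, hge]; push_cast; field_simp
  have hdvd := close_int (q := q * q') (Nat.mul_pos hq0 hq0') hy hcl (by
    have e1 : ((q * q' : ℕ) : ℝ) ≤ (b : ℝ) ^ (2 * u) := by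
      have : q * q' ≤ b ^ (2 * u) := by
        rw [two_mul, pow_add]; exact Nat.mul_le_mul hqb.le hqb'.le
      exact_mod_cast this
    have e2 : (P : ℝ) = b * (b : ℝ) ^ (2 * u) := by rw [hP]; push_cast; rw [pow_succ]; ring
    have e3 : (0 : ℝ) < (b : ℝ) ^ (2 * u) := by positivity
    have hb4 : (4 : ℝ) ≤ b := by exact_mod_cast hb
    rw [div_mul_eq_mul_div, div_lt_one hPr, e2]
    nlinarith)
  have hcop : IsCoprime ((q * q' : ℕ) : ℤ) (g : ℤ) := by
    rw [Nat.isCoprime_iff_coprime]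
    exact Nat.Coprime.mul_left hc1 hc2
  obtain ⟨n, hn⟩ := hcop.dvd_of_dvd_mul_left hdvd
  refine ⟨n, ?_⟩
  rw [hx, hn]
  push_cast
  field_simp

/-- few integers in a fibre -/
lemma fiber_card {b M u m : ℕ} (hb : 4 ≤ b) (hum : u + m ≤ M) {t : ℕ} (ht : 0 < t) (htm : t ≤ b ^ m)
    (A : ℕ → ℤ) (Q : ℕ → ℕ) (F : Finset ℕ) (hQ : ∀ k ∈ F, 0 < Q k)
    (hgcd : ∀ k ∈ F, Nat.gcd (Q k) (b ^ (M - u)) = t) (hq : ∀ k ∈ F, Q k < t * b ^ u)
    (hB : ∀ k ∈ F, |(k : ℝ) - (b : ℝ) ^ (2 * M + 1) * ((A k : ℝ) / Q k)| ≤ (b : ℝ) ^ m)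
    (h1 : ∀ k ∈ F, ∀ k' ∈ F, k % b ^ m = k' % b ^ m)
    (h2 : ∀ k ∈ F, ∀ k' ∈ F, k / b ^ (2 * M + 1 - m) = k' / b ^ (2 * M + 1 - m))
    (h3 : ∀ k ∈ F, ∀ k' ∈ F, (k / b ^ (M - u)) % b ^ (2 * u + 1) = (k' / b ^ (M - u)) % b ^ (2 * u + 1)) :
    F.card ≤ 42 := by
  rcases F.eq_empty_or_nonempty with hF | ⟨k₀, hk₀⟩
  · rw [hF]; simp
  have hb0 : (0 : ℝ) < b := by exact_mod_cast (by omega : 0 < b)
  have hb1 : (1 : ℝ) ≤ b := by exact_mod_cast (by omega : 1 ≤ b)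
  set N : ℝ := (b : ℝ) ^ (2 * M + 1) with hN
  have hN0 : 0 < N := by positivity
  set W : ℝ := (b : ℝ) ^ m with hW
  have hW0 : 0 < W := by positivity
  have htr : (0 : ℝ) < t := by exact_mod_cast ht
  have htW : (t : ℝ) ≤ W := by rw [hW]; exact_mod_cast htm
  have hWM : W ≤ (b : ℝ) ^ (M - u) := pow_le_pow_right₀ hb1 (by omega)
  have hWN : W * W ≤ N := by
    rw [hW, hN, ← pow_add]; exact pow_le_pow_right₀ hb1 (by omega)
  set x : ℕ → ℝ := fun k => (A k : ℝ) / Q k with hx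
  set Y : ℕ → ℝ := fun k => N * (t * (x k - x k₀)) / (t * W) with hY
  have hn : ∀ k ∈ F, ∃ n : ℤ, (t : ℝ) * (x k - x k₀) = n := fun k hk =>
    step1 hb (by omega) ht (hQ k hk) (hQ k₀ hk₀) (hgcd k hk) (hgcd k₀ hk₀) (hq k hk) (hq k₀ hk₀)
      ((hB k hk).trans hWM) ((hB k₀ hk₀).trans hWM) (h3 k hk k₀ hk₀)
  have hdiff : ∀ k ∈ F, |(k : ℝ) - k₀ - N * (x k - x k₀)| ≤ 2 * W := by
    intro k hk
    have e1 := hB k hk
    have e2 := hB k₀ hk₀
    have e3 : (k : ℝ) - k₀ - N * (x k - x k₀) = (k - N * ((A k : ℝ) / Q k)) - (k₀ - N * ((A k₀ : ℝ) / Q k₀)) := by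
      rw [hx]; ring
    rw [e3]
    refine (abs_sub _ _).trans ?_
    linarith
  have hsmall : ∀ k ∈ F, |(t : ℝ) * (x k - x k₀)| ≤ 3 := by
    intro k hk
    have e1 := hdiff k hk
    have e2 : |(k : ℝ) - k₀| ≤ (b : ℝ) ^ (2 * M + 1 - m) := by
      have e3 := h2 k hk k₀ hk₀
      have hpos : 0 < b ^ (2 * M + 1 - m) := by positivity
      have f1 := Nat.div_add_mod k (b ^ (2 * M + 1 - m))
      have f2 := Nat.div_add_mod k₀ (b ^ (2 * M + 1 - m))
      have f3 := Nat.mod_lt k hpos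
      have f4 := Nat.mod_lt k₀ hpos
      rw [e3] at f1
      generalize b ^ (2 * M + 1 - m) * (k₀ / b ^ (2 * M + 1 - m)) = c at f1 f2
      generalize k % b ^ (2 * M + 1 - m) = r at f1 f3
      generalize k₀ % b ^ (2 * M + 1 - m) = r₀ at f2 f4
      have g1 : k ≤ k₀ + b ^ (2 * M + 1 - m) := by omega
      have g2 : k₀ ≤ k + b ^ (2 * M + 1 - m) := by omega
      have g1r : (k : ℝ) ≤ k₀ + (b : ℝ) ^ (2 * M + 1 - m) := by exact_mod_cast g1
      have g2r : (k₀ : ℝ) ≤ k + (b : ℝ) ^ (2 * M + 1 - m) := by exact_mod_cast g2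
      rw [abs_le]; constructor <;> linarith
    have e3 : W * (b : ℝ) ^ (2 * M + 1 - m) = N := by
      rw [hW, hN, ← pow_add]; congr 1; omega
    have e4 : |N * (x k - x k₀)| ≤ (b : ℝ) ^ (2 * M + 1 - m) + 2 * W := by
      have : N * (x k - x k₀) = ((k : ℝ) - k₀) - ((k : ℝ) - k₀ - N * (x k - x k₀)) := by ring
      rw [this]
      refine (abs_sub _ _).trans ?_
      linarith
    have e5 : N * |(t : ℝ) * (x k - x k₀)| = t * |N * (x k - x k₀)| := by
      rw [abs_mul, abs_mul, abs_of_pos htr, abs_of_pos hN0]; ring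
    have e6 : N * |(t : ℝ) * (x k - x k₀)| ≤ N * 3 := by
      rw [e5]
      calc (t : ℝ) * |N * (x k - x k₀)| ≤ W * ((b : ℝ) ^ (2 * M + 1 - m) + 2 * W) :=
            mul_le_mul htW e4 (abs_nonneg _) hW0.le
        _ = N + 2 * (W * W) := by rw [mul_add, e3]; ring
        _ ≤ N * 3 := by linarith
    exact le_of_mul_le_mul_left e6 hN0
  set φ : ℕ → ℤ × ℤ := fun k => (round ((t : ℝ) * (x k - x k₀)), ((k : ℤ) - k₀) / (b : ℤ) ^ m -
    ⌊N * (round ((t : ℝ) * (x k - x k₀)) : ℝ) / (t * W)⌋) with hφ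
  have hdv : ∀ k ∈ F, ((b : ℤ) ^ m) ∣ ((k : ℤ) - k₀) := by
    intro k hk
    have e1 := h1 k hk k₀ hk₀
    have e2 : (k : ℤ) ≡ (k₀ : ℤ) [ZMOD ((b ^ m : ℕ) : ℤ)] := (Int.natCast_modEq_iff).2 e1
    have e3 := e2.symm.dvd
    exact_mod_cast e3
  have hbm : ((b : ℤ) ^ m) ≠ 0 := by positivity
  have hmaps : ∀ k ∈ F, φ k ∈ (Icc (-3 : ℤ) 3) ×ˢ (Icc (-2 : ℤ) 3) := by
    intro k hk
    obtain ⟨n, hn'⟩ := hn k hk
    have hr : round ((t : ℝ) * (x k - x k₀)) = n := by rw [hn']; exact round_intCast n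
    rw [hφ]
    simp only [mem_product, mem_Icc]
    rw [hr]
    have e1 := hsmall k hk
    rw [hn'] at e1
    have e2 : |n| ≤ 3 := by exact_mod_cast e1
    refine ⟨abs_le.1 e2, ?_⟩
    obtain ⟨r, hr2⟩ := hdv k hk
    rw [hr2, Int.mul_ediv_cancel_left _ hbm]
    have e3 := hdiff k hk
    have e4 : N * (x k - x k₀) = (N * (n : ℝ) / (t * W)) * W := by
      rw [← hn']; field_simp
    have e5 : (k : ℝ) - k₀ = W * r := by
      have : ((k : ℤ) : ℝ) - ((k₀ : ℤ) : ℝ) = (b : ℝ) ^ m * r := by exact_mod_cast hr2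
      simpa using this
    rw [e4, e5] at e3
    set y : ℝ := N * (n : ℝ) / (t * W) with hy
    have e6 : |(r : ℝ) - y| ≤ 2 := by
      have : W * r - y * W = (r - y) * W := by ring
      rw [this, abs_mul, abs_of_pos hW0] at e3
      exact le_of_mul_le_mul_right e3 hW0
    have e7 := abs_le.1 e6
    have e8 := Int.floor_le y
    have e9 := Int.lt_floor_add_one y
    constructor
    · have : (-2 : ℝ) ≤ (r : ℝ) - ⌊y⌋ := by linarith [e7.1]
      exact_mod_cast this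
    · have : (r : ℝ) - ⌊y⌋ < 4 := by linarith [e7.2]
      have : r - ⌊y⌋ < 4 := by exact_mod_cast this
      omega
  have hinj : Set.InjOn φ (F : Set ℕ) := by
    intro k hk k' hk' he
    rw [Finset.mem_coe] at hk hk'
    rw [hφ] at he
    simp only [Prod.mk.injEq] at he
    obtain ⟨he1, he2⟩ := he
    rw [he1] at he2
    have he3 : ((k : ℤ) - k₀) / (b : ℤ) ^ m = ((k' : ℤ) - k₀) / (b : ℤ) ^ m := by linarith
    obtain ⟨r, hr⟩ := hdv k hk
    obtain ⟨r', hr'⟩ := hdv k' hk'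
    rw [hr, hr', Int.mul_ediv_cancel_left _ hbm, Int.mul_ediv_cancel_left _ hbm] at he3
    rw [he3] at hr
    have : (k : ℤ) = k' := by linarith
    exact_mod_cast this
  have := Finset.card_le_card_of_injOn φ hmaps hinj
  refine this.trans ?_
  rw [card_product]
  simp

end Pool.Agent.Zk46.PP
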