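import Pool.Agent.Zk46.PP.Key
import Pool.Agent.H807R2.Dav1

set_option autoImplicit false

/-! The Fourier transform of the sets defined by conditions on the pairs of mirrored digits. -/

namespace Pool.Agent.Zk46.PP
open Finset
open Pool.Agent.H807R2.Dav

/-- the integers with `2M+1` digits in base `b` (leading zeros allowed) whose mirrored pairs of digits are
in the sets `R j` -/
def SS (b M : ℕ) (R : ℕ → Finset (ℕ × ℕ)) : Finset ℕ :=
  (range (b ^ (2 * M + 1))).filter fun n => ∀ j < M, (dg b n j, dg b n (2 * M - j)) ∈ R j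

lemma dg_zero {b x m : ℕ} (hx : x < b) : dg b (x + b * m) 0 = x := by
  unfold dg
  rw [pow_zero, Nat.div_one, Nat.add_mul_mod_self_left, Nat.mod_eq_of_lt hx]

lemma dg_succ {b x m : ℕ} (hx : x < b) (j : ℕ) : dg b (x + b * m) (j + 1) = dg b m j := by
  unfold dg
  have hb : 0 < b := by omega
  rw [pow_succ', ← Nat.div_div_eq_div_mul, Nat.add_mul_div_left _ _ hb, Nat.div_eq_of_lt hx, zero_add]

lemma dg_low {b n y r j : ℕ} (hb : 0 < b) (hj : j < r) : dg b (n + b ^ r * y) j = dg b n j := by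
  unfold dg
  have h1 : b ^ r = b ^ j * b ^ (r - j) := by rw [← pow_add]; congr 1; omega
  rw [h1, mul_assoc, Nat.add_mul_div_left _ _ (by positivity)]
  have h2 : b ^ (r - j) = b * b ^ (r - j - 1) := by rw [← pow_succ']; congr 1; omega
  rw [h2, mul_assoc, Nat.add_mul_mod_self_left]

lemma dg_top {b n y r : ℕ} (hn : n < b ^ r) (hy : y < b) : dg b (n + b ^ r * y) r = y := by
  unfold dg
  have hb : 0 < b := by omega
  rw [Nat.add_mul_div_left _ _ (by positivity), Nat.div_eq_of_lt hn, zero_add, Nat.mod_eq_of_lt hy]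

/-- recursion for sums over `SS` -/
lemma SS_succ {b M : ℕ} {R : ℕ → Finset (ℕ × ℕ)} (hR : ∀ j, R j ⊆ range b ×ˢ range b) {α : Type*} [AddCommMonoid α]
    (F : ℕ → α) : ∑ n ∈ SS b (M + 1) R, F n =
      ∑ p ∈ R 0, ∑ n ∈ SS b M (fun j => R (j + 1)), F (p.1 + b * (n + b ^ (2 * M + 1) * p.2)) := by
  rw [← sum_product' (R 0) (SS b M fun j => R (j + 1)) (fun p n => F (p.1 + b * (n + b ^ (2 * M + 1) * p.2)))]
  symm
  refine sum_nbij' (fun x => x.1.1 + b * (x.2 + b ^ (2 * M + 1) * x.1.2))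
    (fun n => ((dg b n 0, dg b n (2 * M + 2)), n / b % b ^ (2 * M + 1))) ?_ ?_ ?_ ?_ ?_
  · rintro ⟨⟨x, y⟩, n⟩ hx
    rw [mem_product] at hx
    obtain ⟨h1, h2⟩ := hx
    simp only at h1 h2 ⊢
    have h3 := hR 0 h1
    rw [mem_product, mem_range, mem_range] at h3
    unfold SS at h2 ⊢
    rw [mem_filter, mem_range] at h2 ⊢
    obtain ⟨h4, h5⟩ := h2
    simp only at h3
    have hb : 0 < b := by omega
    refine ⟨?_, ?_⟩
    · have e1 : n + b ^ (2 * M + 1) * y < b ^ (2 * M + 2) := by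
        have : b ^ (2 * M + 1) * (y + 1) ≤ b ^ (2 * M + 1) * b := Nat.mul_le_mul_left _ (by omega)
        rw [← pow_succ] at this
        have e0 : 2 * M + 1 + 1 = 2 * M + 2 := rfl
        rw [mul_add, mul_one, e0] at this
        omega
      have e2 : b * (n + b ^ (2 * M + 1) * y + 1) ≤ b * b ^ (2 * M + 2) := Nat.mul_le_mul_left _ (by omega)
      rw [← pow_succ'] at e2
      have e3 : 2 * (M + 1) + 1 = 2 * M + 2 + 1 := by ring
      rw [e3]
      rw [mul_add, mul_one] at e2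
      omega
    · intro j hj
      rcases Nat.eq_zero_or_pos j with h0 | h0
      · subst h0
        have e1 : 2 * (M + 1) - 0 = (2 * M + 1) + 1 := by omega
        rw [e1, dg_zero h3.1, dg_succ h3.1, dg_top h4 h3.2]
        exact h1
      · obtain ⟨i, rfl⟩ : ∃ i, j = i + 1 := ⟨j - 1, by omega⟩
        have e1 : 2 * (M + 1) - (i + 1) = (2 * M - i) + 1 := by omega
        rw [e1, dg_succ h3.1, dg_succ h3.1, dg_low hb (by omega), dg_low hb (by omega)]
        exact h5 i (by omega)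
  · intro n hn
    unfold SS at hn
    rw [mem_filter, mem_range] at hn
    obtain ⟨h1, h2⟩ := hn
    have h3 := h2 0 (by omega)
    have hp := hR 0 h3
    rw [mem_product, mem_range, mem_range] at hp
    simp only at hp
    have hb : 0 < b := by omega
    rw [mem_product]
    refine ⟨h3, ?_⟩
    unfold SS
    rw [mem_filter, mem_range]
    refine ⟨Nat.mod_lt _ (by positivity), fun j hj => ?_⟩
    have key : ∀ i, i < 2 * M + 1 → dg b (n / b % b ^ (2 * M + 1)) i = dg b n (i + 1) := by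
      intro i hi
      have e1 : n / b = n / b % b ^ (2 * M + 1) + b ^ (2 * M + 1) * (n / b / b ^ (2 * M + 1)) :=
        (Nat.mod_add_div _ _).symm
      have e2 : dg b (n / b) i = dg b (n / b % b ^ (2 * M + 1)) i := by
        conv_lhs => rw [e1]
        exact dg_low hb hi
      rw [← e2]
      unfold dg
      rw [Nat.div_div_eq_div_mul, ← pow_succ']
    rw [key j (by omega), key (2 * M - j) (by omega)]
    have h4 := h2 (j + 1) (by omega)
    have e1 : 2 * (M + 1) - (j + 1) = 2 * M - j + 1 := by omega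
    rwa [e1] at h4
  · rintro ⟨⟨x, y⟩, n⟩ hx
    rw [mem_product] at hx
    obtain ⟨h1, h2⟩ := hx
    simp only at h1 h2 ⊢
    have h3 := hR 0 h1
    rw [mem_product, mem_range, mem_range] at h3
    simp only at h3
    unfold SS at h2
    rw [mem_filter, mem_range] at h2
    have hb : 0 < b := by omega
    have e1 : dg b (x + b * (n + b ^ (2 * M + 1) * y)) (2 * M + 2) = y := by
      have : 2 * M + 2 = (2 * M + 1) + 1 := rfl
      rw [this, dg_succ h3.1, dg_top h2.1 h3.2]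
    have e2 : (x + b * (n + b ^ (2 * M + 1) * y)) / b % b ^ (2 * M + 1) = n := by
      rw [Nat.add_mul_div_left _ _ hb, Nat.div_eq_of_lt h3.1, zero_add, Nat.add_mul_mod_self_left,
        Nat.mod_eq_of_lt h2.1]
    rw [dg_zero h3.1, e1, e2]
  · intro n hn
    unfold SS at hn
    rw [mem_filter, mem_range] at hn
    obtain ⟨h1, h2⟩ := hn
    have h3 := h2 0 (by omega)
    have hp := hR 0 h3
    rw [mem_product, mem_range, mem_range] at hp
    simp only at hp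
    have hb : 0 < b := by omega
    simp only
    have e1 : dg b n (2 * M + 2) = n / b / b ^ (2 * M + 1) := by
      unfold dg
      rw [Nat.div_div_eq_div_mul, ← pow_succ']
      apply Nat.mod_eq_of_lt
      rw [Nat.div_lt_iff_lt_mul (by positivity), ← pow_succ']
      exact h1
    rw [e1, Nat.mod_add_div]
    unfold dg
    rw [pow_zero, Nat.div_one, Nat.mod_add_div]
  · rintro ⟨⟨x, y⟩, n⟩ _
    rfl

/-- the product formula -/
lemma SS_four {b : ℕ} (M : ℕ) : ∀ (R : ℕ → Finset (ℕ × ℕ)), (∀ j, R j ⊆ range b ×ˢ range b) → ∀ θ : ℝ,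
    ∑ n ∈ SS b M R, ee (n * θ) = (∑ d ∈ range b, ee (d * ((b : ℝ) ^ M * θ))) *
      ∏ j ∈ range M, ∑ p ∈ R j, ee (p.1 * ((b : ℝ) ^ j * θ) + p.2 * ((b : ℝ) ^ (2 * M - j) * θ)) := by
  induction M with
  | zero =>
    intro R _ θ
    simp [SS]
  | succ M ih =>
    intro R hR θ
    rw [SS_succ hR]
    have h1 : ∀ p ∈ R 0, ∑ n ∈ SS b M (fun j => R (j + 1)), ee (((p.1 + b * (n + b ^ (2 * M + 1) * p.2) : ℕ) : ℝ) * θ) =
        ee (p.1 * ((b : ℝ) ^ 0 * θ) + p.2 * ((b : ℝ) ^ (2 * (M + 1) - 0) * θ)) *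
          ∑ n ∈ SS b M (fun j => R (j + 1)), ee (n * ((b : ℝ) * θ)) := by
      intro p _
      rw [mul_sum]
      refine sum_congr rfl fun n _ => ?_
      rw [← ee_add]
      congr 1
      push_cast
      have : (b : ℝ) ^ (2 * (M + 1) - 0) = (b : ℝ) * (b : ℝ) ^ (2 * M + 1) := by
        rw [← pow_succ']; congr 1
      rw [this]
      ring
    rw [sum_congr rfl h1, ← sum_mul, ih (fun j => R (j + 1)) (fun j => hR _) ((b : ℝ) * θ), prod_range_succ']
    have h2 : ∀ j ∈ range M, ∑ p ∈ R (j + 1), ee (p.1 * ((b : ℝ) ^ j * (b * θ)) + p.2 * ((b : ℝ) ^ (2 * M - j) * (b * θ))) =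
        ∑ p ∈ R (j + 1), ee (p.1 * ((b : ℝ) ^ (j + 1) * θ) + p.2 * ((b : ℝ) ^ (2 * (M + 1) - (j + 1)) * θ)) := by
      intro j hj
      rw [mem_range] at hj
      refine sum_congr rfl fun p _ => ?_
      have : (b : ℝ) ^ (2 * (M + 1) - (j + 1)) = (b : ℝ) ^ (2 * M - j) * b := by
        rw [← pow_succ]; congr 1; omega
      rw [this]
      congr 1
      ring
    rw [prod_congr rfl h2]
    have h3 : ∑ d ∈ range b, ee (d * ((b : ℝ) ^ M * (b * θ))) = ∑ d ∈ range b, ee (d * ((b : ℝ) ^ (M + 1) * θ)) := by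
      refine sum_congr rfl fun d _ => ?_
      congr 1
      ring
    rw [h3]
    ring

lemma SS_card {b : ℕ} (M : ℕ) (R : ℕ → Finset (ℕ × ℕ)) (hR : ∀ j, R j ⊆ range b ×ˢ range b) :
    (SS b M R).card = b * ∏ j ∈ range M, (R j).card := by
  have h := SS_four M R hR 0
  simp only [mul_zero, add_zero, ee_zero, sum_const, nsmul_eq_mul, mul_one, card_range] at h
  exact_mod_cast h

/-- the position of the digits -/
lemma cell {b : ℕ} (hb : 0 < b) (k i : ℕ) : ∃ z : ℤ, (dg b k i : ℝ) / b ≤ (k : ℝ) / (b : ℝ) ^ (i + 1) - z ∧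
    (k : ℝ) / (b : ℝ) ^ (i + 1) - z < ((dg b k i : ℝ) + 1) / b := by
  have hbr : (0 : ℝ) < b := by exact_mod_cast hb
  refine ⟨((k / b ^ i / b : ℕ) : ℤ), ?_⟩
  have h1 : k = b ^ i * (b * (k / b ^ i / b) + dg b k i) + k % b ^ i := by
    unfold dg
    rw [Nat.div_add_mod, Nat.div_add_mod]
  have h2 : (k : ℝ) = (b : ℝ) ^ i * (b * ((k / b ^ i / b : ℕ) : ℝ) + dg b k i) + ((k % b ^ i : ℕ) : ℝ) := by
    exact_mod_cast h1
  have h3 : (k : ℝ) / (b : ℝ) ^ (i + 1) - (((k / b ^ i / b : ℕ) : ℤ) : ℝ) = (dg b k i : ℝ) / b + ((k % b ^ i : ℕ) : ℝ) / (b : ℝ) ^ (i + 1) := by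
    rw [Int.cast_natCast]
    nth_rewrite 1 [h2]
    rw [pow_succ]
    field_simp
    ring
  rw [h3]
  have h4 : ((k % b ^ i : ℕ) : ℝ) < (b : ℝ) ^ i := by exact_mod_cast Nat.mod_lt k (by positivity)
  constructor
  · have : (0 : ℝ) ≤ ((k % b ^ i : ℕ) : ℝ) / (b : ℝ) ^ (i + 1) := by positivity
    linarith
  · rw [add_div]
    have : ((k % b ^ i : ℕ) : ℝ) / (b : ℝ) ^ (i + 1) < 1 / b := by
      rw [div_lt_div_iff₀ (by positivity) hbr, pow_succ]
      nlinarith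
    linarith

/-- the bound for the Fourier transform of a set of pairs in terms of cells -/
def PB (b : ℕ) (R : Finset (ℕ × ℕ)) (h : ℕ → ℕ → ℝ) : Prop := ∀ α β : ℝ, ∀ l < b, ∀ l' < b,
  (∃ z : ℤ, (l : ℝ) / b ≤ α - z ∧ α - z < ((l : ℝ) + 1) / b) →
  (∃ z : ℤ, (l' : ℝ) / b ≤ β - z ∧ β - z < ((l' : ℝ) + 1) / b) →
  ‖∑ p ∈ R, ee (p.1 * α + p.2 * β)‖ ≤ R.card * h l l'

lemma pair_triv (R : Finset (ℕ × ℕ)) (α β : ℝ) : ‖∑ p ∈ R, ee (p.1 * α + p.2 * β)‖ ≤ R.card := by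
  refine (norm_sum_le _ _).trans ?_
  simp [norm_ee]

/-- the bound for the Fourier transform -/
lemma four_bd {b : ℕ} (hb : 0 < b) (M : ℕ) (R : ℕ → Finset (ℕ × ℕ)) (hR : ∀ j, R j ⊆ range b ×ˢ range b)
    (h : ℕ → ℕ → ℕ → ℝ) (h0 : ∀ j l l', 0 ≤ h j l l') (hPB : ∀ j < M, PB b (R j) (h j)) (k : ℕ) (J : Finset ℕ)
    (hJ : J ⊆ range M) :
    ‖∑ n ∈ SS b M R, ee (n * ((k : ℝ) / (b : ℝ) ^ (2 * M + 1)))‖ ≤
      (SS b M R).card * ∏ j ∈ J, h j (dg b k (2 * M - j)) (dg b k j) := by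
  have hbr : (0 : ℝ) < b := by exact_mod_cast hb
  rw [SS_four M R hR, SS_card M R hR, norm_mul, norm_prod]
  have h1 : ‖∑ d ∈ range b, ee (d * ((b : ℝ) ^ M * ((k : ℝ) / (b : ℝ) ^ (2 * M + 1))))‖ ≤ b := by
    refine (norm_sum_le _ _).trans ?_
    simp [norm_ee]
  have h2 : ∏ j ∈ range M, ‖∑ p ∈ R j, ee (p.1 * ((b : ℝ) ^ j * ((k : ℝ) / (b : ℝ) ^ (2 * M + 1))) +
      p.2 * ((b : ℝ) ^ (2 * M - j) * ((k : ℝ) / (b : ℝ) ^ (2 * M + 1))))‖ ≤
      ∏ j ∈ range M, (((R j).card : ℝ) * if j ∈ J then h j (dg b k (2 * M - j)) (dg b k j) else 1) := by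
    refine prod_le_prod (fun j _ => norm_nonneg _) fun j hj => ?_
    rw [mem_range] at hj
    split_ifs with hjJ
    · have e1 : (b : ℝ) ^ j * ((k : ℝ) / (b : ℝ) ^ (2 * M + 1)) = (k : ℝ) / (b : ℝ) ^ ((2 * M - j) + 1) := by
        have : (b : ℝ) ^ (2 * M + 1) = (b : ℝ) ^ j * (b : ℝ) ^ ((2 * M - j) + 1) := by
          rw [← pow_add]; congr 1; omega
        rw [this]; field_simp
      have e2 : (b : ℝ) ^ (2 * M - j) * ((k : ℝ) / (b : ℝ) ^ (2 * M + 1)) = (k : ℝ) / (b : ℝ) ^ (j + 1) := by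
        have : (b : ℝ) ^ (2 * M + 1) = (b : ℝ) ^ (2 * M - j) * (b : ℝ) ^ (j + 1) := by
          rw [← pow_add]; congr 1; omega
        rw [this]; field_simp
      rw [e1, e2]
      exact hPB j hj _ _ _ (dg_lt hb _ _) _ (dg_lt hb _ _) (cell hb k _) (cell hb k _)
    · rw [mul_one]
      exact pair_triv _ _ _
  have h3 : ∏ j ∈ range M, (((R j).card : ℝ) * if j ∈ J then h j (dg b k (2 * M - j)) (dg b k j) else 1) =
      (∏ j ∈ range M, ((R j).card : ℝ)) * ∏ j ∈ J, h j (dg b k (2 * M - j)) (dg b k j) := by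
    rw [prod_mul_distrib]
    congr 1
    rw [← prod_filter]
    congr 1
    ext j
    rw [mem_filter]
    exact ⟨fun h => h.2, fun h => ⟨hJ h, h⟩⟩
  rw [h3] at h2
  have h4 : 0 ≤ ∏ j ∈ range M, ‖∑ p ∈ R j, ee (p.1 * ((b : ℝ) ^ j * ((k : ℝ) / (b : ℝ) ^ (2 * M + 1))) +
      p.2 * ((b : ℝ) ^ (2 * M - j) * ((k : ℝ) / (b : ℝ) ^ (2 * M + 1))))‖ := prod_nonneg fun j _ => norm_nonneg _
  refine (mul_le_mul h1 h2 h4 hbr.le).trans (le_of_eq ?_)
  push_cast
  ring

end Pool.Agent.Zk46.PP
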