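import Pool.Agent.Zk46.PP.Vin

set_option autoImplicit false

/-! The bound on the minor arcs in terms of the denominator and the distance. -/

namespace Pool.Agent.Zk46.PP
open Finset
open Pool.Agent.H807R2.Dav

/-- the exponential sum over primes -/
noncomputable def PS (N : ℕ) (θ : ℝ) : ℂ :=
  ∑ n ∈ Icc 1 N, ((ArithmeticFunction.vonMangoldt n : ℝ) : ℂ) * ee ((n : ℝ) * θ)

lemma PS_triv (N : ℕ) (θ : ℝ) : ‖PS N θ‖ ≤ N * Real.log N := by
  unfold PS
  refine (norm_sum_le _ _).trans ?_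
  have h3 : ∀ n ∈ Icc 1 N, ‖((ArithmeticFunction.vonMangoldt n : ℝ) : ℂ) * ee ((n : ℝ) * θ)‖ ≤ Real.log N := by
    intro n hn
    rw [mem_Icc] at hn
    rw [norm_mul, norm_ee, mul_one, Complex.norm_real, Real.norm_of_nonneg ArithmeticFunction.vonMangoldt_nonneg]
    refine ArithmeticFunction.vonMangoldt_le_log.trans ?_
    apply Real.log_le_log (by exact_mod_cast hn.1)
    exact_mod_cast hn.2
  refine (sum_le_sum h3).trans ?_
  rw [sum_const, Nat.card_Icc, nsmul_eq_mul, Nat.add_sub_cancel]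

theorem vin_gain : ∃ N0 : ℕ, ∀ N : ℕ, N0 ≤ N → ∀ V q : ℕ, 1 ≤ V → V * V ≤ N → 1 ≤ q →
    ∀ c : ℤ, IsCoprime c (q : ℤ) → ∀ θ B : ℝ, 1 ≤ B → (N : ℝ) * |θ - c / q| ≤ B →
    (B = 1 ∨ B = (N : ℝ) * |θ - c / q|) → ((q : ℝ) * B) ^ 2 ≤ N →
    ‖PS N θ‖ ≤ 200000 * Real.log N ^ 7 * (N * √(4 / ((q : ℝ) * B) + 1 / V) + V * V) := by
  obtain ⟨N0, h0⟩ := minor_sq
  refine ⟨max N0 16, fun N hN V q hV hVN hq c hcop θ B hB hθ hBB hqB => ?_⟩
  have hN0 := h0 N ((le_max_left _ _).trans hN)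
  have hN16 : 16 ≤ N := (le_max_right _ _).trans hN
  have hNr : (16 : ℝ) ≤ N := by exact_mod_cast hN16
  have hNpos : (0 : ℝ) < N := by linarith
  have hqr : (1 : ℝ) ≤ q := by exact_mod_cast hq
  have hq0 : (0 : ℝ) < q := by linarith
  have hVr : (1 : ℝ) ≤ V := by exact_mod_cast hV
  have hV0 : (0 : ℝ) < V := by linarith
  have hB0 : 0 < B := by linarith
  have hl1 : 1 ≤ Real.log N := by
    rw [Real.le_log_iff_exp_le hNpos]
    have := Real.exp_one_lt_d9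
    linarith
  have hqB1 : 1 ≤ (q : ℝ) * B := by nlinarith
  have hqBN : (q : ℝ) * B ≤ N := by nlinarith
  have hqqB : (q : ℝ) ≤ q * B := le_mul_of_one_le_right hq0.le hB
  have key : ∀ (q' : ℕ) (c' : ℤ), 1 ≤ q' → q' ≤ N → IsCoprime c' (q' : ℤ) → |θ - c' / q'| ≤ 1 / (q' : ℝ) ^ 2 →
      1 / (q' : ℝ) ≤ 2 / (q * B) → (q' : ℝ) / N ≤ 2 / (q * B) →
      ‖PS N θ‖ ≤ 200000 * Real.log N ^ 7 * (N * √(4 / ((q : ℝ) * B) + 1 / V) + V * V) := by
    intro q' c' h1 h2 h3 h4 h5 h6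
    refine (hN0 V q' hV hVN h1 h2 c' h3 θ h4).trans ?_
    have h7 : 1 / (q' : ℝ) + 1 / V + q' / N ≤ 4 / ((q : ℝ) * B) + 1 / V := by
      have : (4 : ℝ) / (q * B) = 2 / (q * B) + 2 / (q * B) := by ring
      rw [this]; linarith
    have h8 := Real.sqrt_le_sqrt h7
    gcongr
  rcases lt_or_ge ((q : ℝ) * B) 2 with hsm | hbig
  · -- trivial bound
    refine (PS_triv N θ).trans ?_
    have h1 : 1 ≤ √(4 / ((q : ℝ) * B) + 1 / V) := by
      rw [Real.one_le_sqrt]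
      have h2 : 1 ≤ 4 / ((q : ℝ) * B) := by
        rw [le_div_iff₀ (by linarith)]; linarith
      have h3 : 0 ≤ 1 / (V : ℝ) := by positivity
      linarith
    have h2 : Real.log N ≤ Real.log N ^ 7 := le_self_pow₀ hl1 (by norm_num)
    calc (N : ℝ) * Real.log N ≤ N * Real.log N ^ 7 := by gcongr
      _ = 1 * Real.log N ^ 7 * (N * 1 + 0) := by ring
      _ ≤ 200000 * Real.log N ^ 7 * (N * √(4 / ((q : ℝ) * B) + 1 / V) + V * V) := by
          gcongr
          · norm_num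
          · positivity
  by_cases hB1 : B = 1
  · subst hB1
    rw [mul_one] at hqB hqBN hbig
    have hqq : (q : ℝ) * q ≤ N := by rw [← sq]; exact hqB
    refine key q c hq (by exact_mod_cast hqBN) hcop ?_ ?_ ?_
    · have h1 : |θ - c / q| ≤ 1 / N := by
        rw [le_div_iff₀ hNpos]; linarith
      refine h1.trans (one_div_le_one_div_of_le (by positivity) hqB)
    · rw [mul_one]
      exact div_le_div_of_nonneg_right (by norm_num) hq0.le
    · rw [mul_one, div_le_div_iff₀ hNpos hq0]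
      nlinarith
  have hBeq : B = (N : ℝ) * |θ - c / q| := by
    rcases hBB with h | h
    · exact absurd h hB1
    · exact h
  set n : ℕ := ⌊2 * N / ((q : ℝ) * B)⌋₊ with hn
  have hqBpos : 0 < (q : ℝ) * B := by positivity
  have hx2 : (2 : ℝ) ≤ 2 * N / ((q : ℝ) * B) := by
    rw [le_div_iff₀ hqBpos]; linarith
  have hn1 : 0 < n := by
    rw [hn, Nat.floor_pos]; linarith
  have hnle : (n : ℝ) ≤ 2 * N / ((q : ℝ) * B) := Nat.floor_le (by positivity)
  have hnlt : 2 * N / ((q : ℝ) * B) < n + 1 := Nat.lt_floor_add_one _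
  have hnlt' : 2 * N < ((n : ℝ) + 1) * (q * B) := by rwa [div_lt_iff₀ hqBpos] at hnlt
  have hnN : (n : ℝ) ≤ N := by
    refine hnle.trans ?_
    rw [div_le_iff₀ hqBpos]
    nlinarith
  obtain ⟨ρ, h1, h2⟩ := Real.exists_rat_abs_sub_le_and_den_le θ hn1
  have hden : 1 ≤ ρ.den := ρ.den_pos
  have hd0 : (0 : ℝ) < ρ.den := by exact_mod_cast hden
  have hd1 : (1 : ℝ) ≤ ρ.den := by exact_mod_cast hden
  have hcast : ((ρ : ℚ) : ℝ) = (ρ.num : ℝ) / (ρ.den : ℝ) := Rat.cast_def ρ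
  rw [hcast] at h1
  have hdn : (ρ.den : ℝ) ≤ n := by exact_mod_cast h2
  have hn1r : (0 : ℝ) < n + 1 := by positivity
  have hne : (ρ.num : ℝ) / ρ.den ≠ c / q := by
    intro he
    have e1 : (ρ.num : ℝ) * q = c * ρ.den := by
      rw [div_eq_div_iff hd0.ne' hq0.ne'] at he; exact he
    have e2 : ρ.num * (q : ℤ) = c * (ρ.den : ℤ) := by exact_mod_cast e1
    have e3 : (q : ℤ) ∣ c * (ρ.den : ℤ) := ⟨ρ.num, by linarith⟩
    have e4 : (q : ℤ) ∣ (ρ.den : ℤ) := hcop.symm.dvd_of_dvd_mul_left e3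
    have e5 : q ≤ ρ.den := Nat.le_of_dvd hden (by exact_mod_cast e4)
    have e6 : (q : ℝ) ≤ ρ.den := by exact_mod_cast e5
    rw [he] at h1
    have e7 : B ≤ N * (1 / (((n : ℝ) + 1) * ρ.den)) := by
      rw [hBeq]; exact mul_le_mul_of_nonneg_left h1 hNpos.le
    rw [mul_one_div, le_div_iff₀ (by positivity)] at e7
    have e8 : ((n : ℝ) + 1) * (q * B) ≤ ((n : ℝ) + 1) * (ρ.den * B) := by gcongr
    nlinarith
  have hdist : 1 / ((q : ℝ) * ρ.den) ≤ |(c : ℝ) / q - ρ.num / ρ.den| := by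
    have e1 : (c : ℝ) / q - ρ.num / ρ.den = ((c * ρ.den - ρ.num * q : ℤ) : ℝ) / (q * ρ.den) := by
      push_cast; field_simp
    have e2 : c * (ρ.den : ℤ) - ρ.num * (q : ℤ) ≠ 0 := by
      intro h
      apply hne
      rw [div_eq_div_iff hd0.ne' hq0.ne']
      have : ρ.num * (q : ℤ) = c * (ρ.den : ℤ) := by linarith
      exact_mod_cast this
    have e3 : (1 : ℝ) ≤ |((c * ρ.den - ρ.num * q : ℤ) : ℝ)| := by
      exact_mod_cast Int.one_le_abs e2
    rw [e1, abs_div, abs_of_pos (by positivity : (0 : ℝ) < q * ρ.den)]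
    exact div_le_div_of_nonneg_right e3 (by positivity)
  have htri : |(c : ℝ) / q - ρ.num / ρ.den| ≤ B / N + 1 / (((n : ℝ) + 1) * ρ.den) := by
    have e1 : (c : ℝ) / q - ρ.num / ρ.den = (θ - ρ.num / ρ.den) - (θ - c / q) := by ring
    rw [e1]
    refine (abs_sub _ _).trans ?_
    have e2 : |θ - c / q| ≤ B / N := by
      rw [le_div_iff₀ hNpos]; linarith
    linarith
  have hmain : (N : ℝ) ≤ 2 * (q * B * ρ.den) := by
    have e1 := hdist.trans htri
    rw [div_add_div _ _ hNpos.ne' (by positivity), div_le_div_iff₀ (by positivity) (by positivity)] at e1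
    -- N (n+1) den ≤ (B (n+1) den + N) q den
    have e2 : (N : ℝ) * ((n : ℝ) + 1) ≤ (B * (((n : ℝ) + 1) * ρ.den) + N) * q := by
      have : (1 * (N * (((n : ℝ) + 1) * ρ.den))) = (N * ((n : ℝ) + 1)) * ρ.den := by ring
      rw [this] at e1
      have : (B * (((n : ℝ) + 1) * ρ.den) + N * 1) * (q * ρ.den) = ((B * (((n : ℝ) + 1) * ρ.den) + N) * q) * ρ.den := by ring
      rw [this] at e1
      exact le_of_mul_le_mul_right e1 hd0
    have e3 : 2 * N * q ≤ ((n : ℝ) + 1) * N := by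
      have f1 : (q : ℝ) * (q * B) ≤ N := by nlinarith
      calc 2 * N * (q : ℝ) ≤ (((n : ℝ) + 1) * (q * B)) * q := mul_le_mul_of_nonneg_right hnlt'.le hq0.le
        _ = ((n : ℝ) + 1) * (q * (q * B)) := by ring
        _ ≤ ((n : ℝ) + 1) * N := by gcongr
    have e4 : (N : ℝ) * ((n : ℝ) + 1) ≤ 2 * (q * B * ρ.den) * ((n : ℝ) + 1) := by nlinarith
    exact le_of_mul_le_mul_right e4 hn1r
  refine key ρ.den ρ.num hden ?_ (Rat.isCoprime_num_den ρ) ?_ ?_ ?_
  · exact_mod_cast hdn.trans hnN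
  · refine h1.trans ?_
    rw [sq]
    apply one_div_le_one_div_of_le (by positivity)
    apply mul_le_mul_of_nonneg_right _ hd0.le
    linarith
  · rw [div_le_div_iff₀ hd0 hqBpos]
    -- 1 * (q B) ≤ 2 den : since (qB)^2 ≤ N ≤ 2 qB den
    have e1 : (q * B) * (q * B) ≤ (2 * (ρ.den : ℝ)) * (q * B) := by nlinarith
    have := le_of_mul_le_mul_right e1 hqBpos
    linarith
  · rw [div_le_div_iff₀ hNpos hqBpos]
    have := hdn.trans hnle
    rw [le_div_iff₀ hqBpos] at this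
    linarith

end Pool.Agent.Zk46.PP
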