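import Pool.Agent.Zk46.PP.Asm2

set_option autoImplicit false

/-! The main theorem of the circle method. -/

namespace Pool.Agent.Zk46.PP
open Finset
open Pool.Agent.H807R2.Dav
open Pool.Agent.H373R2.T7 (ev_log' ev_L')

/-- the von Mangoldt function and its model have almost the same sum over the set `SS` -/
theorem circle {b : ℕ} (hb : 4 ≤ b) {K c c' : ℝ} (hK : 0 ≤ K) (hc0 : 0 ≤ c) (hc : c < 1 / 2) (hc'0 : 0 ≤ c')
    (hc' : c' < 2 / 5) {ε : ℝ} (hε : 0 < ε) : ∃ M0 : ℕ, ∀ M : ℕ, M0 ≤ M → ∀ (R : ℕ → Finset (ℕ × ℕ))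
    (h : ℕ → ℕ → ℕ → ℝ) (Λ : ℕ → ℝ) (st : Finset ℕ), (∀ j, R j ⊆ range b ×ˢ range b) →
    (∀ j < M, PB b (R j) (h j)) → Dat b M h Λ K c → ∏ j ∈ range M, Λ j ≤ K * (b : ℝ) ^ (c' * M) →
    st ⊆ range M → (∀ j ∈ st, ∃ x y, (x, y) ∈ R j ∧ (x, y + 1) ∈ R j) → M ≤ 2 * st.card →
    SS b M R ⊆ Icc 1 (b ^ (2 * M + 1)) →
    |∑ n ∈ SS b M R, ff b n| ≤ ε * (SS b M R).card := by
  classical
  have hb0 : 0 < b := by omega
  have hb2 : 2 ≤ b := by omega
  have hbr : (0 : ℝ) < b := by exact_mod_cast hb0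
  have hb1 : (1 : ℝ) ≤ b := by exact_mod_cast (by omega : 1 ≤ b)
  obtain ⟨C, hC, hcls⟩ := class_sum hb hK hc0 hc
  set δ : ℝ := (1 / 2 - c) / 2 with hδ
  have hδ0 : 0 < δ := by rw [hδ]; linarith
  -- the exponent of the logarithm
  set A₀ : ℕ := ⌈8 / δ⌉₊ with hA₀
  have hA₀δ : 8 ≤ A₀ * δ := by
    have : 8 / δ ≤ A₀ := Nat.le_ceil _
    rwa [div_le_iff₀ hδ0] at this
  -- the threshold
  obtain ⟨T₀, hT₀1, hT₀⟩ : ∃ T₀ : ℕ, 1 ≤ T₀ ∧ 3 * C * (T₀ : ℝ) ^ (-δ) ≤ ε / 6 := by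
    have h1 : Filter.Tendsto (fun x : ℝ => 3 * C * x ^ (-δ)) Filter.atTop (nhds (3 * C * 0)) :=
      (tendsto_rpow_neg_atTop hδ0).const_mul _
    rw [mul_zero] at h1
    have h2 := (h1.comp (tendsto_natCast_atTop_atTop (R := ℝ))).eventually (gt_mem_nhds (show (0 : ℝ) < ε / 6 by positivity))
    obtain ⟨x0, hx0⟩ := Filter.eventually_atTop.1 h2
    exact ⟨max x0 1, le_max_right _ _, (hx0 _ (le_max_left _ _)).le⟩
  set CT : ℕ := T₀ * ((2 * T₀ + 3) * (2 * T₀ + 2)) with hCT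
  have hCT1 : 1 ≤ CT := by
    rw [hCT]; exact Nat.mul_pos hT₀1 (by positivity)
  have hCTr : (1 : ℝ) ≤ CT := by exact_mod_cast hCT1
  obtain ⟨M1, hdec⟩ := decay hb2 T₀ hT₀1 (show (0 : ℝ) < ε / (18 * CT) by positivity)
  obtain ⟨N1, hvin⟩ := PS_vin
  obtain ⟨N2, hmaj⟩ := PS_maj A₀
  obtain ⟨N3, hsmo⟩ := PS_smooth T₀ hT₀1
  obtain ⟨N4, hspec⟩ := GG_spec b hb2
  obtain ⟨N5, hL⟩ := ev_L' (max (max (6 * b ^ 2 / ε) (6 * (800000 * C) / ε)) (max (6 * CT / ε) (max T₀ 1)))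
  have hγ : 0 < 1 / 5 - c' / 2 := by linarith
  obtain ⟨N6, hpow⟩ := ev_pow hγ 7 (6 * 800000 * (b * K) / ε)
  refine ⟨max (max (max N1 N2) (max N3 N4)) (max (max N5 N6) (max (max M1 T₀) 17)),
    fun M hM R h Λ st hR hPB hD htot hst1 hst2 hst3 hSI => ?_⟩
  simp only [max_le_iff] at hM
  obtain ⟨⟨⟨hMN1, hMN2⟩, hMN3, hMN4⟩, ⟨hMN5, hMN6⟩, ⟨hMM1, hMT₀⟩, hM17⟩ := hM
  set N : ℕ := b ^ (2 * M + 1) with hNd
  have hMN : M ≤ N := by
    have h2 : 2 * M + 1 < b ^ (2 * M + 1) := Nat.lt_pow_self (by omega)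
    omega
  have hN1 : 1 ≤ N := Nat.one_le_pow _ _ hb0
  have hNr : (1 : ℝ) ≤ N := by exact_mod_cast hN1
  have hNpos : (0 : ℝ) < N := by linarith
  have e0 : (b : ℝ) ^ (2 * M + 1) = (N : ℝ) := by rw [hNd]; push_cast; rfl
  set L : ℝ := Real.log (N : ℝ) with hLd
  have hLbig := hL N (hMN5.trans hMN)
  simp only [max_le_iff] at hLbig
  obtain ⟨⟨hL1, hL2⟩, hL3, hL4, hL5⟩ := hLbig
  have hLpos : 0 < L := by linarith
  have hpow' := hpow N (hMN6.trans hMN)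
  -- the case of the empty set
  set S := SS b M R with hS
  rcases S.eq_empty_or_nonempty with hSe | hSne
  · rw [hSe]; simp
  have hcard : (0 : ℝ) < S.card := by exact_mod_cast hSne.card_pos
  -- approximations
  have hap : ∀ k, k < N → ∃ (A : ℤ) (Q : ℕ), 1 ≤ Q ∧ IsCoprime A (Q : ℤ) ∧
      ((Q : ℝ) * BB b M k A Q) ^ 2 ≤ (N : ℝ) ∧ |A| ≤ Q + 1 := fun k hk => diric hb2 hk
  choose! A Q hQ hcop hYN hAQ using hap
  set Y : ℕ → ℝ := fun k => (Q k : ℝ) * BB b M k (A k) (Q k) with hY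
  have hY1 : ∀ k < N, 1 ≤ Y k := by
    intro k hk
    have h1 : (1 : ℝ) ≤ Q k := by exact_mod_cast hQ k hk
    have h2 := one_le_BB b M k (A k) (Q k)
    rw [hY]; simp only; nlinarith
  set H : ℕ → ℝ := fun k => ‖∑ n ∈ S, ee (n * ((k : ℝ) / (b : ℝ) ^ (2 * M + 1)))‖ / S.card with hH
  have hH0 : ∀ k, 0 ≤ H k := fun k => by rw [hH]; positivity
  have hH1 : ∀ k, H k ≤ 1 := by
    intro k
    rw [hH]; simp only
    rw [div_le_one hcard]
    refine (norm_sum_le _ _).trans ?_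
    simp [norm_ee]
  have hHJ : ∀ k, ∀ J ⊆ range M, H k ≤ ∏ j ∈ J, h j (dg b k (2 * M - j)) (dg b k j) := by
    intro k J hJ
    rw [hH]; simp only
    rw [div_le_iff₀ hcard]
    exact (four_bd hb0 M R hR h hD.h0 hPB k J hJ).trans (le_of_eq (mul_comm _ _))
  set G : ℕ → ℝ := fun k => ‖GG b N ((k : ℝ) / N)‖ with hG
  have hG0 : ∀ k, 0 ≤ G k := fun k => norm_nonneg _
  -- the reduction
  have hred : (N : ℝ) * |∑ n ∈ S, ff b n| ≤ S.card * ∑ k ∈ range N, H k * G k := by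
    have h1 := orth hN1 S hSI (fun n => ((ff b n : ℝ) : ℂ))
    have h2 : ‖(N : ℂ) * ∑ n ∈ S, ((ff b n : ℝ) : ℂ)‖ = N * |∑ n ∈ S, ff b n| := by
      rw [norm_mul, Complex.norm_natCast, ← Complex.ofReal_sum, Complex.norm_real, Real.norm_eq_abs]
    rw [← h2, h1, mul_sum]
    refine (norm_sum_le _ _).trans (sum_le_sum fun k _ => ?_)
    rw [norm_mul, hH, hG]
    simp only
    rw [← mul_assoc, mul_div_cancel₀ _ hcard.ne', e0]
    rfl
  suffices hsuff : ∑ k ∈ range N, H k * G k ≤ ε * N by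
    have h1 : (N : ℝ) * |∑ n ∈ S, ff b n| ≤ N * (ε * S.card) := by
      refine hred.trans ?_
      calc (S.card : ℝ) * ∑ k ∈ range N, H k * G k ≤ S.card * (ε * N) := mul_le_mul_of_nonneg_left hsuff hcard.le
        _ = _ := by ring
    exact le_of_mul_le_mul_left h1 hNpos
  -- the fifth root
  obtain ⟨P, hP0, hP5⟩ : ∃ P : ℝ, 0 < P ∧ P ^ 5 = (N : ℝ) := by
    refine ⟨(N : ℝ) ^ (1 / 5 : ℝ), by positivity, ?_⟩
    rw [← Real.rpow_natCast, ← Real.rpow_mul hNpos.le]; norm_num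
  have hP1 : 1 ≤ P := by
    by_contra hcon
    rw [not_le] at hcon
    have : P ^ 5 < 1 := pow_lt_one₀ hP0.le hcon (by norm_num)
    linarith
  -- the pieces
  set F := range N with hF
  set F0 := F.filter fun k => N ∣ b * k with hF0
  set F1 := F.filter (fun k => ¬ N ∣ b * k) with hF1
  have hs0 : ∑ k ∈ F, H k * G k = ∑ k ∈ F0, H k * G k + ∑ k ∈ F1, H k * G k :=
    (sum_filter_add_sum_filter_not _ _ _).symm
  have hs1 : ∑ k ∈ F1, H k * G k = ∑ k ∈ F1 with P ^ 2 ≤ Y k, H k * G k + ∑ k ∈ F1 with ¬ P ^ 2 ≤ Y k, H k * G k :=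
    (sum_filter_add_sum_filter_not _ _ _).symm
  set F2 := F1.filter (fun k => ¬ P ^ 2 ≤ Y k) with hF2
  have hs2 : ∑ k ∈ F2, H k * G k = ∑ k ∈ F2 with L ^ A₀ ≤ Y k, H k * G k + ∑ k ∈ F2 with ¬ L ^ A₀ ≤ Y k, H k * G k :=
    (sum_filter_add_sum_filter_not _ _ _).symm
  set F3 := F2.filter (fun k => ¬ L ^ A₀ ≤ Y k) with hF3
  have hs3 : ∑ k ∈ F3, H k * G k = ∑ k ∈ F3 with (T₀ : ℝ) ≤ Y k, H k * G k + ∑ k ∈ F3 with ¬ (T₀ : ℝ) ≤ Y k, H k * G k :=
    (sum_filter_add_sum_filter_not _ _ _).symm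
  set F4 := F3.filter (fun k => ¬ (T₀ : ℝ) ≤ Y k) with hF4
  have hs4 : ∑ k ∈ F4, H k * G k = ∑ k ∈ F4 with (∃ E, Q k ∣ b ^ E), H k * G k + ∑ k ∈ F4 with ¬ (∃ E, Q k ∣ b ^ E), H k * G k :=
    (sum_filter_add_sum_filter_not _ _ _).symm
  have hF0N : ∀ k ∈ F0, k < N ∧ N ∣ b * k := fun k hk => by
    rw [hF0, mem_filter, hF, mem_range] at hk; exact hk
  have hF1N : ∀ k ∈ F1, k < N ∧ ¬ N ∣ b * k := fun k hk => by
    rw [hF1, mem_filter, hF, mem_range] at hk; exact hk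
  have hF2N : ∀ k ∈ F2, (k < N ∧ ¬ N ∣ b * k) ∧ Y k < P ^ 2 := fun k hk => by
    rw [hF2, mem_filter] at hk; exact ⟨hF1N k hk.1, not_le.1 hk.2⟩
  have hF3N : ∀ k ∈ F3, ((k < N ∧ ¬ N ∣ b * k) ∧ Y k < P ^ 2) ∧ Y k < L ^ A₀ := fun k hk => by
    rw [hF3, mem_filter] at hk; exact ⟨hF2N k hk.1, not_le.1 hk.2⟩
  have hF4N : ∀ k ∈ F4, (((k < N ∧ ¬ N ∣ b * k) ∧ Y k < P ^ 2) ∧ Y k < L ^ A₀) ∧ Y k < T₀ := fun k hk => by
    rw [hF4, mem_filter] at hk; exact ⟨hF3N k hk.1, not_le.1 hk.2⟩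
  have hGP : ∀ k, ¬ N ∣ b * k → G k = ‖PS N ((k : ℝ) / N)‖ := fun k hk =>
    GG_eq hb2 (by rw [hNd]; exact dvd_pow_self b (by omega)) hN1 hk
  -- the windows fit
  have hP2 : (b : ℝ) ^ 3 * P ^ 2 ≤ (b : ℝ) ^ M := by
    have h1 : ((b : ℝ) ^ 3 * P ^ 2) ^ 5 ≤ ((b : ℝ) ^ M) ^ 5 := by
      have e1 : ((b : ℝ) ^ 3 * P ^ 2) ^ 5 = (b : ℝ) ^ 15 * (P ^ 5) ^ 2 := by ring
      rw [e1, hP5, ← e0, ← pow_mul, ← pow_mul, ← pow_add]
      exact pow_le_pow_right₀ hb1 (by omega)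
    exact le_of_pow_le_pow_left₀ (by norm_num) (by positivity) h1
  have hfit : ∀ k, Y k < P ^ 2 → (b : ℝ) ^ 3 * Y k ≤ (b : ℝ) ^ M := fun k hk =>
    (mul_le_mul_of_nonneg_left hk.le (by positivity)).trans hP2
  -- piece 0
  have b0 : ∑ k ∈ F0, H k * G k ≤ ε / 6 * N := by
    have hc0 : F0.card ≤ b := by
      have hsub : F0 ⊆ (range b).image fun a => b ^ (2 * M) * a := by
        intro k hk
        obtain ⟨h1, a, ha⟩ := hF0N k hk
        rw [mem_image]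
        have e1 : k = b ^ (2 * M) * a := by
          have : b * k = b * (b ^ (2 * M) * a) := by rw [ha, hNd, pow_succ]; ring
          exact Nat.eq_of_mul_eq_mul_left hb0 this
        refine ⟨a, ?_, e1.symm⟩
        rw [mem_range]
        by_contra hcon
        rw [not_lt] at hcon
        have : b ^ (2 * M) * b ≤ b ^ (2 * M) * a := Nat.mul_le_mul_left _ hcon
        rw [← pow_succ, ← e1] at this
        rw [hNd] at h1
        omega
      refine (card_le_card hsub).trans (card_image_le.trans ?_)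
      rw [card_range]
    have h1 : ∀ k ∈ F0, H k * G k ≤ b * (N / L) := by
      intro k hk
      have h2 := hspec N (hMN4.trans hMN) (by rw [hNd]; exact dvd_pow_self b (by omega)) k (hF0N k hk).2
      calc H k * G k ≤ 1 * G k := mul_le_mul_of_nonneg_right (hH1 k) (hG0 k)
        _ ≤ _ := by rw [one_mul]; exact h2
    refine (sum_le_sum h1).trans ?_
    rw [sum_const, nsmul_eq_mul]
    have h2 : (F0.card : ℝ) ≤ b := by exact_mod_cast hc0
    calc (F0.card : ℝ) * (b * (N / L)) ≤ b * (b * (N / L)) := mul_le_mul_of_nonneg_right h2 (by positivity)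
      _ = (b ^ 2 / L) * N := by ring
      _ ≤ ε / 6 * N := by
          apply mul_le_mul_of_nonneg_right _ hNpos.le
          rw [div_le_iff₀ hLpos]
          rw [div_le_iff₀ hε] at hL1
          linarith
  -- piece 1
  have b1 : ∑ k ∈ F1 with P ^ 2 ≤ Y k, H k * G k ≤ ε / 6 * N := by
    have h1 : ∀ k ∈ F1.filter (fun k => P ^ 2 ≤ Y k), H k * G k ≤ H k * (800000 * L ^ 7 * P ^ 4) := by
      intro k hk
      rw [mem_filter] at hk
      obtain ⟨h2, h3⟩ := hF1N k hk.1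
      apply mul_le_mul_of_nonneg_left _ (hH0 k)
      rw [hGP k h3]
      exact (hvin b M hb2 (hMN1.trans hMN) k (A k) (Q k) (hQ k h2) (hcop k h2) (hYN k h2) P hP0 hP5).1 hk.2
    refine (sum_le_sum h1).trans ?_
    rw [← sum_mul]
    have h2 : ∑ k ∈ F1.filter (fun k => P ^ 2 ≤ Y k), H k ≤ b * (K * (b : ℝ) ^ (c' * M)) := by
      have h3 : ∑ k ∈ F1.filter (fun k => P ^ 2 ≤ Y k), H k ≤ ∑ k ∈ range N, H k :=
        sum_le_sum_of_subset_of_nonneg (fun k hk => by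
          rw [mem_filter] at hk
          exact mem_range.2 (hF1N k hk.1).1) fun k _ _ => hH0 k
      refine h3.trans ((H_total hb0 hD fun k _ => hHJ k _ (Subset.refl _)).trans ?_)
      exact mul_le_mul_of_nonneg_left htot hbr.le
    have h4 : (b : ℝ) ^ (c' * M) ≤ (N : ℝ) ^ (c' / 2) := by
      rw [← e0, ← Real.rpow_natCast, ← Real.rpow_mul hbr.le]
      apply Real.rpow_le_rpow_of_exponent_le hb1
      push_cast
      nlinarith
    have h5 : (0 : ℝ) ≤ 800000 * L ^ 7 * P ^ 4 := by positivity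
    have h6 : P = (N : ℝ) ^ (1 / 5 : ℝ) := by
      rw [← hP5, ← Real.rpow_natCast, ← Real.rpow_mul hP0.le]; norm_num
    calc (∑ k ∈ F1.filter (fun k => P ^ 2 ≤ Y k), H k) * (800000 * L ^ 7 * P ^ 4) ≤
          (b * (K * (N : ℝ) ^ (c' / 2))) * (800000 * L ^ 7 * P ^ 4) := by
          apply mul_le_mul_of_nonneg_right _ h5
          refine h2.trans ?_
          gcongr
      _ = (ε / 6) * ((6 * 800000 * (b * K) / ε * L ^ 7) * (N : ℝ) ^ (c' / 2)) * P ^ 4 := by field_simp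
      _ ≤ (ε / 6) * ((N : ℝ) ^ (1 / 5 - c' / 2) * (N : ℝ) ^ (c' / 2)) * P ^ 4 := by gcongr
      _ = (ε / 6) * P * P ^ 4 := by
          rw [← Real.rpow_add hNpos, h6]
          congr 4; ring
      _ = ε / 6 * N := by rw [← hP5]; ring
  -- piece 2
  have b2 : ∑ k ∈ F2 with L ^ A₀ ≤ Y k, H k * G k ≤ ε / 6 * N := by
    have h1 : ∀ k ∈ F2.filter (fun k => L ^ A₀ ≤ Y k), H k * G k ≤ (800000 * L ^ 7 * N) * (H k * Y k ^ (-(1 / 2) : ℝ)) := by
      intro k hk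
      rw [mem_filter] at hk
      obtain ⟨⟨h2, h3⟩, h4⟩ := hF2N k hk.1
      rw [hGP k h3]
      have h5 := (hvin b M hb2 (hMN1.trans hMN) k (A k) (Q k) (hQ k h2) (hcop k h2) (hYN k h2) P hP0 hP5).2 h4
      rw [hP5] at h5
      calc H k * ‖PS N ((k : ℝ) / N)‖ ≤ H k * (800000 * L ^ 7 * (N * Y k ^ (-(1 / 2) : ℝ))) :=
            mul_le_mul_of_nonneg_left h5 (hH0 k)
        _ = _ := by ring
    refine (sum_le_sum h1).trans ?_
    rw [← mul_sum]
    have h2 := hcls M h Λ hD H (F2.filter fun k => L ^ A₀ ≤ Y k) (fun k _ => hH0 k)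
      (fun k hk => (hF2N k (mem_filter.1 hk).1).1.1) (fun k _ => hHJ k) A Q
      (fun k hk => hQ k (hF2N k (mem_filter.1 hk).1).1.1) (L ^ A₀) (one_le_pow₀ hL5)
      (fun k hk => (mem_filter.1 hk).2) (fun k hk => hfit k (hF2N k (mem_filter.1 hk).1).2)
    have h3 : (L ^ A₀) ^ (-δ) ≤ 1 / L ^ 8 := by
      rw [← Real.rpow_natCast, ← Real.rpow_mul hLpos.le]
      have : (1 : ℝ) / L ^ 8 = L ^ (-8 : ℝ) := by
        rw [Real.rpow_neg hLpos.le, one_div]; norm_cast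
      rw [this]
      apply Real.rpow_le_rpow_of_exponent_le hL5
      linarith
    calc (800000 * L ^ 7 * N) * ∑ k ∈ F2.filter (fun k => L ^ A₀ ≤ Y k), H k * Y k ^ (-(1 / 2) : ℝ) ≤
          (800000 * L ^ 7 * N) * (C * (1 / L ^ 8)) := by
          apply mul_le_mul_of_nonneg_left _ (by positivity)
          exact h2.trans (mul_le_mul_of_nonneg_left h3 hC.le)
      _ = (800000 * C / L) * N := by field_simp
      _ ≤ ε / 6 * N := by
          apply mul_le_mul_of_nonneg_right _ hNpos.le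
          rw [div_le_iff₀ hLpos]
          rw [div_le_iff₀ hε] at hL2
          linarith
  -- piece 3
  have b3 : ∑ k ∈ F3 with (T₀ : ℝ) ≤ Y k, H k * G k ≤ ε / 6 * N := by
    have h1 : ∀ k ∈ F3.filter (fun k => (T₀ : ℝ) ≤ Y k), H k * G k ≤ (3 * N) * (H k * Y k ^ (-(1 / 2) : ℝ)) := by
      intro k hk
      rw [mem_filter] at hk
      obtain ⟨⟨⟨h2, h3⟩, h4⟩, h5⟩ := hF3N k hk.1
      rw [hGP k h3]
      have h6 := hmaj b M hb2 (hMN2.trans hMN) k (A k) (Q k) (hQ k h2) (hcop k h2) h5.le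
      calc H k * ‖PS N ((k : ℝ) / N)‖ ≤ H k * (3 * N * Y k ^ (-(1 / 2) : ℝ)) :=
            mul_le_mul_of_nonneg_left h6 (hH0 k)
        _ = _ := by ring
    refine (sum_le_sum h1).trans ?_
    rw [← mul_sum]
    have h2 := hcls M h Λ hD H (F3.filter fun k => (T₀ : ℝ) ≤ Y k) (fun k _ => hH0 k)
      (fun k hk => (hF3N k (mem_filter.1 hk).1).1.1.1) (fun k _ => hHJ k) A Q
      (fun k hk => hQ k (hF3N k (mem_filter.1 hk).1).1.1.1) T₀ (by exact_mod_cast hT₀1)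
      (fun k hk => (mem_filter.1 hk).2) (fun k hk => hfit k (hF3N k (mem_filter.1 hk).1).1.2)
    calc (3 * (N : ℝ)) * ∑ k ∈ F3.filter (fun k => (T₀ : ℝ) ≤ Y k), H k * Y k ^ (-(1 / 2) : ℝ) ≤
          (3 * N) * (C * (T₀ : ℝ) ^ (-δ)) := mul_le_mul_of_nonneg_left h2 (by positivity)
      _ = (3 * C * (T₀ : ℝ) ^ (-δ)) * N := by ring
      _ ≤ ε / 6 * N := mul_le_mul_of_nonneg_right hT₀ hNpos.le
  -- the number of the remaining frequencies
  have hcF4 : ∀ F' ⊆ F4, (F'.card : ℝ) ≤ CT := by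
    intro F' hF'
    have h1 := card_small (b := b) (M := M) (T := T₀) A Q F'
      (fun k hk => hQ k (hF4N k (hF' hk)).1.1.1.1) (fun k hk => hAQ k (hF4N k (hF' hk)).1.1.1.1)
      (fun k hk => (hF4N k (hF' hk)).2.le)
    exact_mod_cast h1
  -- piece 4
  have b4 : ∑ k ∈ F4 with (∃ E, Q k ∣ b ^ E), H k * G k ≤ ε / 6 * N := by
    have h1 : ∀ k ∈ F4.filter (fun k => ∃ E, Q k ∣ b ^ E), H k * G k ≤ N / L := by
      intro k hk
      rw [mem_filter] at hk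
      obtain ⟨⟨⟨⟨h2, h3⟩, h4⟩, h5⟩, h6⟩ := hF4N k hk.1
      have h7 := hsmo b M hb2 (hMN3.trans hMN) hMT₀ k (A k) (Q k) (hQ k h2) (hcop k h2) h6.le hk.2 h3
      calc H k * G k ≤ 1 * G k := mul_le_mul_of_nonneg_right (hH1 k) (hG0 k)
        _ ≤ _ := by rw [one_mul, hGP k h3]; exact h7
    refine (sum_le_sum h1).trans ?_
    rw [sum_const, nsmul_eq_mul]
    calc ((F4.filter (fun k => ∃ E, Q k ∣ b ^ E)).card : ℝ) * (N / L) ≤ CT * (N / L) :=
          mul_le_mul_of_nonneg_right (hcF4 _ (filter_subset _ _)) (by positivity)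
      _ = (CT / L) * N := by ring
      _ ≤ ε / 6 * N := by
          apply mul_le_mul_of_nonneg_right _ hNpos.le
          rw [div_le_iff₀ hLpos]
          rw [div_le_iff₀ hε] at hL3
          linarith
  -- piece 5
  have b5 : ∑ k ∈ F4 with ¬ (∃ E, Q k ∣ b ^ E), H k * G k ≤ ε / 6 * N := by
    have h1 : ∀ k ∈ F4.filter (fun k => ¬ ∃ E, Q k ∣ b ^ E), H k * G k ≤ (ε / (18 * CT)) * (3 * N) := by
      intro k hk
      rw [mem_filter] at hk
      obtain ⟨⟨⟨⟨h2, h3⟩, h4⟩, h5⟩, h6⟩ := hF4N k hk.1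
      have h7 := hmaj b M hb2 (hMN2.trans hMN) k (A k) (Q k) (hQ k h2) (hcop k h2) h5.le
      have hYk1 := hY1 k h2
      have h8 : G k ≤ 3 * N := by
        rw [hGP k h3]
        refine h7.trans ?_
        have : Y k ^ (-(1 / 2) : ℝ) ≤ 1 := Real.rpow_le_one_of_one_le_of_nonpos hYk1 (by norm_num)
        calc 3 * (N : ℝ) * Y k ^ (-(1 / 2) : ℝ) ≤ 3 * N * 1 := mul_le_mul_of_nonneg_left this (by positivity)
          _ = _ := mul_one _
      have h9 : H k ≤ ε / (18 * CT) := by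
        have hQk : (1 : ℝ) ≤ Q k := by exact_mod_cast hQ k h2
        have hBk := one_le_BB b M k (A k) (Q k)
        have hQT : (Q k : ℝ) ≤ T₀ := by
          have : (Q k : ℝ) ≤ Y k := by rw [hY]; simp only; nlinarith
          linarith
        have hBT : BB b M k (A k) (Q k) ≤ T₀ := by
          have : BB b M k (A k) (Q k) ≤ Y k := by rw [hY]; simp only; nlinarith
          linarith
        set β : ℝ := (k : ℝ) - (b : ℝ) ^ (2 * M + 1) * ((A k : ℝ) / Q k) with hβ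
        have hβT : |β| ≤ T₀ := (le_max_right _ _).trans hBT
        have h10 := hdec M hMM1 R hR st hst1 hst2 hst3 (Q k) (hQ k h2) (by exact_mod_cast hQT)
          (fun E hE => hk.2 ⟨E, hE⟩) (A k) (hcop k h2) β hβT
        have h11 : (A k : ℝ) / Q k + β / (b : ℝ) ^ (2 * M + 1) = (k : ℝ) / (b : ℝ) ^ (2 * M + 1) := by
          rw [hβ]; field_simp; ring
        rw [h11] at h10
        rw [hH]; simp only
        rw [div_le_iff₀ hcard]
        exact h10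
      exact mul_le_mul h9 h8 (hG0 k) (by positivity)
    refine (sum_le_sum h1).trans ?_
    rw [sum_const, nsmul_eq_mul]
    calc ((F4.filter (fun k => ¬ ∃ E, Q k ∣ b ^ E)).card : ℝ) * ((ε / (18 * CT)) * (3 * N)) ≤ CT * ((ε / (18 * CT)) * (3 * N)) :=
          mul_le_mul_of_nonneg_right (hcF4 _ (filter_subset _ _)) (by positivity)
      _ = ε / 6 * N := by field_simp; norm_num
  rw [hs0, hs1, hs2, hs3, hs4]
  have : ε * (N : ℝ) = ε / 6 * N + (ε / 6 * N + (ε / 6 * N + (ε / 6 * N + (ε / 6 * N + ε / 6 * N)))) := by ring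
  rw [this]
  linarith

end Pool.Agent.Zk46.PP
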