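import Pool.Agent.Zk46.PP.Gain
import Pool.Agent.NH21.Nls.ES
import Pool.Agent.H730R2.AA.Euler
import Pool.Agent.H807R2.Dav5

set_option autoImplicit false

/-! The major arcs. -/

namespace Pool.Agent.Zk46.PP
open Finset
open Pool.Agent.H807R2.Dav
open Pool.Agent.H373R2.T7 (ev_log' ev_L')

theorem maj (A D : ℕ) : ∃ N0 : ℕ, ∀ N : ℕ, N0 ≤ N → ∀ q : ℕ, 1 ≤ q → (q : ℝ) ≤ Real.log N ^ A →
    ∀ c : ℤ, IsCoprime c (q : ℤ) → ∀ β : ℝ, |β| ≤ Real.log N ^ A →
    ‖PS N ((c : ℝ) / q + β / N) - ((ArithmeticFunction.moebius q : ℤ) : ℂ) / (Nat.totient q : ℂ) *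
      ∑ m ∈ Icc 1 N, ee ((m : ℝ) * (β / N))‖ ≤ N / Real.log N ^ D := by
  obtain ⟨N1, h1⟩ := Pool.Agent.NH21.Nls.rat_point A (2 * A + D + 1)
  obtain ⟨N2, h2⟩ := ev_L' 14
  refine ⟨max N1 (max N2 2), fun N hN q hq hqA c hc β hβ => ?_⟩
  have hN1 : N1 ≤ N := (le_max_left _ _).trans hN
  have hL := h2 N ((le_max_left _ _).trans ((le_max_right _ _).trans hN))
  have hN2 : 2 ≤ N := (le_max_right _ _).trans ((le_max_right _ _).trans hN)
  have hNr : (2 : ℝ) ≤ N := by exact_mod_cast hN2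
  have hNpos : (0 : ℝ) < N := by linarith
  set L := Real.log N with hLd
  have hL0 : 0 < L := by linarith
  have hq0 : (0 : ℝ) < q := by exact_mod_cast hq
  have hqz : (0 : ℤ) < q := by exact_mod_cast hq
  set n : ℕ := (c % (q : ℤ)).toNat with hn
  have hnc : ((n : ℕ) : ℤ) = c % (q : ℤ) := Int.toNat_of_nonneg (Int.emod_nonneg _ hqz.ne')
  have hcz : c = n + q * (c / q) := by
    rw [hnc]; exact (Int.emod_add_mul_ediv c q).symm
  have hncop : n.Coprime q := by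
    rw [← Nat.isCoprime_iff_coprime]
    rw [hcz] at hc
    exact (IsCoprime.add_mul_left_left_iff).1 hc
  set w : ℂ := ((ArithmeticFunction.moebius q : ℤ) : ℂ) / (Nat.totient q : ℂ) with hw
  set cc : ℕ → ℂ := fun m => if m = 0 then 0 else
    ((ArithmeticFunction.vonMangoldt m : ℝ) : ℂ) * ee ((m : ℝ) * ((n : ℝ) / q)) - w with hcc
  have hsum : ∀ (u : ℕ) (g : ℕ → ℂ), ∑ m ∈ range (u + 1), cc m * g m = ∑ m ∈ Icc 1 u,
      (((ArithmeticFunction.vonMangoldt m : ℝ) : ℂ) * ee ((m : ℝ) * ((n : ℝ) / q)) - w) * g m := by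
    intro u g
    rw [range_eq_Ico, sum_eq_sum_Ico_succ_bot (by omega)]
    rw [hcc]
    simp only [if_true, zero_mul, zero_add]
    have : Ico 1 (u + 1) = Icc 1 u := by ext x; simp [Nat.lt_succ_iff]
    rw [this]
    refine sum_congr rfl fun m hm => ?_
    rw [if_neg (by have := (mem_Icc.1 hm).1; omega)]
  have hpart : ∀ u ≤ N + 1, ‖∑ m ∈ range u, cc m‖ ≤ q * (N / L ^ (2 * A + D + 1)) := by
    intro u hu
    rcases Nat.eq_zero_or_pos u with h0 | h0
    · subst h0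
      simp only [range_zero, sum_empty, norm_zero]
      positivity
    · obtain ⟨y, rfl⟩ : ∃ y, u = y + 1 := ⟨u - 1, by omega⟩
      have h3 := h1 N hN1 q n hq hqA hncop y (by omega)
      have h4 := hsum y (fun _ => 1)
      simp only [mul_one] at h4
      rw [h4]
      exact h3
  have habel := abel_bound cc (β / N) (N + 1) hpart
  have e1 : PS N ((c : ℝ) / q + β / N) - w * ∑ m ∈ Icc 1 N, ee ((m : ℝ) * (β / N)) =
      ∑ m ∈ range (N + 1), cc m * ee ((m : ℝ) * (β / N)) := by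
    rw [hsum N (fun m => ee ((m : ℝ) * (β / N)))]
    unfold PS
    rw [mul_sum, ← sum_sub_distrib]
    refine sum_congr rfl fun m _ => ?_
    have e2 : (m : ℝ) * ((c : ℝ) / q + β / N) = ((m : ℝ) * ((n : ℝ) / q) + (m : ℝ) * (β / N)) + (((m : ℤ) * (c / (q : ℤ)) : ℤ) : ℝ) := by
      have : (c : ℝ) = n + q * ((c / (q : ℤ) : ℤ) : ℝ) := by exact_mod_cast hcz
      rw [this]
      push_cast
      field_simp
      ring
    rw [e2, ee_add_int, ee_add]
    ring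
  rw [e1]
  refine habel.trans ?_
  have hLA : (1 : ℝ) ≤ L ^ A := one_le_pow₀ (by linarith)
  have e3 : 1 + ((N + 1 : ℕ) : ℝ) * (2 * Real.pi * |β / N|) ≤ 14 * L ^ A := by
    rw [abs_div, abs_of_pos hNpos]
    have hpi : Real.pi ≤ 3.15 := Real.pi_lt_d2.le
    have e4 : ((N + 1 : ℕ) : ℝ) * (2 * Real.pi * (|β| / N)) ≤ 2 * (2 * 3.15 * L ^ A) := by
      have e5 : ((N + 1 : ℕ) : ℝ) ≤ 2 * N := by push_cast; linarith
      calc ((N + 1 : ℕ) : ℝ) * (2 * Real.pi * (|β| / N)) ≤ (2 * N) * (2 * 3.15 * (L ^ A / N)) := by gcongr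
        _ = _ := by field_simp
    linarith
  have hden : (0 : ℝ) < L ^ (2 * A + D + 1) := by positivity
  calc (q : ℝ) * (N / L ^ (2 * A + D + 1)) * (1 + ((N + 1 : ℕ) : ℝ) * (2 * Real.pi * |β / N|)) ≤
      L ^ A * (N / L ^ (2 * A + D + 1)) * (14 * L ^ A) := by gcongr
    _ = (14 * N) * (L ^ A * L ^ A) / L ^ (2 * A + D + 1) := by ring
    _ ≤ (L * N) * (L ^ A * L ^ A) / L ^ (2 * A + D + 1) := by gcongr
    _ = N / L ^ D := by
        have e6 : L ^ (2 * A + D + 1) = L ^ A * L ^ A * L * L ^ D := by ring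
        rw [e6]
        field_simp

lemma geo_norm (N : ℕ) (hN : 1 ≤ N) (β : ℝ) : ‖∑ m ∈ Icc 1 N, ee ((m : ℝ) * (β / N))‖ ≤ N := by
  refine (norm_sum_le _ _).trans ?_
  simp [norm_ee]

/-- the geometric sum near zero -/
lemma geo_near (N : ℕ) (hN : 1 ≤ N) (β : ℝ) (hβ0 : β ≠ 0) (hβ : 2 * |β| ≤ N) :
    ‖∑ m ∈ Icc 1 N, ee ((m : ℝ) * (β / N))‖ ≤ N / |β| := by
  have hNpos : (0 : ℝ) < N := by exact_mod_cast hN
  have hb0 : 0 < |β| := abs_pos.2 hβ0
  have h1 : Icc 1 N = Ico 1 (N + 1) := by ext x; simp [Nat.lt_succ_iff]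
  rw [h1]
  have h2 := geo_bound 1 (N + 1) (by omega) (M := N) (by push_cast; linarith) (β / N)
  refine h2.trans ?_
  have h3 : 4 * (|β| / N) ≤ dd (β / N) := by
    have h4 : dd (β / N) = dd (|β| / N) := by
      rcases le_total 0 β with h | h
      · rw [abs_of_nonneg h]
      · rw [abs_of_nonpos h, neg_div, dd_neg]
    rw [h4]
    have h5 : |β| / N ≤ 1 / 2 := by rw [div_le_div_iff₀ hNpos (by norm_num)]; linarith
    have h6 := dd_ge (t := |β| / N) (by positivity) (by linarith)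
    rw [min_eq_left (by linarith)] at h6
    exact h6
  have h7 : 0 < 4 * (|β| / N) := by positivity
  refine (KK_le' hNpos.le h7 h3).trans ?_
  have h8 : 3 / (4 * (|β| / N)) = (3 / 4) * (N / |β|) := by field_simp
  rw [h8]
  have : 0 ≤ N / |β| := by positivity
  linarith

/-- the exponential sum on the major arcs -/
theorem maj_bd (A D : ℕ) : ∃ N0 : ℕ, ∀ N : ℕ, N0 ≤ N → ∀ q : ℕ, 1 ≤ q → (q : ℝ) ≤ Real.log N ^ A →
    ∀ c : ℤ, IsCoprime c (q : ℤ) → ∀ β : ℝ, |β| ≤ Real.log N ^ A →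
    ‖PS N ((c : ℝ) / q + β / N)‖ ≤ 2 * N * ((q : ℝ) * max 1 |β|) ^ (-(1 / 2) : ℝ) + N / Real.log N ^ D := by
  obtain ⟨N1, h1⟩ := maj A D
  obtain ⟨N2, h2⟩ := ev_log' A 2
  refine ⟨max N1 (max N2 1), fun N hN q hq hqA c hc β hβ => ?_⟩
  have h3 := h1 N ((le_max_left _ _).trans hN) q hq hqA c hc β hβ
  have h4 := h2 N ((le_max_left _ _).trans ((le_max_right _ _).trans hN))
  have hN1 : 1 ≤ N := (le_max_right _ _).trans ((le_max_right _ _).trans hN)
  have hN1r : (1 : ℝ) ≤ N := by exact_mod_cast hN1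
  have hNpos : (0 : ℝ) < N := by linarith
  have hq0 : (0 : ℝ) < q := by exact_mod_cast hq
  have hφ : (0 : ℝ) < Nat.totient q := by exact_mod_cast Nat.totient_pos.2 hq
  have hβN : 2 * |β| ≤ N := by
    have h5 : √(N : ℝ) ≤ N := by
      rw [Real.sqrt_le_left hNpos.le]; nlinarith
    linarith
  set G := ∑ m ∈ Icc 1 N, ee ((m : ℝ) * (β / N)) with hG
  have hB1 : 1 ≤ max 1 |β| := le_max_left _ _
  have hGb : ‖G‖ ≤ N / max 1 |β| := by
    rcases le_or_gt |β| 1 with h | h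
    · rw [max_eq_left h, div_one]; exact geo_norm N hN1 β
    · rw [max_eq_right h.le]
      exact geo_near N hN1 β (by intro h0; rw [h0, abs_zero] at h; linarith) hβN
  have hmu : ‖((ArithmeticFunction.moebius q : ℤ) : ℂ) / (Nat.totient q : ℂ) * G‖ ≤ 1 / Nat.totient q * (N / max 1 |β|) := by
    rw [norm_mul, norm_div, Complex.norm_natCast]
    have : ‖((ArithmeticFunction.moebius q : ℤ) : ℂ)‖ ≤ 1 := by
      rw [Complex.norm_intCast]
      exact_mod_cast ArithmeticFunction.abs_moebius_le_one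
    gcongr
  have hsq := Pool.Agent.H730R2.AA.Euler.sqrt_le_totient q hq
  have hfin : 1 / (Nat.totient q : ℝ) * (N / max 1 |β|) ≤ 2 * N * ((q : ℝ) * max 1 |β|) ^ (-(1 / 2) : ℝ) := by
    have e1 : ((q : ℝ) * max 1 |β|) ^ (-(1 / 2) : ℝ) = 1 / (√(q : ℝ) * √(max 1 |β|)) := by
      rw [Real.rpow_neg (by positivity), ← Real.sqrt_eq_rpow, Real.sqrt_mul hq0.le, one_div]
    rw [e1]
    have e2 : √(max 1 |β|) ≤ max 1 |β| := by
      rw [Real.sqrt_le_left (by positivity)]; nlinarith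
    have e3 : 0 < √(max 1 |β|) := Real.sqrt_pos.2 (by positivity)
    have e4 : 0 < √(q : ℝ) := Real.sqrt_pos.2 hq0
    have e5 : 1 / (Nat.totient q : ℝ) ≤ 2 / √(q : ℝ) := by
      rw [div_le_div_iff₀ hφ e4]; linarith
    calc 1 / (Nat.totient q : ℝ) * (N / max 1 |β|) ≤ (2 / √(q : ℝ)) * (N / √(max 1 |β|)) := by gcongr
      _ = _ := by field_simp
  calc ‖PS N ((c : ℝ) / q + β / N)‖ = ‖(PS N ((c : ℝ) / q + β / N) - ((ArithmeticFunction.moebius q : ℤ) : ℂ) / (Nat.totient q : ℂ) * G) +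
        ((ArithmeticFunction.moebius q : ℤ) : ℂ) / (Nat.totient q : ℂ) * G‖ := by rw [sub_add_cancel]
    _ ≤ N / Real.log N ^ D + 1 / Nat.totient q * (N / max 1 |β|) := (norm_add_le _ _).trans (add_le_add h3 hmu)
    _ ≤ _ := by linarith

end Pool.Agent.Zk46.PP
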