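import Pool.Agent.Zk46.PP.Four

set_option autoImplicit false

/-! The pairs of digits whose difference is at most `w`. -/

namespace Pool.Agent.Zk46.PP
open Finset
open Pool.Agent.H807R2.Dav

/-- the pairs of digits whose difference is at most `w` -/
def Rw (b w : ℕ) : Finset (ℕ × ℕ) := (range b ×ˢ range b).filter fun p => p.1 ≤ p.2 + w ∧ p.2 ≤ p.1 + w

lemma Rw_sub (b w : ℕ) : Rw b w ⊆ range b ×ˢ range b := filter_subset _ _

lemma Rw_sum {b w : ℕ} {α : Type*} [AddCommMonoid α] (F : ℕ → ℕ → α) :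
    ∑ p ∈ Rw b w, F p.1 p.2 = ∑ x ∈ range b, ∑ y ∈ Ico (x - w) (min (x + w + 1) b), F x y := by
  unfold Rw
  rw [sum_filter, sum_product]
  refine sum_congr rfl fun x hx => ?_
  rw [← sum_filter]
  refine sum_congr ?_ fun _ _ => rfl
  ext y
  simp only [mem_filter, mem_range, mem_Ico]
  omega

lemma Rw_card {b w : ℕ} (hw : w < b) : b * (w + 1) ≤ (Rw b w).card := by
  have h1 : (Rw b w).card = ∑ x ∈ range b, (min (x + w + 1) b - (x - w)) := by
    have := Rw_sum (b := b) (w := w) (fun _ _ => 1)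
    simpa using this
  rw [h1]
  calc b * (w + 1) = ∑ x ∈ range b, (w + 1) := by rw [sum_const, card_range, smul_eq_mul]
    _ ≤ _ := sum_le_sum fun x hx => by
        rw [mem_range] at hx
        omega

lemma geo_id {a c : ℕ} (h : a ≤ c) (β : ℝ) : (1 - ee β) * ∑ y ∈ Ico a c, ee (y * β) = ee (a * β) - ee (c * β) := by
  simp only [ee_pow]
  have := geom_sum_Ico_mul (ee β) h
  linear_combination -this

lemma KK_bd {b : ℕ} (a c : ℕ) (hac : a ≤ c) (hcb : c ≤ b) (x : ℝ) : ‖∑ m ∈ Ico a c, ee (m * x)‖ ≤ KK b x := by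
  refine geo_bound a c hac ?_ x
  have h1 : (c : ℝ) ≤ b := by exact_mod_cast hcb
  have h2 : (0 : ℝ) ≤ a := Nat.cast_nonneg _
  linarith

/-- the bound through the sum over the second digit -/
lemma Rw_bd1 {b w : ℕ} (hw : w < b) (α β : ℝ) :
    dd β * ‖∑ p ∈ Rw b w, ee (p.1 * α + p.2 * β)‖ ≤ 2 * (KK b α + KK b (α + β)) := by
  have h1 : (1 - ee β) * ∑ p ∈ Rw b w, ee (p.1 * α + p.2 * β) =
      (∑ x ∈ range b, ee (x * α) * ee (((x - w : ℕ) : ℝ) * β)) -
        ∑ x ∈ range b, ee (x * α) * ee (((min (x + w + 1) b : ℕ) : ℝ) * β) := by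
    rw [Rw_sum (fun x y => ee (x * α + y * β)), mul_sum, ← sum_sub_distrib]
    refine sum_congr rfl fun x hx => ?_
    rw [mem_range] at hx
    have h2 : ∑ y ∈ Ico (x - w) (min (x + w + 1) b), ee (x * α + y * β) =
        ee (x * α) * ∑ y ∈ Ico (x - w) (min (x + w + 1) b), ee (y * β) := by
      rw [mul_sum]
      exact sum_congr rfl fun y _ => ee_add _ _
    rw [h2, mul_left_comm, geo_id (by omega)]
    ring
  have h2 : dd β * ‖∑ p ∈ Rw b w, ee (p.1 * α + p.2 * β)‖ = ‖(1 - ee β) * ∑ p ∈ Rw b w, ee (p.1 * α + p.2 * β)‖ := by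
    rw [norm_mul]; rfl
  rw [h2, h1]
  refine (norm_sub_le _ _).trans ?_
  have e1 : ‖∑ x ∈ range b, ee (x * α) * ee (((x - w : ℕ) : ℝ) * β)‖ ≤ KK b α + KK b (α + β) := by
    rw [range_eq_Ico, ← sum_Ico_consecutive _ (Nat.zero_le w) hw.le]
    refine (norm_add_le _ _).trans (add_le_add ?_ ?_)
    · have : ∑ x ∈ Ico 0 w, ee (x * α) * ee (((x - w : ℕ) : ℝ) * β) = ∑ x ∈ Ico 0 w, ee (x * α) := by
        refine sum_congr rfl fun x hx => ?_
        rw [mem_Ico] at hx
        have : x - w = 0 := by omega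
        rw [this, Nat.cast_zero, zero_mul, ee_zero, mul_one]
      rw [this]
      exact KK_bd 0 w (Nat.zero_le _) hw.le α
    · have : ∑ x ∈ Ico w b, ee (x * α) * ee (((x - w : ℕ) : ℝ) * β) = ee (-(w * β)) * ∑ x ∈ Ico w b, ee (x * (α + β)) := by
        rw [mul_sum]
        refine sum_congr rfl fun x hx => ?_
        rw [mem_Ico] at hx
        rw [← ee_add, ← ee_add, Nat.cast_sub hx.1]
        congr 1; ring
      rw [this, norm_mul, norm_ee, one_mul]
      exact KK_bd w b hw.le le_rfl _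
  have e2 : ‖∑ x ∈ range b, ee (x * α) * ee (((min (x + w + 1) b : ℕ) : ℝ) * β)‖ ≤ KK b α + KK b (α + β) := by
    rw [range_eq_Ico, ← sum_Ico_consecutive _ (Nat.zero_le (b - w)) (Nat.sub_le b w), add_comm (KK (b : ℝ) α)]
    refine (norm_add_le _ _).trans (add_le_add ?_ ?_)
    · have : ∑ x ∈ Ico 0 (b - w), ee (x * α) * ee (((min (x + w + 1) b : ℕ) : ℝ) * β) =
          ee ((w + 1) * β) * ∑ x ∈ Ico 0 (b - w), ee (x * (α + β)) := by
        rw [mul_sum]
        refine sum_congr rfl fun x hx => ?_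
        rw [mem_Ico] at hx
        have : min (x + w + 1) b = x + w + 1 := by omega
        rw [this, ← ee_add, ← ee_add]
        congr 1; push_cast; ring
      rw [this, norm_mul, norm_ee, one_mul]
      exact KK_bd 0 (b - w) (Nat.zero_le _) (Nat.sub_le _ _) _
    · have : ∑ x ∈ Ico (b - w) b, ee (x * α) * ee (((min (x + w + 1) b : ℕ) : ℝ) * β) =
          ee (b * β) * ∑ x ∈ Ico (b - w) b, ee (x * α) := by
        rw [mul_sum]
        refine sum_congr rfl fun x hx => ?_
        rw [mem_Ico] at hx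
        have : min (x + w + 1) b = b := by omega
        rw [this, mul_comm]
      rw [this, norm_mul, norm_ee, one_mul]
      exact KK_bd (b - w) b (Nat.sub_le _ _) le_rfl _
  linarith

lemma diag {b w s : ℕ} (hs : s ≤ 1) (α β : ℝ) :
    ‖∑ x ∈ range b, ∑ y ∈ Ico (x + s) (min (x + w + 1) b), ee (x * α + y * β)‖ ≤ (w + 1) * KK b (α + β) := by
  have h1 : ∀ x ∈ range b, ∑ y ∈ Ico (x + s) (min (x + w + 1) b), ee (x * α + y * β) =
      ∑ d ∈ Ico s (w + 1), if x + d < b then ee (d * β) * ee (x * (α + β)) else 0 := by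
    intro x _
    rw [← sum_filter]
    refine sum_nbij' (fun y => y - x) (fun d => x + d) ?_ ?_ ?_ ?_ ?_
    · intro y hy
      simp only [mem_filter, mem_Ico] at hy ⊢
      omega
    · intro d hd
      simp only [mem_filter, mem_Ico] at hd ⊢
      omega
    · intro y hy
      simp only [mem_Ico] at hy
      omega
    · intro d _
      omega
    · intro y hy
      simp only [mem_Ico] at hy
      rw [← ee_add, Nat.cast_sub (by omega)]
      congr 1; ring
  rw [sum_congr rfl h1, sum_comm]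
  refine (norm_sum_le _ _).trans ?_
  have h2 : ∀ d ∈ Ico s (w + 1), ‖∑ x ∈ range b, if x + d < b then ee (d * β) * ee (x * (α + β)) else 0‖ ≤ KK b (α + β) := by
    intro d _
    rw [← sum_filter]
    have h3 : (range b).filter (fun x => x + d < b) = Ico 0 (b - d) := by
      ext x; simp only [mem_filter, mem_range, mem_Ico]; omega
    rw [h3, ← mul_sum, norm_mul, norm_ee, one_mul]
    exact KK_bd 0 (b - d) (Nat.zero_le _) (Nat.sub_le _ _) _
  refine (sum_le_sum h2).trans ?_
  rw [sum_const, Nat.card_Ico, nsmul_eq_mul]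
  apply mul_le_mul_of_nonneg_right _ (KK_nonneg (Nat.cast_nonneg _) _)
  have : w + 1 - s ≤ w + 1 := Nat.sub_le _ _
  exact_mod_cast this

/-- the bound through the sum over the diagonals -/
lemma Rw_bd2 {b w : ℕ} (α β : ℝ) :
    ‖∑ p ∈ Rw b w, ee (p.1 * α + p.2 * β)‖ ≤ 2 * (w + 1) * KK b (α + β) := by
  have h1 : ∑ p ∈ Rw b w, ee (p.1 * α + p.2 * β) =
      (∑ x ∈ range b, ∑ y ∈ Ico (x + 0) (min (x + w + 1) b), ee (x * α + y * β)) +
        ∑ y ∈ range b, ∑ x ∈ Ico (y + 1) (min (y + w + 1) b), ee (y * β + x * α) := by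
    rw [← sum_filter_add_sum_filter_not (Rw b w) (fun p => p.1 ≤ p.2)]
    congr 1
    · unfold Rw
      rw [filter_filter, sum_filter, sum_product]
      refine sum_congr rfl fun x hx => ?_
      rw [mem_range] at hx
      rw [← sum_filter]
      refine sum_congr ?_ fun _ _ => rfl
      ext y
      simp only [mem_filter, mem_range, mem_Ico]
      omega
    · unfold Rw
      rw [filter_filter, sum_filter, sum_product_right]
      refine sum_congr rfl fun y hy => ?_
      rw [mem_range] at hy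
      rw [← sum_filter]
      refine sum_congr ?_ fun _ _ => by rw [add_comm]
      ext x
      simp only [mem_filter, mem_range, mem_Ico]
      omega
  rw [h1]
  refine (norm_add_le _ _).trans ?_
  have h2 := diag (b := b) (w := w) (s := 0) (by omega) α β
  have h3 := diag (b := b) (w := w) (s := 1) le_rfl β α
  rw [add_comm β α] at h3
  linarith

/-- the weights of the cells -/
noncomputable def kap (b l : ℕ) : ℝ := 1 / (1 + (min l (b - 1 - l) : ℕ))

/-- the weights of the cells of the sums -/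
noncomputable def kap2 (b l : ℕ) : ℝ := 1 / (1 + (min l (b - 2 - l) : ℕ))

lemma kap_pos (b l : ℕ) : 0 < kap b l := by unfold kap; positivity

lemma kap2_pos (b l : ℕ) : 0 < kap2 b l := by unfold kap2; positivity

lemma dd_cell {b m l : ℕ} (hb : 0 < b) (hl : l + m ≤ b) {γ : ℝ} {z : ℤ} (h1 : (l : ℝ) / b ≤ γ - z)
    (h2 : γ - z < ((l : ℝ) + m) / b) : 4 * ((min l (b - m - l) : ℕ) : ℝ) / b ≤ dd γ := by
  have hbr : (0 : ℝ) < b := by exact_mod_cast hb
  have hlb : (l : ℝ) + m ≤ b := by exact_mod_cast hl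
  set t := γ - z with ht
  have ht0 : 0 ≤ t := le_trans (by positivity) h1
  have ht1 : t ≤ 1 := by
    refine h2.le.trans ?_
    rw [div_le_one hbr]; exact hlb
  have e1 : dd γ = dd t := by
    have : γ = t + z := by rw [ht]; ring
    rw [this, dd_add_int]
  rw [e1]
  refine le_trans ?_ (dd_ge ht0 ht1)
  have e2 : ((min l (b - m - l) : ℕ) : ℝ) / b ≤ min t (1 - t) := by
    rw [le_min_iff]
    constructor
    · refine le_trans ?_ h1
      apply div_le_div_of_nonneg_right _ hbr.le
      exact_mod_cast min_le_left _ _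
    · have e3 : ((min l (b - m - l) : ℕ) : ℝ) ≤ (b : ℝ) - (l + m) := by
        have : min l (b - m - l) ≤ b - (l + m) := by omega
        have h3 : ((min l (b - m - l) : ℕ) : ℝ) ≤ ((b - (l + m) : ℕ) : ℝ) := by exact_mod_cast this
        rw [Nat.cast_sub hl] at h3
        push_cast at h3 ⊢
        exact h3
      have e4 : ((min l (b - m - l) : ℕ) : ℝ) / b ≤ ((b : ℝ) - (l + m)) / b := div_le_div_of_nonneg_right e3 hbr.le
      have e5 : ((b : ℝ) - (l + m)) / b = 1 - (l + m) / b := by field_simp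
      rw [e5] at e4
      linarith
  calc 4 * ((min l (b - m - l) : ℕ) : ℝ) / b = 4 * (((min l (b - m - l) : ℕ) : ℝ) / b) := by ring
    _ ≤ _ := by linarith

lemma KK_cell {b c : ℕ} (hb : 0 < b) {γ : ℝ} (h : 4 * (c : ℝ) / b ≤ dd γ) : KK b γ ≤ 3 * b * (1 / (1 + (c : ℝ))) := by
  have hbr : (0 : ℝ) < b := by exact_mod_cast hb
  rcases Nat.eq_zero_or_pos c with h0 | h0
  · subst h0
    simp only [Nat.cast_zero, add_zero, div_one, mul_one]
    exact KK_le hbr.le γ
  · have hc : (1 : ℝ) ≤ c := by exact_mod_cast h0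
    refine (KK_le' hbr.le (by positivity) h).trans ?_
    rw [mul_one_div, div_div_eq_mul_div, div_le_div_iff₀ (by positivity) (by positivity)]
    nlinarith

/-- the bound for the cells -/
noncomputable def hh (b w l l' : ℕ) : ℝ := 6 * b / (w + 1) * (kap b l' * (kap b l + kap2 b ((l + l') % b)))

lemma hh_nonneg (b w l l' : ℕ) : 0 ≤ hh b w l l' := by
  unfold hh
  have := kap_pos b l'
  have := kap_pos b l
  have := kap2_pos b ((l + l') % b)
  positivity

lemma Rw_PB {b w : ℕ} (hw : w < b) : PB b (Rw b w) (hh b w) := by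
  intro α β l hl l' hl' ⟨z, hz1, hz2⟩ ⟨z', hz1', hz2'⟩
  have hb : 0 < b := by omega
  have hbr : (0 : ℝ) < b := by exact_mod_cast hb
  have hwr : (w : ℝ) + 1 ≤ b := by exact_mod_cast hw
  have hw0 : (0 : ℝ) < (w : ℝ) + 1 := by positivity
  have hα : KK b α ≤ 3 * b * kap b l :=
    KK_cell hb (dd_cell (m := 1) hb (by omega) hz1 (by rw [Nat.cast_one]; exact hz2))
  have hαβ : KK b (α + β) ≤ 3 * b * kap2 b ((l + l') % b) := by
    have hlow : ((l + l' : ℕ) : ℝ) / b ≤ α + β - ((z + z' : ℤ) : ℝ) := by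
      push_cast; rw [add_div]; linarith
    have hup : α + β - ((z + z' : ℤ) : ℝ) < (((l + l' : ℕ) : ℝ) + 2) / b := by
      have : (((l + l' : ℕ) : ℝ) + 2) / b = ((l : ℝ) + 1) / b + ((l' : ℝ) + 1) / b := by push_cast; ring
      rw [this]; push_cast; linarith
    refine KK_cell hb ?_
    rcases lt_or_ge (l + l') b with h | h
    · rw [Nat.mod_eq_of_lt h]
      rcases Nat.lt_or_ge b (l + l' + 2) with h3 | h3
      · have : min (l + l') (b - 2 - (l + l')) = 0 := by omega
        rw [this]; simp [dd_nonneg]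
      · exact dd_cell (m := 2) hb h3 hlow (by push_cast at hup ⊢; exact hup)
    · have e1 : (l + l') % b = l + l' - b := by
        rw [Nat.mod_eq_sub_mod h, Nat.mod_eq_of_lt (by omega)]
      rw [e1]
      refine dd_cell (m := 2) (z := z + z' + 1) hb (by omega) ?_ ?_
      · rw [Nat.cast_sub h, sub_div, div_self hbr.ne']
        push_cast at hlow ⊢
        linarith
      · rw [Nat.cast_sub h]
        have e2 : (((l + l' : ℕ) : ℝ) - b + (2 : ℕ)) / b = (((l + l' : ℕ) : ℝ) + 2) / b - 1 := by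
          push_cast; field_simp; ring
        rw [e2]
        push_cast at hup ⊢
        linarith
  have hk' := kap_pos b l'
  have hk := kap_pos b l
  have hk2 := kap2_pos b ((l + l') % b)
  have hcard : (b : ℝ) * (w + 1) ≤ (Rw b w).card := by exact_mod_cast Rw_card hw
  have hmain : ‖∑ p ∈ Rw b w, ee (p.1 * α + p.2 * β)‖ ≤ 6 * b ^ 2 * (kap b l' * (kap b l + kap2 b ((l + l') % b))) := by
    set c := min l' (b - 1 - l') with hc
    have hkc : kap b l' = 1 / (1 + (c : ℝ)) := rfl
    rcases Nat.eq_zero_or_pos c with h0 | h0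
    · refine (Rw_bd2 α β).trans ?_
      rw [hkc, h0]
      simp only [Nat.cast_zero, add_zero, div_one, one_mul]
      calc 2 * ((w : ℝ) + 1) * KK b (α + β) ≤ 2 * b * (3 * b * kap2 b ((l + l') % b)) := by
            apply mul_le_mul (by linarith) hαβ (KK_nonneg hbr.le _) (by positivity)
        _ = 6 * b ^ 2 * kap2 b ((l + l') % b) := by ring
        _ ≤ 6 * b ^ 2 * (kap b l + kap2 b ((l + l') % b)) := by
            apply mul_le_mul_of_nonneg_left _ (by positivity)
            linarith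
    · have hc1 : (1 : ℝ) ≤ c := by exact_mod_cast h0
      have hdd : 4 * (c : ℝ) / b ≤ dd β := dd_cell (m := 1) hb (by omega) hz1' (by rw [Nat.cast_one]; exact hz2')
      have h1 := Rw_bd1 hw α β
      set Z := ‖∑ p ∈ Rw b w, ee (p.1 * α + p.2 * β)‖ with hZ
      have hZ0 : 0 ≤ Z := norm_nonneg _
      have h2 : 2 * (1 + (c : ℝ)) / b * Z ≤ 2 * (3 * b * kap b l + 3 * b * kap2 b ((l + l') % b)) := by
        have e1 : 2 * (1 + (c : ℝ)) / b ≤ dd β := by
          refine le_trans ?_ hdd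
          apply div_le_div_of_nonneg_right _ hbr.le
          linarith
        have e2 := mul_le_mul_of_nonneg_right e1 hZ0
        linarith
      rw [hkc]
      have h3 : Z ≤ b / (2 * (1 + (c : ℝ))) * (2 * (3 * b * kap b l + 3 * b * kap2 b ((l + l') % b))) := by
        calc Z = b / (2 * (1 + (c : ℝ))) * (2 * (1 + (c : ℝ)) / b * Z) := by field_simp
          _ ≤ _ := mul_le_mul_of_nonneg_left h2 (by positivity)
      refine h3.trans ?_
      have h4 : b / (2 * (1 + (c : ℝ))) * (2 * (3 * b * kap b l + 3 * b * kap2 b ((l + l') % b))) =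
          3 * b ^ 2 * (1 / (1 + (c : ℝ)) * (kap b l + kap2 b ((l + l') % b))) := by
        field_simp
      rw [h4]
      apply mul_le_mul_of_nonneg_right _ (by positivity)
      have : (0 : ℝ) ≤ (b : ℝ) ^ 2 := by positivity
      linarith
  refine hmain.trans ?_
  unfold hh
  have h5 : 6 * (b : ℝ) ^ 2 * (kap b l' * (kap b l + kap2 b ((l + l') % b))) =
      (b * (w + 1)) * (6 * b / (w + 1) * (kap b l' * (kap b l + kap2 b ((l + l') % b)))) := by
    field_simp
  rw [h5]
  apply mul_le_mul_of_nonneg_right hcard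
  positivity

lemma inv_min_le (x y : ℕ) : 1 / (1 + ((min x y : ℕ) : ℝ)) ≤ 1 / (1 + (x : ℝ)) + 1 / (1 + (y : ℝ)) := by
  have h1 : (0 : ℝ) < 1 / (1 + (x : ℝ)) := by positivity
  have h2 : (0 : ℝ) < 1 / (1 + (y : ℝ)) := by positivity
  rcases le_total x y with h | h
  · rw [min_eq_left h]; linarith
  · rw [min_eq_right h]; linarith

lemma harm (b : ℕ) : ∑ l ∈ range b, 1 / (1 + (l : ℝ)) ≤ 1 + Real.log b := by
  have h1 := harmonic_le_one_add_log b
  refine le_trans (le_of_eq ?_) h1
  unfold harmonic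
  push_cast
  refine sum_congr rfl fun k _ => ?_
  rw [one_div, add_comm]

lemma kap_sum {b : ℕ} (hb : 0 < b) : ∑ l ∈ range b, kap b l ≤ 2 * (1 + Real.log b) := by
  have h1 : ∀ l ∈ range b, kap b l ≤ 1 / (1 + (l : ℝ)) + 1 / ((b : ℝ) - l) := by
    intro l hl
    rw [mem_range] at hl
    refine (inv_min_le _ _).trans (le_of_eq ?_)
    congr 2
    rw [Nat.cast_sub (by omega), Nat.cast_sub (by omega)]
    push_cast; ring
  refine (sum_le_sum h1).trans ?_
  rw [sum_add_distrib]
  have := harm b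
  have := sum_inv_range' b
  linarith

lemma kap2_sum {b : ℕ} (hb : 2 ≤ b) : ∑ l ∈ range b, kap2 b l ≤ 3 * (1 + Real.log b) := by
  have h1 : ∀ l ∈ range b, kap2 b l ≤ 1 / (1 + (l : ℝ)) + 2 * (1 / ((b : ℝ) - l)) := by
    intro l hl
    rw [mem_range] at hl
    refine (inv_min_le _ _).trans ?_
    apply add_le_add le_rfl
    have hlr : (l : ℝ) + 1 ≤ b := by exact_mod_cast hl
    rw [mul_one_div, div_le_div_iff₀ (by positivity) (by linarith)]
    rcases Nat.lt_or_ge (b - 2) l with h | h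
    · have e1 : b - 2 - l = 0 := by omega
      have e2 : (b : ℝ) - l = 1 := by
        have : b = l + 1 := by omega
        rw [this]; push_cast; ring
      rw [e1, e2]; norm_num
    · have e1 : ((b - 2 - l : ℕ) : ℝ) = b - 2 - l := by
        rw [Nat.cast_sub h, Nat.cast_sub hb]; norm_num
      rw [e1]
      have : (l : ℝ) + 2 ≤ b := by
        have : l + 2 ≤ b := by omega
        exact_mod_cast this
      linarith
  refine (sum_le_sum h1).trans ?_
  rw [sum_add_distrib, ← mul_sum]
  have := harm b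
  have := sum_inv_range' b
  linarith

lemma shift_sum {b l' : ℕ} (hb : 0 < b) (hl' : l' < b) (f : ℕ → ℝ) :
    ∑ l ∈ range b, f ((l + l') % b) = ∑ r ∈ range b, f r := by
  refine sum_nbij' (fun l => (l + l') % b) (fun r => (r + (b - l')) % b) ?_ ?_ ?_ ?_ ?_
  · intro l _
    exact mem_range.2 (Nat.mod_lt _ hb)
  · intro l _
    exact mem_range.2 (Nat.mod_lt _ hb)
  · intro l hl
    rw [mem_range] at hl
    rw [Nat.mod_add_mod]
    have : l + l' + (b - l') = l + b := by omega
    rw [this, Nat.add_mod_right, Nat.mod_eq_of_lt hl]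
  · intro r hr
    rw [mem_range] at hr
    rw [Nat.mod_add_mod]
    have : r + (b - l') + l' = r + b := by omega
    rw [this, Nat.add_mod_right, Nat.mod_eq_of_lt hr]
  · intro l _
    rfl

lemma hh_sum {b w : ℕ} (hb : 2 ≤ b) : ∑ l ∈ range b, ∑ l' ∈ range b, hh b w l l' ≤
    60 * (1 + Real.log b) ^ 2 * (b / (w + 1)) := by
  have hbr : (2 : ℝ) ≤ b := by exact_mod_cast hb
  have hlog : 0 ≤ Real.log b := Real.log_nonneg (by linarith)
  rw [sum_comm]
  have h1 : ∀ l' ∈ range b, ∑ l ∈ range b, hh b w l l' = 6 * b / (w + 1) * (kap b l' *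
      (∑ l ∈ range b, kap b l + ∑ l ∈ range b, kap2 b l)) := by
    intro l' hl'
    rw [mem_range] at hl'
    unfold hh
    rw [← mul_sum, ← mul_sum, sum_add_distrib, shift_sum (by omega) hl' (kap2 b)]
  rw [sum_congr rfl h1, ← mul_sum, ← sum_mul]
  have e1 := kap_sum (b := b) (by omega)
  have e2 := kap2_sum hb
  have e3 : 0 ≤ ∑ l ∈ range b, kap b l := sum_nonneg fun l _ => (kap_pos b l).le
  have e4 : 0 ≤ ∑ l ∈ range b, kap2 b l := sum_nonneg fun l _ => (kap2_pos b l).le
  calc 6 * (b : ℝ) / (w + 1) * ((∑ l ∈ range b, kap b l) * (∑ l ∈ range b, kap b l + ∑ l ∈ range b, kap2 b l)) ≤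
        6 * b / (w + 1) * ((2 * (1 + Real.log b)) * (2 * (1 + Real.log b) + 3 * (1 + Real.log b))) := by gcongr
    _ = _ := by ring

end Pool.Agent.Zk46.PP
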