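import Pool.Agent.Zk46.PP.Dec
import Pool.Agent.Zk46.PP.Pair
import Pool.Agent.Zk46.PP.Maj

set_option autoImplicit false

/-! The difference of the von Mangoldt function and its model modulo the base. -/

namespace Pool.Agent.Zk46.PP
open Finset
open Pool.Agent.H807R2.Dav
open Pool.Agent.H373R2.T7 (ev_log' ev_L' lam_ap)

/-- the difference of the von Mangoldt function and its model modulo `b` -/
noncomputable def ff (b n : ℕ) : ℝ := ArithmeticFunction.vonMangoldt n -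
  if n.Coprime b then (b : ℝ) / Nat.totient b else 0

/-- its exponential sum -/
noncomputable def GG (b N : ℕ) (θ : ℝ) : ℂ := ∑ m ∈ Icc 1 N, ((ff b m : ℝ) : ℂ) * ee (-(m * θ))

lemma ee_conj (x : ℝ) : (starRingEnd ℂ) (ee x) = ee (-x) := by
  unfold ee
  rw [← Complex.exp_conj]
  congr 1
  simp only [map_mul, Complex.conj_ofReal, Complex.conj_I, map_ofNat]
  push_cast
  ring

lemma PS_neg (N : ℕ) (θ : ℝ) : ‖∑ m ∈ Icc 1 N, ((ArithmeticFunction.vonMangoldt m : ℝ) : ℂ) * ee (-(m * θ))‖ = ‖PS N θ‖ := by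
  have h1 : ∑ m ∈ Icc 1 N, ((ArithmeticFunction.vonMangoldt m : ℝ) : ℂ) * ee (-(m * θ)) = (starRingEnd ℂ) (PS N θ) := by
    unfold PS
    rw [map_sum]
    refine sum_congr rfl fun m _ => ?_
    rw [map_mul, ee_conj, Complex.conj_ofReal]
  rw [h1, RCLike.norm_conj]

lemma shift_sum' {N a : ℕ} (hN : 0 < N) (ha : a ≤ N) (f : ℕ → ℂ) :
    ∑ l ∈ range N, f ((l + a) % N) = ∑ r ∈ range N, f r := by
  refine sum_nbij' (fun l => (l + a) % N) (fun r => (r + (N - a)) % N) ?_ ?_ ?_ ?_ ?_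
  · intro l _
    exact mem_range.2 (Nat.mod_lt _ hN)
  · intro l _
    exact mem_range.2 (Nat.mod_lt _ hN)
  · intro l hl
    rw [mem_range] at hl
    rw [Nat.mod_add_mod]
    have : l + a + (N - a) = l + N := by omega
    rw [this, Nat.add_mod_right, Nat.mod_eq_of_lt hl]
  · intro r hr
    rw [mem_range] at hr
    rw [Nat.mod_add_mod]
    have : r + (N - a) + a = r + N := by omega
    rw [this, Nat.add_mod_right, Nat.mod_eq_of_lt hr]
  · intro l _
    rfl

/-- the sum over the integers prime to `b` vanishes unless `N ∣ b k` -/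
lemma cop_zero {b N k : ℕ} (hb : 2 ≤ b) (hbN : b ∣ N) (hN : 1 ≤ N) (hk : ¬ N ∣ b * k) :
    ∑ m ∈ Icc 1 N, (if m.Coprime b then (1 : ℂ) else 0) * ee (-(m * ((k : ℝ) / N))) = 0 := by
  have hNr : (N : ℝ) ≠ 0 := by positivity
  set g : ℕ → ℂ := fun m => (if m.Coprime b then (1 : ℂ) else 0) * ee (-(m * ((k : ℝ) / N))) with hg
  have hbN' : b ≤ N := Nat.le_of_dvd hN hbN
  have h0 : g 0 = 0 := by
    have : ¬ Nat.Coprime 0 b := by rw [Nat.coprime_zero_left]; omega
    rw [hg]; simp only [if_neg this, zero_mul]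
  have hNN : g N = 0 := by
    have : ¬ Nat.Coprime N b := by
      intro h
      have := Nat.eq_one_of_dvd_coprimes h hbN dvd_rfl
      omega
    rw [hg]; simp only [if_neg this, zero_mul]
  have h1 : ∑ m ∈ Icc 1 N, g m = ∑ m ∈ range N, g m := by
    have h2 : Icc 1 N = Ico 1 (N + 1) := by ext x; simp [Nat.lt_succ_iff]
    rw [h2, sum_Ico_succ_top (by omega), hNN, add_zero, range_eq_Ico, sum_eq_sum_Ico_succ_bot (by omega : 0 < N), h0, zero_add]
  rw [h1]
  have hper : ∀ m, g (m % N) = g m := by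
    intro m
    rw [hg]
    simp only
    have e1 : (m % N).Coprime b ↔ m.Coprime b := by
      have e2 : m % N % b = m % b := Nat.mod_mod_of_dvd m hbN
      have e3 : ∀ x : ℕ, x.Coprime b ↔ (x % b).Coprime b := fun x => by
        unfold Nat.Coprime
        rw [Nat.gcd_comm x b, Nat.gcd_rec b x]
      rw [e3 (m % N), e3 m, e2]
    have e4 : ee (-(((m % N : ℕ) : ℝ) * ((k : ℝ) / N))) = ee (-(m * ((k : ℝ) / N))) := by
      obtain ⟨d, hd⟩ : ∃ d : ℕ, m = m % N + N * d := ⟨m / N, (Nat.mod_add_div m N).symm⟩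
      have e5 : (m : ℝ) = ((m % N : ℕ) : ℝ) + N * (d : ℝ) := by exact_mod_cast hd
      have e6 : -((m : ℝ) * ((k : ℝ) / N)) = -(((m % N : ℕ) : ℝ) * ((k : ℝ) / N)) + ((-((d : ℤ) * k) : ℤ) : ℝ) := by
        nth_rewrite 1 [e5]
        push_cast
        field_simp
        ring
      rw [e6, ee_add_int]
    rw [e4]
    simp only [e1]
  have hshift : ∀ m, g (m + b) = g m * ee (-((b : ℝ) * ((k : ℝ) / N))) := by
    intro m
    rw [hg]
    simp only
    have e1 : (m + b).Coprime b ↔ m.Coprime b := by simp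
    rw [mul_assoc, ← ee_add]
    simp only [e1]
    congr 2
    push_cast; ring
  have h2 : ∑ m ∈ range N, g m = (∑ m ∈ range N, g m) * ee (-((b : ℝ) * ((k : ℝ) / N))) := by
    calc ∑ m ∈ range N, g m = ∑ m ∈ range N, g ((m + b) % N) := (shift_sum' hN hbN' g).symm
      _ = ∑ m ∈ range N, g (m + b) := sum_congr rfl fun m _ => hper _
      _ = _ := by rw [sum_mul]; exact sum_congr rfl fun m _ => hshift m
  have h3 : (∑ m ∈ range N, g m) * (1 - ee (-((b : ℝ) * ((k : ℝ) / N)))) = 0 := by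
    rw [mul_sub, mul_one, ← h2, sub_self]
  rcases mul_eq_zero.1 h3 with h | h
  · exact h
  · exfalso
    obtain ⟨z, hz⟩ := ee_eq_one (sub_eq_zero.1 h).symm
    apply hk
    have h4 : ((b * k : ℕ) : ℤ) = N * (-z) := by
      have h5 : (b : ℝ) * k = N * (-z) := by
        have h6 : (b : ℝ) * ((k : ℝ) / N) = -z := by linarith
        rw [mul_div_assoc', div_eq_iff hNr] at h6
        rw [h6]; ring
      exact_mod_cast h5
    have h7 : (N : ℤ) ∣ ((b * k : ℕ) : ℤ) := ⟨-z, h4⟩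
    exact_mod_cast h7

/-- for the other frequencies the sum is that over the primes -/
lemma GG_eq {b N k : ℕ} (hb : 2 ≤ b) (hbN : b ∣ N) (hN : 1 ≤ N) (hk : ¬ N ∣ b * k) :
    ‖GG b N ((k : ℝ) / N)‖ = ‖PS N ((k : ℝ) / N)‖ := by
  rw [← PS_neg]
  congr 1
  unfold GG ff
  have h1 := cop_zero hb hbN hN hk
  have h2 : ∑ m ∈ Icc 1 N, (((ArithmeticFunction.vonMangoldt m - if m.Coprime b then (b : ℝ) / Nat.totient b else 0 : ℝ)) : ℂ) *
      ee (-(m * ((k : ℝ) / N))) = ∑ m ∈ Icc 1 N, ((ArithmeticFunction.vonMangoldt m : ℝ) : ℂ) * ee (-(m * ((k : ℝ) / N))) -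
        ((b : ℂ) / Nat.totient b) * ∑ m ∈ Icc 1 N, (if m.Coprime b then (1 : ℂ) else 0) * ee (-(m * ((k : ℝ) / N))) := by
    rw [mul_sum, ← sum_sub_distrib]
    refine sum_congr rfl fun m _ => ?_
    split_ifs
    · push_cast; ring
    · push_cast; ring
  rw [h2, h1, mul_zero, sub_zero]

lemma count_res {b N' r : ℕ} (hb : 0 < b) : ((Icc 1 (b * N')).filter fun m => m ≡ r [MOD b]).card = N' := by
  have h := Nat.Ioc_filter_modEq_card 0 (b * N') hb r
  have h2 : Ioc 0 (b * N') = Icc 1 (b * N') := by ext x; simp [Nat.succ_le_iff]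
  rw [h2] at h
  have hbr : (b : ℚ) ≠ 0 := by positivity
  have h3 : ((b * N' : ℕ) : ℚ) - r = b * N' + (0 - r) := by push_cast; ring
  have h4 : ⌊(((b * N' : ℕ) : ℚ) - r) / b⌋ = ⌊((0 : ℕ) - (r : ℚ)) / b⌋ + N' := by
    rw [h3, add_div, mul_div_cancel_left₀ _ hbr]
    have : (N' : ℚ) + (0 - (r : ℚ)) / b = (((0 : ℕ) : ℚ) - r) / b + (N' : ℤ) := by push_cast; ring
    rw [this, Int.floor_add_intCast]
  rw [h4] at h
  have h5 : max (⌊(((0 : ℕ) : ℚ) - r) / b⌋ + (N' : ℤ) - ⌊(((0 : ℕ) : ℚ) - r) / b⌋) 0 = N' := by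
    rw [add_sub_cancel_left]; simp
  rw [h5] at h
  exact_mod_cast h

/-- the special frequencies -/
lemma GG_spec (b : ℕ) (hb : 2 ≤ b) : ∃ N0 : ℕ, ∀ N : ℕ, N0 ≤ N → b ∣ N → ∀ k : ℕ, N ∣ b * k →
    ‖GG b N ((k : ℝ) / N)‖ ≤ b * (N / Real.log N) := by
  obtain ⟨N1, h1⟩ := lam_ap 1 1
  obtain ⟨N2, h2⟩ := ev_L' b
  refine ⟨max N1 (max N2 1), fun N hN hbN k hk => ?_⟩
  have hN1 : N1 ≤ N := (le_max_left _ _).trans hN
  have hL := h2 N ((le_max_left _ _).trans ((le_max_right _ _).trans hN))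
  have hNpos : 1 ≤ N := (le_max_right _ _).trans ((le_max_right _ _).trans hN)
  have hNr : (0 : ℝ) < N := by exact_mod_cast hNpos
  have hb0 : 0 < b := by omega
  have hbr : (0 : ℝ) < b := by exact_mod_cast hb0
  obtain ⟨N', rfl⟩ := hbN
  obtain ⟨a, ha⟩ := hk
  have hN'0 : 0 < N' := by
    rcases Nat.eq_zero_or_pos N' with h | h
    · subst h; simp at hNpos
    · exact h
  have hN'r : (0 : ℝ) < N' := by exact_mod_cast hN'0
  have hka : k = N' * a := by
    have : b * k = b * (N' * a) := by rw [ha]; ring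
    exact Nat.eq_of_mul_eq_mul_left hb0 this
  have hθ : (k : ℝ) / ((b * N' : ℕ) : ℝ) = (a : ℝ) / b := by
    rw [hka]; push_cast; field_simp
  rw [hθ]
  unfold GG
  have hφ : (0 : ℝ) < Nat.totient b := by exact_mod_cast Nat.totient_pos.2 hb0
  have e1 : ∑ m ∈ Icc 1 (b * N'), ((ff b m : ℝ) : ℂ) * ee (-(m * ((a : ℝ) / b))) =
      ∑ r ∈ range b, ee (-(r * ((a : ℝ) / b))) * ((∑ m ∈ (Icc 1 (b * N')).filter (fun m => m ≡ r [MOD b]), ff b m : ℝ) : ℂ) := by
    have hmaps : ∀ m ∈ Icc 1 (b * N'), m % b ∈ range b := fun m _ => mem_range.2 (Nat.mod_lt _ hb0)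
    rw [← sum_fiberwise_of_maps_to hmaps]
    refine sum_congr rfl fun r hr => ?_
    rw [mem_range] at hr
    push_cast
    rw [mul_sum]
    have e2 : (Icc 1 (b * N')).filter (fun m => m % b = r) = (Icc 1 (b * N')).filter (fun m => m ≡ r [MOD b]) := by
      refine filter_congr fun m _ => ?_
      unfold Nat.ModEq
      rw [Nat.mod_eq_of_lt hr]
    rw [e2]
    refine sum_congr rfl fun m hm => ?_
    have h2 : m ≡ r [MOD b] := (mem_filter.1 hm).2
    rw [mul_comm]
    congr 1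
    obtain ⟨t, ht⟩ : ∃ t : ℤ, (m : ℤ) = r + b * t := by
      obtain ⟨t, ht⟩ := Nat.modEq_iff_dvd.1 h2.symm
      exact ⟨t, by linarith⟩
    have e3 : -((m : ℝ) * ((a : ℝ) / b)) = -((r : ℝ) * ((a : ℝ) / b)) + ((-(t * a) : ℤ) : ℝ) := by
      have : (m : ℝ) = r + b * t := by exact_mod_cast ht
      rw [this]; push_cast; field_simp; ring
    rw [e3, ee_add_int]
  rw [e1]
  refine (norm_sum_le _ _).trans ?_
  have hpt : ∀ r ∈ range b, ‖ee (-(r * ((a : ℝ) / b))) * ((∑ m ∈ (Icc 1 (b * N')).filter (fun m => m ≡ r [MOD b]), ff b m : ℝ) : ℂ)‖ ≤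
      ((b * N' : ℕ) : ℝ) / Real.log ((b * N' : ℕ) : ℝ) := by
    intro r _
    rw [norm_mul, norm_ee, one_mul, Complex.norm_real, Real.norm_eq_abs]
    have h3 := h1 (b * N') hN1 b (by omega) (by rw [pow_one]; exact hL) r (b * N') le_rfl
    rw [pow_one] at h3
    have e2 : ∑ m ∈ (Icc 1 (b * N')).filter (fun m => m ≡ r [MOD b]), ff b m =
        ∑ m ∈ (Icc 1 (b * N')).filter (fun m => m ≡ r [MOD b]), ArithmeticFunction.vonMangoldt m -
          (if r.Coprime b then (((b * N' : ℕ) : ℝ)) / (Nat.totient b : ℝ) else 0) := by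
      unfold ff
      rw [sum_sub_distrib]
      congr 1
      have e4 : ∀ m ∈ (Icc 1 (b * N')).filter (fun m => m ≡ r [MOD b]), (if m.Coprime b then (b : ℝ) / Nat.totient b else 0) =
          if r.Coprime b then (b : ℝ) / Nat.totient b else 0 := by
        intro m hm
        have h4 : m ≡ r [MOD b] := (mem_filter.1 hm).2
        have h5 : m.Coprime b ↔ r.Coprime b := by
          unfold Nat.Coprime
          rw [h4.gcd_eq]
        simp only [h5]
      rw [sum_congr rfl e4, sum_const, count_res hb0, nsmul_eq_mul]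
      split_ifs
      · push_cast; ring
      · simp
    rw [e2]
    exact h3
  refine (sum_le_sum hpt).trans ?_
  rw [sum_const, card_range, nsmul_eq_mul]

end Pool.Agent.Zk46.PP
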