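import Pool.Agent.H373R2.T7.Minor

set_option autoImplicit false

/-! A quantitative bound for the exponential sum over primes with the exponent `4/5`. -/

namespace Pool.Agent.Zk46.PP
open Finset
open Pool.Agent.H807R2.Dav
open Pool.Agent.H373R2.T7 (ev_log' ev_L' block_lin)

/-- exponential sums over primes, all ranges -/
theorem minor_sq : ∃ N0 : ℕ, ∀ N : ℕ, N0 ≤ N → ∀ V q : ℕ, 1 ≤ V → V * V ≤ N → 1 ≤ q → q ≤ N →
    ∀ c : ℤ, IsCoprime c (q : ℤ) → ∀ α : ℝ, |α - c / q| ≤ 1 / (q : ℝ) ^ 2 →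
    ‖∑ n ∈ Icc 1 N, ((ArithmeticFunction.vonMangoldt n : ℝ) : ℂ) * ee ((n : ℝ) * α)‖ ≤
      200000 * Real.log N ^ 7 * (N * √(1 / (q : ℝ) + 1 / V + q / N) + V * V) := by
  obtain ⟨n2, h2⟩ := ev_L' 10
  refine ⟨max n2 16, fun N hN V q hVn hV2 hqn hqNn c hcop α hα => ?_⟩
  have hNn2 : n2 ≤ N := le_trans (le_max_left _ _) hN
  have hN16 : 16 ≤ N := le_trans (le_max_right _ _) hN
  have hNr : (16 : ℝ) ≤ N := by exact_mod_cast hN16
  have hN0 : (0 : ℝ) < N := by linarith
  set ℓ := Real.log N with hℓ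
  have hℓ1 : 10 ≤ ℓ := h2 N hNn2
  have hℓ0 : 0 < ℓ := by linarith
  have hV0 : (1 : ℝ) ≤ V := by exact_mod_cast hVn
  have hVpos : (0 : ℝ) < V := by linarith
  have hqr : (1 : ℝ) ≤ q := by exact_mod_cast hqn
  have hq0 : (0 : ℝ) < q := by linarith
  have hqN : (q : ℝ) ≤ N := by exact_mod_cast hqNn
  have hlq : Real.log q ≤ ℓ := Real.log_le_log hq0 hqN
  have hlq0 : 0 ≤ Real.log q := Real.log_nonneg hqr
  have hVVpos : 0 < V * V := Nat.mul_pos hVn hVn
  set δ : ℝ := 1 / (q : ℝ) + 1 / V + q / N with hδ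
  set d : ℝ := √δ with hd
  have hδ0 : 0 ≤ δ := by positivity
  have hd0 : 0 ≤ d := Real.sqrt_nonneg _
  have hδd : δ = d * d := (Real.mul_self_sqrt hδ0).symm
  have hδ3 : δ ≤ 3 := by
    have a1 : 1 / (q : ℝ) ≤ 1 := by rw [div_le_one hq0]; exact hqr
    have a2 : 1 / (V : ℝ) ≤ 1 := by rw [div_le_one hVpos]; exact hV0
    have a3 : (q : ℝ) / N ≤ 1 := by rw [div_le_one hN0]; exact hqN
    linarith
  have hd2 : d ≤ 2 := by
    rw [hd, Real.sqrt_le_left (by norm_num)]
    linarith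
  have hδ2 : δ ≤ 2 * d := by
    rw [hδd]
    exact mul_le_mul_of_nonneg_right hd2 hd0
  -- the sequence of endpoints
  obtain ⟨y, hy0, hy1⟩ : ∃ y : ℕ → ℕ, y 0 = N ∧ ∀ i, y (i + 1) = (y i + 1) / 2 :=
    ⟨fun i => Nat.rec N (fun _ z => (z + 1) / 2) i, rfl, fun i => rfl⟩
  have hylow : ∀ i, (N : ℝ) / 2 ^ i ≤ y i := by
    intro i
    induction i with
    | zero => rw [hy0]; simp
    | succ i ih =>
      rw [hy1]
      have h3 : y i ≤ 2 * ((y i + 1) / 2) := by omega
      have h4 : (y i : ℝ) ≤ 2 * (((y i + 1) / 2 : ℕ) : ℝ) := by exact_mod_cast h3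
      rw [pow_succ]
      have h5 : (N : ℝ) / (2 ^ i * 2) = (N / 2 ^ i) / 2 := by rw [div_div]
      rw [h5]; linarith
  have hyup : ∀ i, (y i : ℝ) ≤ (N : ℝ) / 2 ^ i + 1 := by
    intro i
    induction i with
    | zero => rw [hy0]; simp
    | succ i ih =>
      rw [hy1]
      have h3 : 2 * ((y i + 1) / 2) ≤ y i + 1 := by omega
      have h4 : 2 * (((y i + 1) / 2 : ℕ) : ℝ) ≤ y i + 1 := by exact_mod_cast h3
      rw [pow_succ]
      have h5 : (N : ℝ) / (2 ^ i * 2) = (N / 2 ^ i) / 2 := by rw [div_div]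
      rw [h5]; linarith
  have hyle : ∀ i, y i ≤ N := by
    intro i
    induction i with
    | zero => rw [hy0]
    | succ i ih => rw [hy1]; omega
  set I := Nat.log 2 (N / (V * V)) with hI
  have hNV : 1 ≤ N / (V * V) := (Nat.one_le_div_iff hVVpos).2 hV2
  have hI1 : 2 ^ I ≤ N / (V * V) := Nat.pow_log_le_self 2 (by omega)
  have hI2 : N / (V * V) < 2 ^ (I + 1) := Nat.lt_pow_succ_log_self (by norm_num) _
  have hI1r : (2 : ℝ) ^ I * ((V * V : ℕ) : ℝ) ≤ N := by
    have : 2 ^ I * (V * V) ≤ N := (Nat.le_div_iff_mul_le hVVpos).1 hI1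
    exact_mod_cast this
  have hI2r : (N : ℝ) ≤ 2 * 2 ^ I * ((V * V : ℕ) : ℝ) := by
    have h3 : N < 2 ^ (I + 1) * (V * V) := (Nat.div_lt_iff_lt_mul hVVpos).1 hI2
    have h4 : N ≤ 2 * 2 ^ I * (V * V) := by
      rw [pow_succ] at h3
      have : 2 ^ I * 2 * (V * V) = 2 * 2 ^ I * (V * V) := by ring
      omega
    exact_mod_cast h4
  have hyV : ∀ i, i ≤ I → V * V ≤ y i := by
    intro i hi
    have h3r : ((2 : ℝ) ^ i) ≤ 2 ^ I := pow_le_pow_right₀ (by norm_num) hi
    have h4 : ((V * V : ℕ) : ℝ) ≤ (N : ℝ) / 2 ^ i := by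
      rw [le_div_iff₀ (by positivity)]
      calc ((V * V : ℕ) : ℝ) * 2 ^ i ≤ ((V * V : ℕ) : ℝ) * 2 ^ I := mul_le_mul_of_nonneg_left h3r (Nat.cast_nonneg _)
        _ ≤ N := by linarith
    have h5 := h4.trans (hylow i)
    exact_mod_cast h5
  set E : ℕ → ℂ := fun n => ((ArithmeticFunction.vonMangoldt n : ℝ) : ℂ) * ee ((n : ℝ) * α) with hE
  set W : ℝ := ((V * V : ℕ) : ℝ) with hW
  have hW1 : 1 ≤ W := by rw [hW]; exact_mod_cast hVVpos
  set G : ℝ := ℓ ^ 6 * (N * d + W) with hG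
  have hG0 : 0 ≤ G := by positivity
  have hlog4 : Real.log 4 ≤ 2 := by
    have h1 : Real.log 4 = 2 * Real.log 2 := by
      rw [show (4 : ℝ) = 2 ^ 2 by norm_num, Real.log_pow]; push_cast; ring
    have := Real.log_two_lt_d9
    linarith
  have hVlog : (Nat.log 2 (V * V) + 1 : ℝ) ≤ 2 * ℓ := by
    have h3 : (Nat.log 2 (V * V) : ℝ) * Real.log 2 ≤ ℓ := by
      have h4 : (2 : ℝ) ^ Nat.log 2 (V * V) ≤ ((V * V : ℕ) : ℝ) := by
        exact_mod_cast Nat.pow_log_le_self 2 (by positivity)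
      have h5 : ((V * V : ℕ) : ℝ) ≤ N := by exact_mod_cast hV2
      have h7 := Real.log_le_log (by positivity) (h4.trans h5)
      rwa [Real.log_pow] at h7
    have h4 := Real.log_two_gt_d9
    have h5 : (0 : ℝ) ≤ Nat.log 2 (V * V) := Nat.cast_nonneg _
    nlinarith
  have hNδ : (N : ℝ) * δ = N / q + N / V + q := by
    rw [hδ]; field_simp
  have hblock : ∀ i, i < I → ‖∑ n ∈ Ioc (y (i + 1)) (y i), E n‖ ≤ 40000 * G := by
    intro i hi
    have hyi := hyV (i + 1) (by omega)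
    have h3 := block_lin hqn hcop hα (y (i + 1)) (y i) V (by omega) (by rw [hy1]; omega) (by rw [hy1]; omega) hVn hyi
    refine h3.trans ?_
    set P : ℝ := (y (i + 1) : ℝ) with hP
    have hP1 : 1 ≤ P := by
      rw [hP]; exact_mod_cast (by omega : 1 ≤ y (i + 1))
    have hPN : P ≤ N := by rw [hP]; exact_mod_cast hyle (i + 1)
    have hLg : 1 + Real.log (4 * P) ≤ 2 * ℓ := by
      rw [Real.log_mul (by norm_num) (by linarith)]
      have := Real.log_le_log (by linarith) hPN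
      linarith
    have hLg0 : 0 ≤ 1 + Real.log (4 * P) := by
      have := Real.log_nonneg (show (1 : ℝ) ≤ 4 * P by linarith)
      linarith
    have hPq : P / q ≤ N / q := div_le_div_of_nonneg_right hPN hq0.le
    have hPV : P / V ≤ N / V := div_le_div_of_nonneg_right hPN hVpos.le
    have hR : Real.sqrt (672 * (1 + Real.log q) * (P * (P / q + P / V + q))) ≤ 37 * ℓ * (N * d) := by
      rw [Real.sqrt_le_left (by positivity)]
      calc 672 * (1 + Real.log q) * (P * (P / q + P / V + q)) ≤ 672 * (2 * ℓ) * (N * (N / q + N / V + q)) := by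
            gcongr
            linarith
        _ = 1344 * ℓ * (N * (N * δ)) := by rw [hNδ]; ring
        _ = 1344 * ℓ * (N * d) ^ 2 := by rw [hδd]; ring
        _ ≤ 1369 * ℓ ^ 2 * (N * d) ^ 2 := by
            apply mul_le_mul_of_nonneg_right _ (by positivity)
            nlinarith
        _ = (37 * ℓ * (N * d)) ^ 2 := by ring
    have b1 : 8 * (1 + Real.log (4 * P)) ^ 5 * Real.sqrt (672 * (1 + Real.log q) * (P * (P / q + P / V + q))) ≤ 9472 * G := by
      calc _ ≤ 8 * (2 * ℓ) ^ 5 * (37 * ℓ * (N * d)) := by gcongr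
        _ = 9472 * (ℓ ^ 6 * (N * d)) := by ring
        _ ≤ 9472 * G := by
            rw [hG]
            gcongr
            linarith
    have b2 : 3 * (1 + Real.log (4 * P)) * (600 * (Nat.log 2 (V * V) + 1 : ℝ) * (P / q + ((V * V : ℕ) : ℝ) + q) * (1 + Real.log q)) ≤
        28800 * G := by
      have hZ : P / q + W + q ≤ (N / q + N / V + q) + W := by
        have : (0 : ℝ) ≤ N / V := by positivity
        linarith
      calc 3 * (1 + Real.log (4 * P)) * (600 * (Nat.log 2 (V * V) + 1 : ℝ) * (P / q + W + q) * (1 + Real.log q)) ≤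
            3 * (2 * ℓ) * (600 * (2 * ℓ) * ((N / q + N / V + q) + W) * (2 * ℓ)) := by
            have hA : 600 * (Nat.log 2 (V * V) + 1 : ℝ) ≤ 600 * (2 * ℓ) := by linarith
            have hC : 1 + Real.log q ≤ 2 * ℓ := by linarith
            have hC0 : 0 ≤ 1 + Real.log q := by linarith
            have hB := mul_le_mul (mul_le_mul hA hZ (by positivity) (by positivity)) hC hC0 (by positivity)
            exact mul_le_mul (mul_le_mul_of_nonneg_left hLg (by norm_num)) hB (by positivity) (by positivity)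
        _ = 14400 * (ℓ ^ 3 * (N * δ + W)) := by rw [hNδ]; ring
        _ ≤ 14400 * (ℓ ^ 6 * (N * (2 * d) + 2 * W)) := by
            have : ℓ ^ 3 ≤ ℓ ^ 6 := pow_le_pow_right₀ (by linarith) (by norm_num)
            have : W ≤ 2 * W := by linarith
            gcongr
        _ = 28800 * G := by rw [hG]; ring
    linarith
  -- telescoping
  have htel : ∀ J : ℕ, J ≤ I → ‖∑ n ∈ Icc 1 N, E n‖ ≤ ‖∑ n ∈ Icc 1 (y J), E n‖ + J * (40000 * G) := by
    intro J
    induction J with
    | zero => intro _; rw [hy0]; simp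
    | succ J ih =>
      intro hJ
      have h3 := ih (by omega)
      have h4 := hblock J (by omega)
      have h5 : ∑ n ∈ Icc 1 (y J), E n = ∑ n ∈ Icc 1 (y (J + 1)), E n + ∑ n ∈ Ioc (y (J + 1)) (y J), E n := by
        have hle : y (J + 1) ≤ y J ∨ y J = 0 := by
          rw [hy1]; omega
        rcases hle with hle | hle
        · rw [← sum_union (by
            rw [disjoint_left]; intro n hn hn'
            rw [mem_Icc] at hn; rw [mem_Ioc] at hn'; omega)]
          congr 1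
          ext n
          rw [mem_union, mem_Icc, mem_Icc, mem_Ioc]
          omega
        · exfalso
          have := hyV J (by omega)
          omega
      rw [h5] at h3
      have h6 := norm_add_le (∑ n ∈ Icc 1 (y (J + 1)), E n) (∑ n ∈ Ioc (y (J + 1)) (y J), E n)
      push_cast
      linarith
  have hlast : ‖∑ n ∈ Icc 1 (y I), E n‖ ≤ (y I : ℝ) * ℓ := by
    refine (norm_sum_le _ _).trans ?_
    have h3 : ∀ n ∈ Icc 1 (y I), ‖E n‖ ≤ ℓ := by
      intro n hn
      rw [mem_Icc] at hn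
      rw [hE]
      simp only
      rw [norm_mul, norm_ee, mul_one, Complex.norm_real, Real.norm_of_nonneg ArithmeticFunction.vonMangoldt_nonneg]
      refine ArithmeticFunction.vonMangoldt_le_log.trans ?_
      apply Real.log_le_log (by exact_mod_cast hn.1)
      exact_mod_cast hn.2.trans (hyle I)
    refine (sum_le_sum h3).trans ?_
    rw [sum_const, Nat.card_Icc, nsmul_eq_mul, Nat.add_sub_cancel]
  have h3 := htel I le_rfl
  have hIl : (I : ℝ) ≤ 2 * ℓ := by
    have h5 : (2 : ℝ) ^ I ≤ N := by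
      have : (2 : ℝ) ^ I * 1 ≤ (2 : ℝ) ^ I * ((V * V : ℕ) : ℝ) := mul_le_mul_of_nonneg_left hW1 (by positivity)
      linarith
    have h7 := Real.log_le_log (by positivity) h5
    rw [Real.log_pow] at h7
    have h4 := Real.log_two_gt_d9
    have h5 : (0 : ℝ) ≤ I := Nat.cast_nonneg _
    nlinarith
  have hyI : (y I : ℝ) ≤ 3 * W := by
    have h4 := hyup I
    have h5 : (N : ℝ) / 2 ^ I ≤ 2 * W := by
      rw [div_le_iff₀ (by positivity)]
      rw [hW]
      nlinarith
    linarith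
  have hyI2 : (y I : ℝ) * ℓ ≤ 3 * (ℓ * G) := by
    calc (y I : ℝ) * ℓ ≤ 3 * W * ℓ := mul_le_mul_of_nonneg_right hyI hℓ0.le
      _ = 3 * (ℓ * (1 * W)) := by ring
      _ ≤ 3 * (ℓ * (ℓ ^ 6 * (N * d + W))) := by
          have : 1 ≤ ℓ ^ 6 := one_le_pow₀ (by linarith)
          have : 0 ≤ N * d := by positivity
          gcongr
          linarith
  have h4 : (I : ℝ) * (40000 * G) ≤ 80000 * (ℓ * G) := by
    calc (I : ℝ) * (40000 * G) ≤ (2 * ℓ) * (40000 * G) := mul_le_mul_of_nonneg_right hIl (by positivity)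
      _ = 80000 * (ℓ * G) := by ring
  have hlG : 0 ≤ ℓ * G := by positivity
  have h5 : ‖∑ n ∈ Icc 1 N, E n‖ ≤ 200000 * (ℓ * G) := by linarith
  refine h5.trans (le_of_eq ?_)
  rw [hG, hW]
  push_cast
  ring

end Pool.Agent.Zk46.PP
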